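import Pool.Agent.H2Blocks.L_h33

/-!
# Blocks with a long orbit modulo `k` satisfy a word with more variables modulo the centre
-/

set_option autoImplicit false

namespace Pool.Agent.H2Blocks

/-! ### The new word -/

/-- the new word, with the heights modulo `k` -/
def M28_tr (k : ℕ) (a : ℕ → ℤ) : List (ℕ × Bool) → List (ℕ × Bool)
  | [] => []
  | x :: L => (Encodable.encode (x.1, L33_pos a x L % (k : ℤ)), x.2) :: M28_tr k a L

theorem M28_length (k : ℕ) (a : ℕ → ℤ) (L : List (ℕ × Bool)) :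
    (M28_tr k a L).length = L.length := by
  induction L with
  | nil => rfl
  | cons x L ih => simp [M28_tr, ih]

theorem M28_red {k : ℕ} {a : ℕ → ℤ} {L : List (ℕ × Bool)} (h : Red L) : Red (M28_tr k a L) := by
  unfold Red at *
  induction L with
  | nil => exact List.isChain_nil
  | cons x L ih =>
    cases L with
    | nil => exact List.isChain_singleton _
    | cons y L =>
      rw [List.isChain_cons_cons] at h
      refine List.isChain_cons_cons.2 ⟨fun he => h.1 ?_, ih h.2⟩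
      have h1 := Encodable.encode_injective he
      exact (Prod.mk.inj h1).1

/-! ### The block elements -/

variable {G : Type} [Group G]

theorem M28_cent {B : Subgroup G} {h : G} {k : ℕ} (hk : ∀ y ∈ B, h ^ k * y = y * h ^ k)
    {i : ℤ} (hi : (k : ℤ) ∣ i) {y : G} (hy : y ∈ B) : h ^ i * y * (h ^ i)⁻¹ = y := by
  obtain ⟨j, rfl⟩ := hi
  have h1 : Commute (h ^ k) y := hk y hy
  have h2 : Commute ((h ^ k) ^ j) y := h1.zpow_left j
  have h3 : h ^ ((k : ℤ) * j) = (h ^ k) ^ j := by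
    rw [zpow_mul, zpow_natCast]
  rw [h3, h2.eq, mul_assoc, mul_inv_cancel, mul_one]

theorem M28_block {B : Subgroup G} {h : G} {k : ℕ} (hk : ∀ y ∈ B, h ^ k * y = y * h ^ k)
    (hcomm : ∀ i : ℤ, ¬ (k : ℤ) ∣ i → ∀ y ∈ B, ∀ z ∈ B,
      y * (h ^ i * z * (h ^ i)⁻¹) = (h ^ i * z * (h ^ i)⁻¹) * y)
    (b : ℤ → G) (hb : ∀ q, b q ∈ B) (S : Finset ℤ) (hS : ∀ r ∈ S, r % (k : ℤ) = r) :
    ∃ P : G, (∀ q : ℤ, q % (k : ℤ) ∈ S → ∀ y ∈ B,
        P * (h ^ q * y * (h ^ q)⁻¹) * P⁻¹ =
          h ^ q * (b (q % (k : ℤ)) * y * (b (q % (k : ℤ)))⁻¹) * (h ^ q)⁻¹) ∧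
      ∀ q : ℤ, q % (k : ℤ) ∉ S → ∀ y ∈ B,
        P * (h ^ q * y * (h ^ q)⁻¹) * P⁻¹ = h ^ q * y * (h ^ q)⁻¹ := by
  induction S using Finset.induction_on with
  | empty => exact ⟨1, by simp, by simp⟩
  | insert r S hr ih =>
    obtain ⟨P, h1, h2⟩ := ih fun q hq => hS q (Finset.mem_insert_of_mem hq)
    have hrr := hS r (Finset.mem_insert_self r S)
    -- the new factor commutes with the other blocks
    have h3 : ∀ q : ℤ, q % (k : ℤ) ≠ r → ∀ y ∈ B,
        (h ^ r * b r * (h ^ r)⁻¹) * (h ^ q * y * (h ^ q)⁻¹) * (h ^ r * b r * (h ^ r)⁻¹)⁻¹ =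
          h ^ q * y * (h ^ q)⁻¹ := by
      intro q hqr y hy
      have hnd : ¬ (k : ℤ) ∣ q - r := by
        intro hd
        have h8 : q % (k : ℤ) = r % (k : ℤ) := (Int.modEq_iff_dvd.2 hd).symm
        exact hqr (h8.trans hrr)
      have h4 := hcomm (q - r) hnd (b r) (hb r) y hy
      have h5 : h ^ q = h ^ r * h ^ (q - r) := by
        rw [← zpow_add]
        congr 1
        ring
      rw [mul_inv_eq_iff_eq_mul, h5]
      calc h ^ r * b r * (h ^ r)⁻¹ * (h ^ r * h ^ (q - r) * y * (h ^ r * h ^ (q - r))⁻¹)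
          = h ^ r * (b r * (h ^ (q - r) * y * (h ^ (q - r))⁻¹)) * (h ^ r)⁻¹ := by group
        _ = h ^ r * ((h ^ (q - r) * y * (h ^ (q - r))⁻¹) * b r) * (h ^ r)⁻¹ := by rw [h4]
        _ = _ := by group
    -- its own residue class
    have h7 : ∀ q : ℤ, q % (k : ℤ) = r → ∀ y ∈ B, h ^ q * y * (h ^ q)⁻¹ = h ^ r * y * (h ^ r)⁻¹ := by
      intro q hqr y hy
      have hd : (k : ℤ) ∣ q - r := by
        rw [← hqr]
        exact Int.dvd_self_sub_emod
      have h5 : h ^ q = h ^ r * h ^ (q - r) := by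
        rw [← zpow_add]
        congr 1
        ring
      rw [h5]
      calc h ^ r * h ^ (q - r) * y * (h ^ r * h ^ (q - r))⁻¹
          = h ^ r * (h ^ (q - r) * y * (h ^ (q - r))⁻¹) * (h ^ r)⁻¹ := by group
        _ = _ := by rw [M28_cent hk hd hy]
    refine ⟨(h ^ r * b r * (h ^ r)⁻¹) * P, ?_, ?_⟩
    · intro q hq y hy
      have h6 : (h ^ r * b r * (h ^ r)⁻¹) * P * (h ^ q * y * (h ^ q)⁻¹) *
          ((h ^ r * b r * (h ^ r)⁻¹) * P)⁻¹ = (h ^ r * b r * (h ^ r)⁻¹) *
            (P * (h ^ q * y * (h ^ q)⁻¹) * P⁻¹) * (h ^ r * b r * (h ^ r)⁻¹)⁻¹ := by group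
      rw [h6]
      by_cases hqr : q % (k : ℤ) = r
      · have hqS : q % (k : ℤ) ∉ S := hqr ▸ hr
        rw [h2 q hqS y hy, h7 q hqr y hy, hqr,
          h7 q hqr _ (B.mul_mem (B.mul_mem (hb r) hy) (B.inv_mem (hb r)))]
        group
      · have hqS : q % (k : ℤ) ∈ S := (Finset.mem_insert.1 hq).resolve_left hqr
        rw [h1 q hqS y hy]
        exact h3 q hqr _ (B.mul_mem (B.mul_mem (hb _) hy) (B.inv_mem (hb _)))
    · intro q hq y hy
      rw [Finset.mem_insert, not_or] at hq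
      have h6 : (h ^ r * b r * (h ^ r)⁻¹) * P * (h ^ q * y * (h ^ q)⁻¹) *
          ((h ^ r * b r * (h ^ r)⁻¹) * P)⁻¹ = (h ^ r * b r * (h ^ r)⁻¹) *
            (P * (h ^ q * y * (h ^ q)⁻¹) * P⁻¹) * (h ^ r * b r * (h ^ r)⁻¹)⁻¹ := by group
      rw [h6, h2 q hq.2 y hy]
      exact h3 q hq.1 y hy

/-- the elements which are substituted for the variables -/
theorem M28_sub {B : Subgroup G} {h : G} {k : ℕ} (hk : ∀ y ∈ B, h ^ k * y = y * h ^ k)
    (hcomm : ∀ i : ℤ, ¬ (k : ℤ) ∣ i → ∀ y ∈ B, ∀ z ∈ B,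
      y * (h ^ i * z * (h ^ i)⁻¹) = (h ^ i * z * (h ^ i)⁻¹) * y)
    (l a : ℤ) (b : ℤ → B) :
    ∃ x : G, ∀ q : ℤ, |q| ≤ l → ∀ y ∈ B,
      x * (h ^ q * y * (h ^ q)⁻¹) * x⁻¹ =
        h ^ (q + a) * ((b (q % (k : ℤ)) : G) * y * (b (q % (k : ℤ)) : G)⁻¹) *
          (h ^ (q + a))⁻¹ := by
  obtain ⟨P, h1, -⟩ := M28_block hk hcomm (fun q => (b q : G)) (fun q => (b q).2)
    ((Finset.Icc (-l) l).image fun q => q % (k : ℤ)) (fun r hr => by
      obtain ⟨q, -, rfl⟩ := Finset.mem_image.1 hr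
      exact Int.emod_emod q (k : ℤ))
  refine ⟨h ^ a * P, fun q hq y hy => ?_⟩
  have h2 := h1 q (Finset.mem_image_of_mem _ (Finset.mem_Icc.2 (abs_le.1 hq))) y hy
  have h3 : h ^ a * P * (h ^ q * y * (h ^ q)⁻¹) * (h ^ a * P)⁻¹ =
      h ^ a * (P * (h ^ q * y * (h ^ q)⁻¹) * P⁻¹) * (h ^ a)⁻¹ := by group
  rw [h3, h2, add_comm q a, zpow_add]
  group

/-- the action of a word -/
theorem M28_act {B : Subgroup G} {h : G} {k : ℕ} {l : ℤ} {a : ℕ → ℤ} (ha : ∀ i, |a i| ≤ 1)
    {x : ℕ → G} {f : ℕ → B}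
    (hx : ∀ i, ∀ q : ℤ, |q| ≤ l → ∀ y ∈ B, x i * (h ^ q * y * (h ^ q)⁻¹) * (x i)⁻¹ =
      h ^ (q + a i) * ((f (Encodable.encode (i, q % (k : ℤ))) : G) * y *
        (f (Encodable.encode (i, q % (k : ℤ))) : G)⁻¹) * (h ^ (q + a i))⁻¹)
    (L : List (ℕ × Bool)) (hL : (L.length : ℤ) ≤ l) (y : G) (hy : y ∈ B) :
    ev x L * y * (ev x L)⁻¹ = h ^ L33_ht a L * (((ev f (M28_tr k a L) : B) : G) * y *
      ((ev f (M28_tr k a L) : B) : G)⁻¹) * (h ^ L33_ht a L)⁻¹ := by
  induction L with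
  | nil => simp [ev, L33_ht, M28_tr]
  | cons c L ih =>
    have hL' : (L.length : ℤ) + 1 ≤ l := by
      simpa [List.length_cons] using hL
    have h1 := ih (by linarith)
    have hq := L33_ht_abs ha L
    have hw : ((ev f (M28_tr k a L) : B) : G) * y * ((ev f (M28_tr k a L) : B) : G)⁻¹ ∈ B :=
      B.mul_mem (B.mul_mem (SetLike.coe_mem _) hy) (B.inv_mem (SetLike.coe_mem _))
    rcases c with ⟨i, _ | _⟩
    · have h2 : ev x ((i, false) :: L) = (x i)⁻¹ * ev x L := by simp [ev]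
      have h3 : ev f (M28_tr k a ((i, false) :: L)) =
          (f (Encodable.encode (i, (L33_ht a L - a i) % (k : ℤ))))⁻¹ * ev f (M28_tr k a L) := by
        simp [ev, M28_tr, L33_pos]
      have h4 : L33_ht a ((i, false) :: L) = L33_ht a L - a i := rfl
      have h5 : |L33_ht a L - a i| ≤ l := (abs_sub _ _).trans (by linarith [ha i])
      set F : G := (f (Encodable.encode (i, (L33_ht a L - a i) % (k : ℤ))) : G) with hF
      set w : G := ((ev f (M28_tr k a L) : B) : G) with hw'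
      have h6 := hx i _ h5 (F⁻¹ * (w * y * w⁻¹) * F)
        (B.mul_mem (B.mul_mem (B.inv_mem (SetLike.coe_mem _)) hw) (SetLike.coe_mem _))
      rw [sub_add_cancel, ← hF] at h6
      have h7 : F * (F⁻¹ * (w * y * w⁻¹) * F) * F⁻¹ = w * y * w⁻¹ := by group
      rw [h7] at h6
      rw [h2, h3, h4, Subgroup.coe_mul, Subgroup.coe_inv, ← hF, ← hw']
      calc (x i)⁻¹ * ev x L * y * ((x i)⁻¹ * ev x L)⁻¹
          = (x i)⁻¹ * (ev x L * y * (ev x L)⁻¹) * x i := by group
        _ = (x i)⁻¹ * (x i * (h ^ (L33_ht a L - a i) * (F⁻¹ * (w * y * w⁻¹) * F) *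
              (h ^ (L33_ht a L - a i))⁻¹) * (x i)⁻¹) * x i := by rw [h1, h6]
        _ = _ := by group
    · have h2 : ev x ((i, true) :: L) = x i * ev x L := by simp [ev]
      have h3 : ev f (M28_tr k a ((i, true) :: L)) =
          f (Encodable.encode (i, L33_ht a L % (k : ℤ))) * ev f (M28_tr k a L) := by
        simp [ev, M28_tr, L33_pos]
      have h4 : L33_ht a ((i, true) :: L) = L33_ht a L + a i := rfl
      have h5 : |L33_ht a L| ≤ l := by linarith
      set F : G := (f (Encodable.encode (i, L33_ht a L % (k : ℤ))) : G) with hF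
      set w : G := ((ev f (M28_tr k a L) : B) : G) with hw'
      have h6 := hx i _ h5 (w * y * w⁻¹) hw
      rw [← hF] at h6
      rw [h2, h3, h4, Subgroup.coe_mul, ← hF, ← hw']
      calc x i * ev x L * y * (x i * ev x L)⁻¹
          = x i * (ev x L * y * (ev x L)⁻¹) * (x i)⁻¹ := by group
        _ = h ^ (L33_ht a L + a i) * (F * (w * y * w⁻¹) * F⁻¹) * (h ^ (L33_ht a L + a i))⁻¹ := by
            rw [h1, h6]
        _ = _ := by group

/-- the values of the new word on the block are central in the block -/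
theorem M28_law {B : Subgroup G} {h : G} {k : ℕ} {L : List (ℕ × Bool)}
    (hB : ∃ y ∈ B, ∃ z ∈ B, y * z ≠ z * y) (hk : ∀ y ∈ B, h ^ k * y = y * h ^ k)
    (hcomm : ∀ i : ℤ, ¬ (k : ℤ) ∣ i → ∀ y ∈ B, ∀ z ∈ B,
      y * (h ^ i * z * (h ^ i)⁻¹) = (h ^ i * z * (h ^ i)⁻¹) * y)
    (hlaw : ∀ f : ℕ → G, ev f L = 1) {a : ℕ → ℤ} (ha : ∀ i, |a i| ≤ 1) (f : ℕ → B) (y : B) :
    ev f (M28_tr k a L) * y = y * ev f (M28_tr k a L) := by
  choose x hx using fun i => M28_sub hk hcomm (L.length : ℤ) (a i)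
    fun q => f (Encodable.encode (i, q))
  have h1 := M28_act (k := k) ha hx L le_rfl
  rw [hlaw x] at h1
  set w : G := ((ev f (M28_tr k a L) : B) : G) with hw
  have hwB : w ∈ B := SetLike.coe_mem _
  have h2 : ∀ y ∈ B, y = h ^ L33_ht a L * (w * y * w⁻¹) * (h ^ L33_ht a L)⁻¹ := by
    intro y hy
    have h3 := h1 y hy
    rwa [one_mul, inv_one, mul_one] at h3
  have hwy : ∀ y ∈ B, w * y * w⁻¹ ∈ B := fun y hy =>
    B.mul_mem (B.mul_mem hwB hy) (B.inv_mem hwB)
  have h4 : (k : ℤ) ∣ L33_ht a L := by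
    by_contra hne
    obtain ⟨y, hy, z, hz, hyz⟩ := hB
    apply hyz
    have h5 := hcomm (L33_ht a L) hne y hy (w * z * w⁻¹) (hwy z hz)
    rw [← h2 z hz] at h5
    exact h5
  have h6 := h2 y.1 y.2
  rw [M28_cent hk h4 (hwy _ y.2)] at h6
  refine Subtype.ext ?_
  rw [Subgroup.coe_mul, Subgroup.coe_mul, ← hw]
  calc w * y.1 = w * y.1 * w⁻¹ * w := by group
    _ = y.1 * w := by rw [← h6]

/-! ### The number of variables -/

theorem M28_vars (k : ℕ) (a : ℕ → ℤ) (L : List (ℕ × Bool)) :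
    (vars (M28_tr k a L)).image L33_old = vars L := by
  have h1 : ((M28_tr k a L).map Prod.fst).map L33_old = L.map Prod.fst := by
    induction L with
    | nil => rfl
    | cons x L ih =>
      simp only [M28_tr, List.map_cons, L33_old_encode]
      exact congrArg _ ih
  unfold vars
  rw [← h1]
  ext c
  simp

theorem M28_mem (k : ℕ) (a : ℕ → ℤ) (u : List (ℕ × Bool)) (x : ℕ × Bool)
    (v : List (ℕ × Bool)) :
    Encodable.encode (x.1, L33_pos a x v % (k : ℤ)) ∈ vars (M28_tr k a (u ++ x :: v)) := by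
  unfold vars
  rw [List.mem_toFinset]
  induction u with
  | nil => simp [M28_tr]
  | cons y u ih =>
    simp only [List.cons_append, M28_tr, List.map_cons]
    exact List.mem_cons_of_mem _ ih

theorem M28_card {k : ℕ} {a : ℕ → ℤ} {L u v s : List (ℕ × Bool)} {i : ℕ} {e e' : Bool}
    (hL : L = u ++ (i, e) :: (s ++ (i, e') :: v))
    (hp : L33_pos a (i, e) (s ++ (i, e') :: v) % (k : ℤ) ≠ L33_pos a (i, e') v % (k : ℤ)) :
    (vars L).card < (vars (M28_tr k a L)).card := by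
  rw [← M28_vars k a L]
  refine lt_of_le_of_ne Finset.card_image_le fun h => ?_
  rw [Finset.card_image_iff] at h
  have h1 := M28_mem k a u (i, e) (s ++ (i, e') :: v)
  have h2 := M28_mem k a (u ++ (i, e) :: s) (i, e') v
  rw [← hL] at h1
  rw [List.append_assoc, List.cons_append, ← hL] at h2
  have h3 := h h1 h2 (by rw [L33_old_encode, L33_old_encode])
  exact hp (Prod.mk.inj (Encodable.encode_injective h3)).2

/-- neighbouring heights are different modulo `k` -/
theorem M28_emod_ne {k : ℕ} (hk1 : k ≠ 1) {p q : ℤ} (h : p - q = 1 ∨ p - q = -1) :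
    p % (k : ℤ) ≠ q % (k : ℤ) := by
  intro he
  have h1 : (k : ℤ) ∣ p - q := Int.modEq_iff_dvd.1 (he.symm : q ≡ p [ZMOD (k : ℤ)])
  have h2 : (k : ℤ) ∣ 1 := by
    rcases h with h | h
    · rwa [h] at h1
    · rw [h] at h1
      exact (dvd_neg).1 h1
  have h3 : k ∣ 1 := by exact_mod_cast h2
  exact hk1 (Nat.dvd_one.1 h3)

/-- package M: as `descent`, with the heights modulo `k` (`k = 0` or `k ≥ 2`), and without the
hypothesis that the centre of `B` is trivial -/
theorem descent_mod {G : Type} [Group G] {B : Subgroup G} {h : G} {k : ℕ}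
    {L : List (ℕ × Bool)} (hred : Red L) (hrep : ¬ (L.map Prod.fst).Nodup)
    (hB : ∃ y ∈ B, ∃ z ∈ B, y * z ≠ z * y) (hk1 : k ≠ 1) (hk : ∀ y ∈ B, h ^ k * y = y * h ^ k)
    (hcomm : ∀ i : ℤ, ¬ (k : ℤ) ∣ i → ∀ y ∈ B, ∀ z ∈ B,
      y * (h ^ i * z * (h ^ i)⁻¹) = (h ^ i * z * (h ^ i)⁻¹) * y)
    (hlaw : ∀ f : ℕ → G, ev f L = 1) :
    ∃ L' : List (ℕ × Bool), Red L' ∧ L'.length = L.length ∧ (vars L).card < (vars L').card ∧
      ∀ (f : ℕ → B) (y : B), ev f L' * y = y * ev f L' := by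
  obtain ⟨u, i, e, s, e', v, hL, hs, hi⟩ := L33_split hrep
  -- it is enough to find the heights
  suffices hsuf : ∃ a : ℕ → ℤ, (∀ j, |a j| ≤ 1) ∧
      (L33_pos a (i, e) (s ++ (i, e') :: v) - L33_pos a (i, e') v = 1 ∨
        L33_pos a (i, e) (s ++ (i, e') :: v) - L33_pos a (i, e') v = -1) by
    obtain ⟨a, ha, hp⟩ := hsuf
    exact ⟨M28_tr k a L, M28_red hred, M28_length k a L, M28_card hL (M28_emod_ne hk1 hp),
      fun f y => M28_law hB hk hcomm hlaw ha f y⟩
  by_cases hee : e = e'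
  · subst hee
    refine ⟨fun j => if j = i then 1 else 0, fun j => by
      show |if j = i then (1 : ℤ) else 0| ≤ 1
      split_ifs <;> simp, ?_⟩
    have h1 : L33_ht (fun j => if j = i then 1 else 0) s = 0 :=
      L33_ht_zero fun x hx => if_neg (hi x hx)
    rcases e with _ | _
    · simp only [L33_pos, L33_ht_append, h1, L33_ht, cond_false, if_true]
      omega
    · simp only [L33_pos, L33_ht_append, h1, L33_ht, cond_true, if_true]
      omega
  · cases s with
    | nil =>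
      exfalso
      rw [List.nil_append] at hL
      rw [hL] at hred
      exact hee (L33_red_append hred rfl)
    | cons c s =>
      have hci : c.1 ≠ i := hi c List.mem_cons_self
      have hcs : c.1 ∉ s.map Prod.fst := (List.nodup_cons.1 hs).1
      obtain ⟨a, ha⟩ : ∃ a : ℕ → ℤ, a = fun j => if j = c.1 then 1 else 0 := ⟨_, rfl⟩
      have ha0 : a i = 0 := by
        rw [ha]
        exact if_neg fun he => hci he.symm
      have ha1 : a c.1 = 1 := by
        rw [ha]
        exact if_pos rfl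
      refine ⟨a, fun j => by
        rw [ha]
        show |if j = c.1 then (1 : ℤ) else 0| ≤ 1
        split_ifs <;> simp, ?_⟩
      have h1 : L33_ht a s = 0 := by
        refine L33_ht_zero fun x hx => ?_
        rw [ha]
        refine if_neg fun he => hcs ?_
        rw [← he]
        exact List.mem_map_of_mem hx
      have h2 : ∀ (e : Bool) (M : List (ℕ × Bool)), L33_pos a (i, e) M = L33_ht a M := by
        intro e M
        cases e
        · show L33_ht a M - a i = L33_ht a M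
          rw [ha0, sub_zero]
        · rfl
      have h3 : L33_ht a ((i, e') :: v) = L33_ht a v := by
        cases e'
        · show L33_ht a v - a i = L33_ht a v
          rw [ha0, sub_zero]
        · show L33_ht a v + a i = L33_ht a v
          rw [ha0, add_zero]
      have h4 : L33_ht a (c :: s) = 1 ∨ L33_ht a (c :: s) = -1 := by
        rcases c with ⟨j, ec⟩
        simp only at ha1
        cases ec
        · right
          show L33_ht a s - a j = -1
          rw [h1, ha1]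
          norm_num
        · left
          show L33_ht a s + a j = 1
          rw [h1, ha1]
          norm_num
      rw [h2, h2, L33_ht_append, h3]
      rcases h4 with h4 | h4 <;> rw [h4] <;> omega

end Pool.Agent.H2Blocks
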