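import Pool.Agent.H2Blocks.Final
import Pool.Agent.H2Blocks.M_h28

/-!
# A law of minimal complexity: no displaceable slow subgroups
-/

set_option autoImplicit false

namespace Pool.Agent.H2Blocks

open Pool.Agent.H2SlowRed

theorem not_comm_of_not_vs {B : Type} [Group B] (hn : ¬ VSm (⊥ : Subgroup B)) :
    ∃ y z : B, y * z ≠ z * y := by
  by_contra hcon
  push Not at hcon
  refine hn ⟨⊤, inferInstance, 1, Subgroup.commutator_le.2 fun a _ b _ => Subgroup.mem_bot.2 ?_⟩
  show a * b * a⁻¹ * b⁻¹ = 1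
  rw [hcon a b, mul_inv_cancel_right, mul_inv_cancel]

theorem center_not_vs {B : Type} [Group B] (hn : ¬ VSm (⊥ : Subgroup B)) :
    ¬ VSm (⊥ : Subgroup (B ⧸ Subgroup.center B)) := by
  rintro ⟨P, hP, n, hP'⟩
  have hsur := QuotientGroup.mk'_surjective (Subgroup.center B)
  have h1 : ds (P.comap (QuotientGroup.mk' (Subgroup.center B))) n ≤ Subgroup.center B := by
    have h2 : (ds (P.comap (QuotientGroup.mk' (Subgroup.center B))) n).map
        (QuotientGroup.mk' (Subgroup.center B)) ≤ ⊥ := by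
      rw [ds_map, Subgroup.map_comap_eq_self_of_surjective hsur]
      exact hP'
    rwa [Subgroup.map_le_iff_le_comap, MonoidHom.comap_bot, QuotientGroup.ker_mk'] at h2
  refine hn ⟨P.comap (QuotientGroup.mk' (Subgroup.center B)), finiteIndex_comap hsur hP, n + 1,
    Subgroup.commutator_le.2 fun a ha b _ => Subgroup.mem_bot.2 ?_⟩
  have h2 := Subgroup.mem_center_iff.1 (h1 ha) b
  show a * b * a⁻¹ * b⁻¹ = 1
  rw [← h2, mul_inv_cancel_right, mul_inv_cancel]

/-- a group with a law of minimal complexity does not contain a displaceable slow subgroup -/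
theorem MinLaw.no_disp {W : Type} [Group W] {L : List (ℕ × Bool)} (hL : MinLaw W L)
    {B : Subgroup W} (hB : SubG B) (hn : ¬ VSm (⊥ : Subgroup B)) {h : W} {k : ℕ} (hk1 : k ≠ 1)
    (hk : ∀ y ∈ B, h ^ k * y = y * h ^ k)
    (hcomm : ∀ i : ℤ, ¬ (k : ℤ) ∣ i → ∀ y ∈ B, ∀ z ∈ B,
      y * (h ^ i * z * (h ^ i)⁻¹) = (h ^ i * z * (h ^ i)⁻¹) * y) : False := by
  obtain ⟨y, z, hyz⟩ := not_comm_of_not_vs hn
  have hyz' : (y : W) * z ≠ z * y := fun h1 => hyz (Subtype.ext h1)
  have hnt : Nontrivial W := ⟨y, 1, fun h1 => hyz' (by rw [h1, one_mul, mul_one])⟩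
  obtain ⟨L', h1, h2, h3, h4⟩ := descent_mod hL.red (law_rep hL.ne hL.law hnt)
    ⟨(y : W), y.2, (z : W), z.2, hyz'⟩ hk1 hk hcomm hL.law
  have hsur := QuotientGroup.mk'_surjective (Subgroup.center B)
  have h5 : ∀ f : ℕ → B ⧸ Subgroup.center B, ev f L' = 1 := by
    intro f
    choose g hg using hsur
    have h6 : f = fun i => QuotientGroup.mk' (Subgroup.center B) (g (f i)) :=
      funext fun i => (hg (f i)).symm
    rw [h6, ev_map]
    refine (QuotientGroup.eq_one_iff _).2 (Subgroup.mem_center_iff.2 fun y => ?_)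
    exact (h4 _ y).symm
  have h6 := hL.min (B ⧸ Subgroup.center B)
    ((Sec.of_sub B).trans (Sec.of_surj hsur)) (hB.map _ hsur) (center_not_vs hn) L' h1 (by
    intro h7
    rw [h7, List.length_nil] at h2
    exact hL.ne (List.length_eq_zero_iff.1 h2.symm)) h5
  omega

end Pool.Agent.H2Blocks
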