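import Pool.Agent.H2SlowRed.Core

/-!
# Virtually solvable quotients of finite exponent of finitely generated groups are finite
-/

set_option autoImplicit false

namespace Pool.Agent.H2Blocks

open Pool.Agent.H2SlowRed

theorem E28_step {G : Type} [Group G] [Group.FG G] {K L : Subgroup G} (hL : L.Normal)
    (hK : K.FiniteIndex) (hLK : L ≤ K) (hcomm : ⁅K, K⁆ ≤ L) {m : ℕ} (hm : 0 < m)
    (hx : ∀ x : G, x ^ m ∈ L) : L.FiniteIndex := by
  have hKfg : Group.FG K := Subgroup.fg_of_index_ne_zero K
  have hn : (L.subgroupOf K).Normal := inferInstance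
  let Z : Type := K ⧸ L.subgroupOf K
  let _ : CommGroup Z :=
    { (inferInstance : Group (K ⧸ L.subgroupOf K)) with
      mul_comm := by
        intro a b
        obtain ⟨a, rfl⟩ := QuotientGroup.mk_surjective a
        obtain ⟨b, rfl⟩ := QuotientGroup.mk_surjective b
        rw [← QuotientGroup.mk_mul, ← QuotientGroup.mk_mul, QuotientGroup.eq,
          Subgroup.mem_subgroupOf]
        have h1 : (((a * b)⁻¹ * (b * a) : K) : G) =
            (b : G)⁻¹ * (a : G)⁻¹ * ((b : G)⁻¹)⁻¹ * ((a : G)⁻¹)⁻¹ := by
          simp [mul_assoc]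
        rw [h1]
        exact hcomm (Subgroup.commutator_mem_commutator (inv_mem b.2) (inv_mem a.2)) }
  have hZfg : Group.FG Z := QuotientGroup.fg (L.subgroupOf K)
  have hfin : Finite Z := ab_finite hm (by
    intro z
    obtain ⟨a, rfl⟩ := QuotientGroup.mk_surjective z
    show ((a ^ m : K) : K ⧸ L.subgroupOf K) = 1
    rw [QuotientGroup.eq_one_iff, Subgroup.mem_subgroupOf]
    exact hx a)
  have h1 : (L.subgroupOf K).FiniteIndex := Subgroup.finiteIndex_of_finite_quotient (H := L.subgroupOf K)
  refine ⟨?_⟩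
  rw [← Subgroup.relIndex_mul_index hLK]
  exact mul_ne_zero h1.index_ne_zero hK.index_ne_zero

theorem finiteIndex_of_exponent {G : Type} [Group G] (hG : SubG G) {T : Subgroup G}
    (hT : T.Normal) (hv : VSm T) {m : ℕ} (hm : 0 < m) (hx : ∀ x : G, x ^ m ∈ T) :
    T.FiniteIndex := by
  have hGfg := hG.fg
  obtain ⟨P, hP, n, hn⟩ := hv
  have hQ : P.normalCore.FiniteIndex := inferInstance
  have hQn : P.normalCore.Normal := inferInstance
  have key : ∀ j, (T ⊔ ds P.normalCore j).FiniteIndex := by
    intro j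
    induction j with
    | zero =>
      exact Subgroup.finiteIndex_of_le (le_sup_right : P.normalCore ≤ T ⊔ P.normalCore)
    | succ j ih =>
      have h1 := ds_normal hQn (j + 1)
      exact E28_step (Subgroup.sup_normal T _) ih (sup_le_sup_left (ds_succ_le _ j) T)
        (comm_sup hT _ _) hm (fun x => (le_sup_left : T ≤ _) (hx x))
  have h1 := key n
  rwa [sup_eq_left.2 ((ds_mono P.normalCore_le n).trans hn)] at h1

end Pool.Agent.H2Blocks
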