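import Pool.Agent.H2SlowRed.Basic
import Mathlib.Analysis.Complex.Norm

/-!
# Eigenvalues of conjugation on an abelian normal subgroup of a group of subexponential growth
-/

set_option autoImplicit false

namespace Pool.Agent.H2Blocks

open Pool.Agent.H2SlowRed Pool.Agent.FullLaws Pool.Agent.Tracks

/-- the number with the digits `l` to the base `μ` -/
def MW2_val (μ : ℂ) : List Bool → ℂ
  | [] => 0
  | b :: l => cond b 1 0 + μ * MW2_val μ l

theorem MW2_sep {μ : ℂ} (hμ : 2 ≤ ‖μ‖) : ∀ (m : ℕ) (l l' : List Bool), l.length = m →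
    l'.length = m → l ≠ l' → 1 ≤ ‖MW2_val μ l - MW2_val μ l'‖ := by
  intro m
  induction m with
  | zero =>
    intro l l' h1 h2 h3
    rw [List.length_eq_zero_iff] at h1 h2
    exact absurd (h1.trans h2.symm) h3
  | succ m ih =>
    intro l l' h1 h2 h3
    cases l with
    | nil => simp at h1
    | cons b l =>
      cases l' with
      | nil => simp at h2
      | cons b' l' =>
        rw [List.length_cons] at h1 h2
        have h1' : l.length = m := by omega
        have h2' : l'.length = m := by omega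
        have h4 : MW2_val μ (b :: l) - MW2_val μ (b' :: l') =
            μ * (MW2_val μ l - MW2_val μ l') + ((cond b 1 0 : ℂ) - cond b' 1 0) := by
          simp only [MW2_val]
          ring
        have h5 : ‖(cond b 1 0 : ℂ) - cond b' 1 0‖ ≤ 1 := by
          cases b <;> cases b' <;> simp
        rw [h4]
        by_cases h : l = l'
        · subst h
          have hb : b ≠ b' := fun hb => h3 (by rw [hb])
          rw [sub_self, mul_zero, zero_add]
          cases b <;> cases b' <;> simp at hb ⊢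
        · have h6 := ih l l' h1' h2' h
          have h7 : 2 ≤ ‖μ * (MW2_val μ l - MW2_val μ l')‖ := by
            rw [norm_mul]
            nlinarith
          have h8 := norm_sub_norm_le (μ * (MW2_val μ l - MW2_val μ l'))
            (-((cond b 1 0 : ℂ) - cond b' 1 0))
          rw [sub_neg_eq_add, norm_neg] at h8
          linarith

set_option linter.unusedVariables false in
/-- MW2: in a group of subexponential growth, an additive function on an abelian normal subgroup
which is an eigenvector of conjugation by `g` has an eigenvalue of absolute value at most `1` -/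
theorem mw_collision {G : Type} [Group G] (hG : SubG G) {A : Subgroup G} (hA : A.Normal)
    (hab : ∀ a ∈ A, ∀ b ∈ A, a * b = b * a) (φ : A → ℂ) (hφ : ∀ a b : A, φ (a * b) = φ a + φ b)
    (hφ0 : ∃ a, φ a ≠ 0) (g : G) (z : ℂ)
    (hz : ∀ a : A, φ ⟨g * a * g⁻¹, hA.conj_mem a a.2 g⟩ = z * φ a) : ‖z‖ ≤ 1 := by
  by_contra hcon
  push Not at hcon
  obtain ⟨s, hs⟩ := pow_unbounded_of_one_lt (2 : ℝ) hcon
  obtain ⟨k, hk⟩ := hφ0
  have hφ1 : φ 1 = 0 := by
    have := hφ 1 1
    rw [mul_one] at this
    simpa using this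
  -- powers of `g`
  have hpow : ∀ (j : ℕ) (a : A), φ ⟨g ^ j * a * (g ^ j)⁻¹, hA.conj_mem a a.2 (g ^ j)⟩ =
      z ^ j * φ a := by
    intro j
    induction j with
    | zero =>
      intro a
      rw [pow_zero z, one_mul]
      congr 1
      apply Subtype.ext
      simp
    | succ j ih =>
      intro a
      have h1 := hz ⟨g ^ j * a * (g ^ j)⁻¹, hA.conj_mem a a.2 (g ^ j)⟩
      rw [ih] at h1
      rw [pow_succ' z, mul_assoc z (z ^ j), ← h1]
      congr 1
      apply Subtype.ext
      show g ^ (j + 1) * (a : G) * (g ^ (j + 1))⁻¹ = g * (g ^ j * a * (g ^ j)⁻¹) * g⁻¹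
      rw [pow_succ']
      group
  obtain ⟨u, hu⟩ : ∃ u : G, u = g ^ s := ⟨_, rfl⟩
  obtain ⟨μ, hμ⟩ : ∃ μ : ℂ, μ = z ^ s := ⟨_, rfl⟩
  have hμ2 : 2 ≤ ‖μ‖ := by
    rw [hμ, norm_pow]
    exact hs.le
  have hμ0 : μ ≠ 0 := by
    intro h
    rw [h, norm_zero] at hμ2
    linarith
  have hconj : ∀ a : A, φ ⟨u * a * u⁻¹, hA.conj_mem a a.2 u⟩ = μ * φ a := by
    subst hu hμ
    exact hpow s
  -- the value of a word
  have hwd : ∀ l : List Bool, ∃ a : A, wd u k l = a * u ^ l.length ∧
      φ a = μ * MW2_val μ l * φ k := by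
    intro l
    induction l with
    | nil =>
      refine ⟨1, by simp [wd], ?_⟩
      rw [hφ1, MW2_val, mul_zero, zero_mul]
    | cons b l ih =>
      obtain ⟨a, h1, h2⟩ := ih
      have hb : ∃ k' : A, (k' : G) = cond b (k : G) 1 ∧ φ k' = cond b 1 0 * φ k := by
        cases b with
        | true => exact ⟨k, rfl, by simp⟩
        | false => exact ⟨1, rfl, by simp [hφ1]⟩
      obtain ⟨k', hk', hk2⟩ := hb
      refine ⟨⟨u * (k' * a : A) * u⁻¹, hA.conj_mem _ (k' * a).2 u⟩, ?_, ?_⟩
      · rw [wd_cons, h1, List.length_cons, pow_succ', ← hk']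
        simp only [Subgroup.coe_mul]
        group
      · rw [hconj, hφ, h2, hk2, MW2_val]
        ring
  have hinj : ∀ (m : ℕ) (l l' : List Bool), l.length = m → l'.length = m →
      wd u k l = wd u k l' → l = l' := by
    intro m l l' h1 h2 h
    by_contra hne
    obtain ⟨a, h3, h4⟩ := hwd l
    obtain ⟨a', h3', h4'⟩ := hwd l'
    rw [h3, h3', h1, h2, mul_left_inj] at h
    have h5 : a = a' := Subtype.ext h
    rw [h5, h4'] at h4
    have h6 := mul_left_cancel₀ hμ0 (mul_right_cancel₀ hk h4)
    have h7 := MW2_sep hμ2 m l l' h1 h2 hne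
    rw [← h6, sub_self, norm_zero] at h7
    linarith
  obtain ⟨S, hS, hsub⟩ := hG
  obtain ⟨e₁, h1⟩ := exists_ballL hS u
  obtain ⟨e₂, h2⟩ := exists_ballL hS (u * k)
  obtain ⟨e, he⟩ : ∃ e : ℕ, e = max (max e₁ e₂) 1 := ⟨_, rfl⟩
  have he0 : e ≠ 0 := by omega
  have hz1 : u ∈ ballL S e := ballL_mono (by omega) h1
  have hzk : u * k ∈ ballL S e := ballL_mono (by omega) h2
  have hcard : ∀ m : ℕ, 2 ^ m ≤ (ballL S (e * m)).ncard := by
    intro m
    have h3 : (Set.univ : Set (Fin m → Bool)).ncard ≤ (ballL S (e * m)).ncard := by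
      refine Set.ncard_le_ncard_of_injOn (fun f => wd u (k : G) (List.ofFn f)) ?_ ?_
        (ballL_finite S _)
      · intro f _
        have h4 := wd_ballL hz1 hzk (List.ofFn f)
        rw [List.length_ofFn] at h4
        exact h4
      · intro f _ f' _ h
        exact List.ofFn_injective (hinj m _ _ List.length_ofFn List.length_ofFn h)
    rw [Set.ncard_univ, Nat.card_eq_fintype_card, Fintype.card_fun, Fintype.card_bool,
      Fintype.card_fin] at h3
    exact h3
  obtain ⟨N, hN⟩ := hsub ((2 : ℝ) ^ ((e : ℝ)⁻¹))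
    (Real.one_lt_rpow one_lt_two (inv_pos.2 (by positivity)))
  have h3 := hN (e * N) (Nat.le_mul_of_pos_left N (Nat.pos_of_ne_zero he0))
  rw [pow_mul, Real.rpow_inv_natCast_pow (by norm_num) he0] at h3
  have h4 : ((2 ^ N : ℕ) : ℝ) ≤ ((ballL S (e * N)).ncard : ℝ) := by exact_mod_cast hcard N
  push_cast at h4
  linarith

end Pool.Agent.H2Blocks
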