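import Pool.Agent.H2SlowRed.Final
import Mathlib.LinearAlgebra.Matrix.ToLinearEquiv
import Mathlib.LinearAlgebra.Matrix.Charpoly.Basic
import Mathlib.LinearAlgebra.FreeModule.PID
import Mathlib.LinearAlgebra.Determinant
import Mathlib.NumberTheory.MahlerMeasure

/-!
# A power of an element fixes a nontrivial element of a normalized free abelian group
-/

set_option autoImplicit false

namespace Pool.Agent.H2Blocks

open Pool.Agent.H2SlowRed Pool.Agent.FullLaws Pool.Agent.Tracks

/-- the linear algebra: an additive automorphism of a finitely generated torsion-free abelian group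
such that all eigenvalues of additive functions have absolute value at most one has a power with a
nonzero fixed element -/
theorem L35_linear
    (K : ∀ {r : ℕ}, 0 < r → ∀ M : Matrix (Fin r) (Fin r) ℤ, M.det ≠ 0 →
      (∀ (z : ℂ) (u : Fin r → ℂ), u ≠ 0 →
        Matrix.vecMul u (M.map (Int.castRingHom ℂ)) = z • u → ‖z‖ ≤ 1) →
      ∃ e : ℕ, 0 < e ∧ ∃ v : Fin r → ℤ, v ≠ 0 ∧ (M ^ e).mulVec v = v)
    {V : Type} [AddCommGroup V] [Module.Finite ℤ V] [Module.Free ℤ V] [Nontrivial V]
    (T : V ≃ₗ[ℤ] V)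
    (hT : ∀ (f : V →+ ℂ) (z : ℂ), (∃ v, f v ≠ 0) → (∀ v, f (T v) = z * f v) → ‖z‖ ≤ 1) :
    ∃ e : ℕ, 0 < e ∧ ∃ v : V, v ≠ 0 ∧ ((T : V →ₗ[ℤ] V) ^ e) v = v := by
  classical
  let bas := Module.finBasis ℤ V
  have hr : 0 < Module.finrank ℤ V := Module.finrank_pos
  let M := LinearMap.toMatrix bas bas (T : V →ₗ[ℤ] V)
  have hdet : M.det ≠ 0 := (LinearEquiv.isUnit_det T bas bas).ne_zero
  have hrepr : ∀ v i, bas.repr (T v) i = ∑ j, M i j * bas.repr v j := by
    intro v i
    have h1 := congrFun (LinearMap.toMatrix_mulVec_repr bas bas (T : V →ₗ[ℤ] V) v) i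
    rw [Matrix.mulVec, dotProduct] at h1
    exact h1.symm
  obtain ⟨e, he, v, hv, hMv⟩ := K hr M hdet (by
    intro z u hu huM
    obtain ⟨i, hi⟩ : ∃ i, u i ≠ 0 := by
      by_contra h
      push Not at h
      exact hu (funext h)
    let f : V →+ ℂ :=
      { toFun := fun v => ∑ i, u i * (bas.repr v i : ℂ)
        map_zero' := by simp
        map_add' := by
          intro x y
          rw [← Finset.sum_add_distrib]
          refine Finset.sum_congr rfl fun i _ => ?_
          rw [map_add, Finsupp.add_apply, Int.cast_add]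
          ring }
    refine hT f z ⟨bas i, ?_⟩ ?_
    · have h2 : f (bas i) = u i := by
        show ∑ j, u j * (bas.repr (bas i) j : ℂ) = u i
        rw [Finset.sum_eq_single i]
        · simp
        · intro j _ hj
          rw [Module.Basis.repr_self, Finsupp.single_eq_of_ne hj]
          simp
        · simp
      rw [h2]
      exact hi
    · intro v
      show ∑ i, u i * (bas.repr (T v) i : ℂ) = z * ∑ i, u i * (bas.repr v i : ℂ)
      have h3 : ∀ j, ∑ i, u i * (M i j : ℂ) = z * u j := by
        intro j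
        have := congrFun huM j
        rw [Matrix.vecMul, dotProduct] at this
        simpa using this
      calc ∑ i, u i * (bas.repr (T v) i : ℂ)
          = ∑ i, ∑ j, u i * (M i j : ℂ) * (bas.repr v j : ℂ) := by
            refine Finset.sum_congr rfl fun i _ => ?_
            rw [hrepr, Int.cast_sum, Finset.mul_sum]
            refine Finset.sum_congr rfl fun j _ => ?_
            rw [Int.cast_mul]
            ring
        _ = ∑ j, (∑ i, u i * (M i j : ℂ)) * (bas.repr v j : ℂ) := by
            rw [Finset.sum_comm]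
            refine Finset.sum_congr rfl fun j _ => ?_
            rw [Finset.sum_mul]
        _ = z * ∑ j, u j * (bas.repr v j : ℂ) := by
            rw [Finset.mul_sum]
            refine Finset.sum_congr rfl fun j _ => ?_
            rw [h3]
            ring)
  refine ⟨e, he, bas.equivFun.symm v, ?_, ?_⟩
  · intro h
    apply hv
    have := congrArg bas.equivFun h
    rwa [LinearEquiv.apply_symm_apply, map_zero] at this
  · apply bas.equivFun.injective
    rw [LinearEquiv.apply_symm_apply]
    have h4 : LinearMap.toMatrix bas bas ((T : V →ₗ[ℤ] V) ^ e) = M ^ e := by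
      rw [LinearMap.toMatrix_pow]
    have h5 := LinearMap.toMatrix_mulVec_repr bas bas ((T : V →ₗ[ℤ] V) ^ e)
      (bas.equivFun.symm v)
    rw [h4] at h5
    have h6 : (⇑(bas.repr (bas.equivFun.symm v)) : Fin _ → ℤ) = v := by
      rw [← Module.Basis.equivFun_apply, LinearEquiv.apply_symm_apply]
    rw [h6, hMv] at h5
    rw [Module.Basis.equivFun_apply, ← h5]

/-- an abelian subgroup as a commutative group -/
@[reducible] def L35_comm {G : Type} [Group G] (B : Subgroup G)
    (hab : ∀ a ∈ B, ∀ b ∈ B, a * b = b * a) : CommGroup B :=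
  { (inferInstance : Group B) with
    mul_comm := fun a b => Subtype.ext (hab a a.2 b b.2) }

theorem L35_finite {G : Type} [Group G] {A B : Subgroup G} (hfg : A.FG) (hBA : B ≤ A)
    (hab : ∀ a ∈ A, ∀ b ∈ A, a * b = b * a) :
    letI := L35_comm B fun a ha b hb => hab a (hBA ha) b (hBA hb)
    Module.Finite ℤ (Additive B) := by
  let := L35_comm A hab
  let := L35_comm B fun a ha b hb => hab a (hBA ha) b (hBA hb)
  have h1 : Module.Finite ℤ (Additive A) := by
    have h2 : Group.FG A := (Group.fg_iff_subgroup_fg A).2 hfg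
    exact Module.Finite.iff_addGroup_fg.2 (GroupFG.iff_add_fg.1 h2)
  let f : Additive B →+ Additive A := MonoidHom.toAdditive (Subgroup.inclusion hBA)
  exact Module.Finite.of_injective f.toIntLinearMap (fun x y h => by
    have : Subgroup.inclusion hBA x.toMul = Subgroup.inclusion hBA y.toMul := h
    exact congrArg Additive.ofMul (Subgroup.inclusion_injective hBA this))

theorem L35_torsionFree {G : Type} [Group G] {B : Subgroup G}
    (hab : ∀ a ∈ B, ∀ b ∈ B, a * b = b * a)
    (htf : ∀ a ∈ B, ∀ n : ℕ, 0 < n → a ^ n = 1 → a = 1) :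
    letI := L35_comm B hab
    IsAddTorsionFree (Additive B) := by
  let := L35_comm B hab
  refine ⟨fun n hn x y h => ?_⟩
  have h1 : (x.toMul) ^ n = (y.toMul) ^ n := h
  have h2 : (x.toMul * (y.toMul)⁻¹) ^ n = 1 := by
    rw [mul_pow, inv_pow, h1, mul_inv_cancel]
  have h3 : (((x.toMul * (y.toMul)⁻¹ : B) : G)) ^ n = 1 := by
    rw [← Subgroup.coe_pow, h2, Subgroup.coe_one]
  have h4 := htf _ (x.toMul * (y.toMul)⁻¹ : B).2 n (Nat.pos_of_ne_zero hn) h3
  have h5 : x.toMul * (y.toMul)⁻¹ = 1 := Subtype.ext h4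
  have h6 : x.toMul = y.toMul := mul_inv_eq_one.1 h5
  exact congrArg Additive.ofMul h6

/-- MW3, from MW1 and MW2 -/
theorem mw_fixed_of
    (K : ∀ {r : ℕ}, 0 < r → ∀ M : Matrix (Fin r) (Fin r) ℤ, M.det ≠ 0 →
      (∀ (z : ℂ) (u : Fin r → ℂ), u ≠ 0 →
        Matrix.vecMul u (M.map (Int.castRingHom ℂ)) = z • u → ‖z‖ ≤ 1) →
      ∃ e : ℕ, 0 < e ∧ ∃ v : Fin r → ℤ, v ≠ 0 ∧ (M ^ e).mulVec v = v)
    (C : ∀ {G : Type} [Group G], SubG G → ∀ {A : Subgroup G} (hA : A.Normal),
      (∀ a ∈ A, ∀ b ∈ A, a * b = b * a) → ∀ (φ : A → ℂ), (∀ a b : A, φ (a * b) = φ a + φ b) →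
      (∃ a, φ a ≠ 0) → ∀ (g : G) (z : ℂ),
      (∀ a : A, φ ⟨g * a * g⁻¹, hA.conj_mem a a.2 g⟩ = z * φ a) → ‖z‖ ≤ 1)
    {G : Type} [Group G] (hG : SubG G) {A : Subgroup G}
    (hfg : A.FG) (hab : ∀ a ∈ A, ∀ b ∈ A, a * b = b * a)
    (htf : ∀ a ∈ A, ∀ n : ℕ, 0 < n → a ^ n = 1 → a = 1) (g : G) (B : Subgroup G) (hBA : B ≤ A)
    (hB : B ≠ ⊥) (hgB : ∀ b ∈ B, g * b * g⁻¹ ∈ B) (hgB' : ∀ b ∈ B, g⁻¹ * b * g ∈ B) :
    ∃ e : ℕ, 0 < e ∧ ∃ b ∈ B, b ≠ 1 ∧ g ^ e * b * (g ^ e)⁻¹ = b := by
  classical
  have habB : ∀ a ∈ B, ∀ b ∈ B, a * b = b * a := fun a ha b hb => hab a (hBA ha) b (hBA hb)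
  have htfB : ∀ a ∈ B, ∀ n : ℕ, 0 < n → a ^ n = 1 → a = 1 := fun a ha => htf a (hBA ha)
  let := L35_comm B habB
  have hfin : Module.Finite ℤ (Additive B) := L35_finite hfg hBA hab
  have htfr : IsAddTorsionFree (Additive B) := L35_torsionFree habB htfB
  have hfree : Module.Free ℤ (Additive B) := Module.free_of_finite_type_torsion_free'
  have hnt : Nontrivial (Additive B) := by
    have : Nontrivial B := (Subgroup.nontrivial_iff_ne_bot B).2 hB
    exact inferInstance
  -- the automorphism
  let T : Additive B ≃+ Additive B :=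
    { toFun := fun b => Additive.ofMul ⟨g * b.toMul * g⁻¹, hgB _ b.toMul.2⟩
      invFun := fun b => Additive.ofMul ⟨g⁻¹ * b.toMul * g, hgB' _ b.toMul.2⟩
      left_inv := by
        intro b
        apply congrArg Additive.ofMul
        apply Subtype.ext
        show g⁻¹ * (g * (b.toMul : G) * g⁻¹) * g = b.toMul
        group
      right_inv := by
        intro b
        apply congrArg Additive.ofMul
        apply Subtype.ext
        show g * (g⁻¹ * (b.toMul : G) * g) * g⁻¹ = b.toMul
        group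
      map_add' := by
        intro b c
        apply congrArg Additive.ofMul
        apply Subtype.ext
        show g * ((b.toMul : G) * c.toMul) * g⁻¹ = (g * b.toMul * g⁻¹) * (g * c.toMul * g⁻¹)
        group }
  have hT : ∀ (f : Additive B →+ ℂ) (z : ℂ), (∃ v, f v ≠ 0) → (∀ v, f (T v) = z * f v) →
      ‖z‖ ≤ 1 := by
    intro f z hf hz
    -- the subgroup generated by `g` and `B`
    let H : Subgroup G := Subgroup.zpowers g ⊔ B
    have hBFG : B.FG := by
      rw [← Group.fg_iff_subgroup_fg, GroupFG.iff_add_fg]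
      exact Module.Finite.iff_addGroup_fg.1 hfin
    have hHfg : H.FG := by
      refine Subgroup.FG.sup ?_ hBFG
      exact ⟨{g}, by rw [Finset.coe_singleton, Subgroup.zpowers_eq_closure]⟩
    have hBH : B ≤ H := le_sup_right
    have hgH : g ∈ H := le_sup_left (a := Subgroup.zpowers g) (Subgroup.mem_zpowers g)
    have hgn : g ∈ Subgroup.normalizer (B : Set G) := by
      rw [Subgroup.mem_normalizer_iff]
      intro b
      refine ⟨fun hb => hgB b hb, fun hb => ?_⟩
      have := hgB' _ hb
      have h1 : g⁻¹ * (g * b * g⁻¹) * g = b := by group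
      rwa [h1] at this
    have hnorm : (B.subgroupOf H).Normal := by
      rw [Subgroup.normal_subgroupOf_iff_le_normalizer hBH]
      refine sup_le ?_ B.le_normalizer
      rw [Subgroup.zpowers_le]
      exact hgn
    have hSub : SubG H := hG.sub hHfg
    refine C hSub hnorm ?_ (fun a => f (Additive.ofMul ⟨((a : H) : G), a.2⟩)) ?_ ?_ ⟨g, hgH⟩ z ?_
    · intro a ha b hb
      exact Subtype.ext (habB _ ha _ hb)
    · intro a b
      rw [← map_add]
      rfl
    · obtain ⟨v, hv⟩ := hf
      exact ⟨⟨⟨(v.toMul : G), hBH v.toMul.2⟩, v.toMul.2⟩, hv⟩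
    · intro a
      exact hz (Additive.ofMul ⟨((a : H) : G), a.2⟩)
  obtain ⟨e, he, v, hv, hvT⟩ := L35_linear K T.toIntLinearEquiv hT
  have hpow : ∀ (k : ℕ) (b : Additive B),
      (((((T.toIntLinearEquiv : Additive B →ₗ[ℤ] Additive B) ^ k) b).toMul : B) : G) =
        g ^ k * b.toMul * (g ^ k)⁻¹ := by
    intro k
    induction k with
    | zero =>
      intro b
      simp
    | succ k ih =>
      intro b
      rw [pow_succ, Module.End.mul_apply, ih]
      show g ^ k * (g * b.toMul * g⁻¹) * (g ^ k)⁻¹ = _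
      rw [pow_succ]
      group
  refine ⟨e, he, (v.toMul : B), v.toMul.2, ?_, ?_⟩
  · intro h
    apply hv
    have : v.toMul = 1 := Subtype.ext h
    exact congrArg Additive.ofMul this
  · rw [← hpow e v, hvT]

end Pool.Agent.H2Blocks
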