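import Pool.Agent.H2SlowRed.Final

set_option autoImplicit false

namespace Pool.Agent.H2Blocks

open Pool.Agent.H2SlowRed Pool.Agent.FullLaws Pool.Agent.Tracks

/-- MW4: an infinite nilpotent group of subexponential growth has a central element of infinite
order -/
theorem mw_centre {G : Type} [Group G] (hG : SubG G) (hinf : Infinite G) {m : ℕ}
    (hm : lc (⊤ : Subgroup G) m ≤ ⊥) :
    ∃ z : G, (∀ g : G, z * g = g * z) ∧ ∀ n : ℕ, 0 < n → z ^ n ≠ 1 := by
  have hv : VSm (⊥ : Subgroup G) := VNm.vs ⟨⊤, inferInstance, m, hm⟩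
  -- the last infinite term
  obtain ⟨j, hj1, hj2⟩ : ∃ j, ¬ ((lc (⊤ : Subgroup G) j : Subgroup G) : Set G).Finite ∧
      ((lc (⊤ : Subgroup G) (j + 1) : Subgroup G) : Set G).Finite := by
    by_contra hcon
    push Not at hcon
    have h1 : ∀ j, ¬ ((lc (⊤ : Subgroup G) j : Subgroup G) : Set G).Finite := by
      intro j
      induction j with
      | zero => exact Set.infinite_univ
      | succ j ih => exact hcon j ih
    exact h1 m ((Set.finite_singleton (1 : G)).subset fun g hg => Subgroup.mem_bot.1 (hm hg))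
  obtain ⟨A, hA⟩ : ∃ A, A = lc (⊤ : Subgroup G) j := ⟨_, rfl⟩
  obtain ⟨F, hF⟩ : ∃ F, F = lc (⊤ : Subgroup G) (j + 1) := ⟨_, rfl⟩
  have hnor : ∀ i, (lc (⊤ : Subgroup G) i).Normal := by
    intro i
    induction i with
    | zero => exact Subgroup.normal_top
    | succ i ih => exact Subgroup.commutator_normal _ _
  have hAn : A.Normal := by rw [hA]; exact hnor j
  have hcomm : ∀ a ∈ A, ∀ s : G, a * s * a⁻¹ * s⁻¹ ∈ F := by
    intro a ha s
    rw [hA] at ha
    rw [hF]
    exact Subgroup.commutator_mem_commutator ha (Subgroup.mem_top s)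
  rw [← hA] at hj1
  rw [← hF] at hj2
  obtain ⟨T, hT, hTfin⟩ := Group.fg_iff.1 hG.fg
  have hTfin' : Finite T := hTfin
  obtain ⟨Z, hZ⟩ : ∃ Z : Subgroup G, Z = A ⊓ Subgroup.center G := ⟨_, rfl⟩
  have hZn : Z.Normal := by rw [hZ]; infer_instance
  have hZinf : ¬ (Z : Set G).Finite := by
    refine infinite_of_fibres hj1 (fun d (t : T) => d * t * d⁻¹ * (t : G)⁻¹) ?_ ?_
    · refine (Set.Finite.pi (t := fun _ : T => (F : Set G)) fun _ => hj2).subset ?_
      rintro _ ⟨d, hd, rfl⟩
      exact fun t _ => hcomm d hd t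
    · intro d hd d' hd' h
      rw [hZ]
      refine Subgroup.mem_inf.2 ⟨mul_mem (inv_mem hd') hd, ?_⟩
      have h1 : (⊤ : Subgroup G) ≤ Subgroup.centralizer {d'⁻¹ * d} := by
        rw [← hT, Subgroup.closure_le]
        intro t ht
        rw [SetLike.mem_coe, Subgroup.mem_centralizer_iff]
        rintro _ rfl
        have h2 : d * t * d⁻¹ * t⁻¹ = d' * t * d'⁻¹ * t⁻¹ := congrFun h ⟨t, ht⟩
        have h3 : d * t * d⁻¹ = d' * t * d'⁻¹ := mul_right_cancel h2
        have h4 : d'⁻¹ * (d * t * d⁻¹) * d = t * (d'⁻¹ * d) := by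
          rw [h3]
          group
        rw [← h4]
        group
      rw [Subgroup.mem_center_iff]
      intro g
      exact (Subgroup.mem_centralizer_iff.1 (h1 (Subgroup.mem_top g)) _ rfl).symm
  have hZfg : Z.FG := (hv.mono bot_le : VSm Z).fg hG hZn
  have hZc : ∀ z ∈ Z, ∀ g : G, z * g = g * z := by
    intro z hz g
    rw [hZ] at hz
    exact (Subgroup.mem_center_iff.1 hz.2 g).symm
  have hZcomm : ∀ a b : Z, a * b = b * a := fun a b => Subtype.ext (hZc a a.2 b)
  let inst : CommGroup Z := { (inferInstance : Group Z) with mul_comm := hZcomm }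
  have hZfg' : Group.FG Z := (Group.fg_iff_subgroup_fg Z).2 hZfg
  by_contra hcon
  push Not at hcon
  apply hZinf
  have hfin : Finite Z := by
    refine CommGroup.finite_of_fg_isMulTorsion Z fun z => isOfFinOrder_iff_pow_eq_one.2 ?_
    obtain ⟨n, hn, h⟩ := hcon z (hZc z z.2)
    exact ⟨n, hn, Subtype.ext h⟩
  exact hfin

end Pool.Agent.H2Blocks
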