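import Pool.Agent.H2SlowRed.Final

/-!
# The theorem of Milnor and Wolf, from the two statements on fixed vectors and on the centre
-/

set_option autoImplicit false

namespace Pool.Agent.H2Blocks

open Pool.Agent.H2SlowRed Pool.Agent.FullLaws Pool.Agent.Tracks

/-- the statement `mw_fixed` -/
def MW3Stmt : Prop :=
  ∀ {G : Type} [Group G] (_ : SubG G) {A : Subgroup G} (_ : A.Normal)
    (_ : A.FG) (_ : ∀ a ∈ A, ∀ b ∈ A, a * b = b * a) (_ : A ≠ ⊥)
    (_ : ∀ a ∈ A, ∀ n : ℕ, 0 < n → a ^ n = 1 → a = 1) (g : G) (B : Subgroup G) (_ : B ≤ A)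
    (_ : B ≠ ⊥) (_ : ∀ b ∈ B, g * b * g⁻¹ ∈ B) (_ : ∀ b ∈ B, g⁻¹ * b * g ∈ B),
    ∃ e : ℕ, 0 < e ∧ ∃ b ∈ B, b ≠ 1 ∧ g ^ e * b * (g ^ e)⁻¹ = b

/-- the statement `mw_centre` -/
def MW4Stmt : Prop :=
  ∀ {G : Type} [Group G] (_ : SubG G) (_ : Infinite G) {m : ℕ}
    (_ : lc (⊤ : Subgroup G) m ≤ ⊥),
    ∃ z : G, (∀ g : G, z * g = g * z) ∧ ∀ n : ℕ, 0 < n → z ^ n ≠ 1

theorem mw5_lc_sup {G : Type} [Group G] {N : Subgroup G} (hN : N.Normal) (P : Subgroup G) (n : ℕ) :
    lc (N ⊔ P) n ≤ N ⊔ lc P n := by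
  induction n with
  | zero => exact le_rfl
  | succ n ih => exact (Subgroup.commutator_mono ih le_rfl).trans (comm_sup hN _ _)

/-- an element of the abelian normal subgroup whose centralizer has finite index -/
theorem mw5_claim (h3 : MW3Stmt) (h4 : MW4Stmt) {G : Type} [Group G] (hG : SubG G)
    {A : Subgroup G} (hA : A.Normal) (hfg : A.FG) (hab : ∀ a ∈ A, ∀ b ∈ A, a * b = b * a)
    (hne : A ≠ ⊥) (htf : ∀ a ∈ A, ∀ n : ℕ, 0 < n → a ^ n = 1 → a = 1) {m : ℕ}
    (hm : lc (⊤ : Subgroup G) m ≤ A) :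
    ∃ a ∈ A, a ≠ 1 ∧ (Subgroup.centralizer ({a} : Set G)).FiniteIndex := by
  have hvs : VSm (⊥ : Subgroup G) := by
    refine ⟨⊤, inferInstance, m + 1, ?_⟩
    have h5 : ds (⊤ : Subgroup G) m ≤ A := (ds_le_lc _ m).trans hm
    refine Subgroup.commutator_le.2 fun a ha b hb => ?_
    rw [Subgroup.mem_bot, commutatorElement_def, hab a (h5 ha) b (h5 hb), mul_inv_cancel_right,
      mul_inv_cancel]
  obtain ⟨N, hN, hp, hmax⟩ := exists_max (G := G)
    (fun N => A ⊓ Subgroup.centralizer (N : Set G) ≠ ⊥)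
    (by
      intro h
      refine hne (eq_bot_iff.2 fun a ha => ?_)
      rw [← h]
      refine Subgroup.mem_inf.2 ⟨ha, Subgroup.mem_centralizer_iff.2 fun x hx => ?_⟩
      have hx1 : x = 1 := hx
      rw [hx1, one_mul, mul_one])
    (fun c hne' hch hc hn =>
      (hc _ (chain_fg hne' hch ((hvs.mono bot_le : VSm (sSup c)).fg hG hn))).2)
  have hAN : A ≤ N := by
    have h5 : (N ⊔ A) = N := by
      refine hmax _ inferInstance (fun h => hp ?_) le_sup_left
      rw [eq_bot_iff]
      rw [← h]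
      refine le_inf inf_le_left ?_
      rw [Subgroup.le_centralizer_iff]
      refine sup_le ?_ ?_
      · rw [Subgroup.le_centralizer_iff]
        exact inf_le_right
      · intro a ha
        rw [Subgroup.mem_centralizer_iff]
        intro x hx
        exact hab x (Subgroup.mem_inf.1 hx).1 a ha
    rw [← h5]
    exact le_sup_right
  by_cases hfin : Finite (G ⧸ N)
  · obtain ⟨a, ha, ha1⟩ : ∃ a ∈ A ⊓ Subgroup.centralizer (N : Set G), a ≠ 1 := by
      by_contra hcon
      push Not at hcon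
      exact hp (eq_bot_iff.2 fun a ha => Subgroup.mem_bot.2 (hcon a ha))
    refine ⟨a, (Subgroup.mem_inf.1 ha).1, ha1, ?_⟩
    have hNi : N.FiniteIndex := Subgroup.finiteIndex_of_finite_quotient
    refine Subgroup.finiteIndex_of_le (H := N) fun x hx => ?_
    rw [Subgroup.mem_centralizer_iff]
    rintro _ rfl
    exact ((Subgroup.mem_centralizer_iff.1 (Subgroup.mem_inf.1 ha).2) x hx).symm
  · exfalso
    rw [not_finite_iff_infinite] at hfin
    have hsur := QuotientGroup.mk'_surjective N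
    obtain ⟨z, hz, hz0⟩ := h4 (hG.map _ hsur) hfin (m := m) (by
      have h5 : lc (⊤ : Subgroup (G ⧸ N)) m = (lc (⊤ : Subgroup G) m).map (QuotientGroup.mk' N) := by
        rw [lc_map, ← MonoidHom.range_eq_map, MonoidHom.range_eq_top.2 hsur]
      rw [h5, Subgroup.map_le_iff_le_comap, MonoidHom.comap_bot, QuotientGroup.ker_mk']
      exact hm.trans hAN)
    obtain ⟨g, rfl⟩ := hsur z
    obtain ⟨B, hB⟩ : ∃ B : Subgroup G, B = A ⊓ Subgroup.centralizer (N : Set G) := ⟨_, rfl⟩
    have hBn : B.Normal := by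
      rw [hB]
      infer_instance
    obtain ⟨e, he, b, hb, hb1, hgb⟩ := h3 hG hA hfg hab hne htf g B (by rw [hB]; exact inf_le_left)
      (by rw [hB]; exact hp) (fun b hb => hBn.conj_mem b hb g)
      (fun b hb => by simpa using hBn.conj_mem b hb g⁻¹)
    rw [hB] at hb
    -- the larger normal subgroup
    have hcomm : ∀ x : G, x * g ^ e * x⁻¹ * (g ^ e)⁻¹ ∈ N := by
      intro x
      rw [← QuotientGroup.eq_one_iff]
      have h5 : ∀ y : G ⧸ N, (g : G ⧸ N) ^ e * y = y * (g : G ⧸ N) ^ e := by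
        intro y
        have h6 : Commute (g : G ⧸ N) y := hz y
        exact (h6.pow_left e).eq
      have h6 : ((x * g ^ e * x⁻¹ * (g ^ e)⁻¹ : G) : G ⧸ N) =
          (x : G ⧸ N) * (g : G ⧸ N) ^ e * (x : G ⧸ N)⁻¹ * ((g : G ⧸ N) ^ e)⁻¹ := rfl
      rw [h6, ← h5, mul_inv_cancel_right, mul_inv_cancel]
    obtain ⟨N', hN'⟩ : ∃ N' : Subgroup G, N' = N ⊔ Subgroup.zpowers (g ^ e) := ⟨_, rfl⟩
    have hge : g ^ e ∈ N' := by
      rw [hN']
      exact (le_sup_right : Subgroup.zpowers (g ^ e) ≤ _) (Subgroup.mem_zpowers _)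
    have hNN' : N ≤ N' := by
      rw [hN']
      exact le_sup_left
    have hN'n : N'.Normal := by
      refine ⟨fun y hy x => ?_⟩
      have h5 : N' ≤ N'.comap (MulAut.conj x).toMonoidHom := by
        conv_lhs => rw [hN']
        refine sup_le (fun k hk => ?_) ?_
        · exact hNN' (hN.conj_mem k hk x)
        · rw [Subgroup.zpowers_le]
          show x * g ^ e * x⁻¹ ∈ N'
          have h6 : x * g ^ e * x⁻¹ = (x * g ^ e * x⁻¹ * (g ^ e)⁻¹) * g ^ e := by group
          rw [h6]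
          exact mul_mem (hNN' (hcomm x)) hge
      exact h5 hy
    have h7 := hmax N' hN'n (by
      intro h
      refine hb1 ?_
      rw [← Subgroup.mem_bot, ← h]
      refine Subgroup.mem_inf.2 ⟨(Subgroup.mem_inf.1 hb).1, ?_⟩
      have h8 : N' ≤ Subgroup.centralizer ({b} : Set G) := by
        rw [hN']
        refine sup_le (fun x hx => ?_) ?_
        · rw [Subgroup.mem_centralizer_iff]
          rintro _ rfl
          exact ((Subgroup.mem_centralizer_iff.1 (Subgroup.mem_inf.1 hb).2) x hx).symm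
        · rw [Subgroup.zpowers_le, Subgroup.mem_centralizer_iff]
          rintro _ rfl
          exact (mul_inv_eq_iff_eq_mul.1 hgb).symm
      rw [Subgroup.mem_centralizer_iff]
      intro x hx
      exact ((Subgroup.mem_centralizer_iff.1 (h8 hx)) b rfl).symm) hNN'
    refine hz0 e he ?_
    have h8 : g ^ e ∈ N := by
      rw [← h7]
      exact hge
    exact (QuotientGroup.eq_one_iff (g ^ e)).2 h8

/-- a just-non-(virtually nilpotent) group is not virtually solvable -/
theorem mw5_JN (h3 : MW3Stmt) (h4 : MW4Stmt) {Q : Type} [Group Q] (h : JN Q)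
    (hv : VSm (⊥ : Subgroup Q)) : False := by
  classical
  obtain ⟨P, hP, n, hn⟩ := hv
  obtain ⟨P₀, hP₀⟩ : ∃ P₀ : Subgroup Q, P₀ = P.normalCore := ⟨_, rfl⟩
  have hP1 : P₀.FiniteIndex := by rw [hP₀]; infer_instance
  have hP2 : P₀.Normal := by rw [hP₀]; infer_instance
  have hP3 : ds P₀ n = ⊥ :=
    le_bot_iff.1 ((ds_mono (by rw [hP₀]; exact Subgroup.normalCore_le P) n).trans hn)
  -- the last nontrivial term
  obtain ⟨A, hA, hne, hab⟩ : ∃ A : Subgroup Q, A.Normal ∧ A ≠ ⊥ ∧ ∀ a ∈ A, ∀ b ∈ A, a * b = b * a := by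
    obtain ⟨j, hj1, hj2⟩ : ∃ j, ds P₀ j ≠ ⊥ ∧ ds P₀ (j + 1) = ⊥ := by
      by_contra hcon
      push Not at hcon
      have h1 : ∀ j, ds P₀ j ≠ ⊥ := by
        intro j
        induction j with
        | zero =>
          intro h0
          have h0' : P₀ = ⊥ := h0
          refine h.not_vn ⟨P₀, hP1, 0, ?_⟩
          exact h0'.le
        | succ j ih => exact hcon j ih
      exact h1 n hP3
    refine ⟨ds P₀ j, ds_normal hP2 j, hj1, fun a ha b hb => ?_⟩
    have h1 : a * b * a⁻¹ * b⁻¹ ∈ ds P₀ (j + 1) := Subgroup.commutator_mem_commutator ha hb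
    rw [hj2, Subgroup.mem_bot] at h1
    have h2 : a * b = (a * b * a⁻¹ * b⁻¹) * (b * a) := by group
    rw [h2, h1, one_mul]
  have hfg : A.FG := h.fg hA
  -- `A` is torsion free
  have htf : ∀ a ∈ A, ∀ k : ℕ, 0 < k → a ^ k = 1 → a = 1 := by
    let inst : CommGroup A :=
      { (inferInstance : Group A) with mul_comm := fun a b => Subtype.ext (hab a a.2 b b.2) }
    let T : Subgroup Q :=
      { carrier := {a | a ∈ A ∧ ∃ k : ℕ, 0 < k ∧ a ^ k = 1}
        mul_mem' := by
          rintro a b ⟨ha, i, hi, hi'⟩ ⟨hb, j, hj, hj'⟩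
          refine ⟨mul_mem ha hb, i * j, Nat.mul_pos hi hj, ?_⟩
          have h5 : Commute a b := hab a ha b hb
          rw [h5.mul_pow, pow_mul, hi', one_pow, one_mul, mul_comm, pow_mul, hj', one_pow]
        one_mem' := ⟨one_mem _, 1, one_pos, one_pow _⟩
        inv_mem' := by
          rintro a ⟨ha, i, hi, hi'⟩
          exact ⟨inv_mem ha, i, hi, by rw [inv_pow, hi', inv_one]⟩ }
    have hTn : T.Normal := by
      refine ⟨fun a ha g => ⟨hA.conj_mem a ha.1 g, ?_⟩⟩
      obtain ⟨k, hk, hk'⟩ := ha.2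
      exact ⟨k, hk, by rw [conj_pow, hk', mul_one, mul_inv_cancel]⟩
    have hTfin : (T : Set Q).Finite := by
      have hTfg : T.FG := h.fg hTn
      let inst' : CommGroup T := { (inferInstance : Group T) with
        mul_comm := fun a b => Subtype.ext (hab a a.2.1 b b.2.1) }
      have hTfg' : Group.FG T := (Group.fg_iff_subgroup_fg T).2 hTfg
      have : Finite T := CommGroup.finite_of_fg_isMulTorsion T fun t => by
        obtain ⟨k, hk, hk'⟩ := t.2.2
        exact isOfFinOrder_iff_pow_eq_one.2 ⟨k, hk, Subtype.ext hk'⟩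
      exact this
    have hT0 : T = ⊥ := by
      by_contra hT
      exact h.not_vn (VNm.of_finite hTn hTfin (h.vn T hTn hT))
    intro a ha k hk hk'
    have h5 : a ∈ T := ⟨ha, k, hk, hk'⟩
    rw [hT0] at h5
    exact Subgroup.mem_bot.1 h5
  -- a subgroup of finite index which is nilpotent modulo `A`
  obtain ⟨P', hP', m, hm⟩ := h.vn A hA hne
  obtain ⟨G₁, hG₁⟩ : ∃ G₁ : Subgroup Q, G₁ = A ⊔ P' := ⟨_, rfl⟩
  have hG1i : G₁.FiniteIndex := by
    rw [hG₁]
    exact Subgroup.finiteIndex_of_le (le_sup_right : P' ≤ A ⊔ P')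
  have hAG : A ≤ G₁ := by
    rw [hG₁]
    exact le_sup_left
  have hlc : lc G₁ m ≤ A := by
    rw [hG₁]
    exact (mw5_lc_sup hA P' m).trans (sup_le le_rfl hm)
  have hQfg : Group.FG Q := h.sub.fg
  have hG1 : SubG G₁ := h.sub.sub ((Group.fg_iff_subgroup_fg _).1 (Subgroup.fg_of_index_ne_zero _))
  obtain ⟨a, ha, ha1, hai⟩ := mw5_claim h3 h4 hG1 (A := A.subgroupOf G₁) inferInstance
    (by
      have h5 : Group.FG A := (Group.fg_iff_subgroup_fg A).2 hfg
      have h6 : Group.FG (A.subgroupOf G₁) := Group.fg_of_surjective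
        (f := (Subgroup.subgroupOfEquivOfLe hAG).symm.toMonoidHom)
        (Subgroup.subgroupOfEquivOfLe hAG).symm.surjective
      exact (Group.fg_iff_subgroup_fg _).1 h6)
    (fun a ha b hb => Subtype.ext (hab a ha b hb))
    (fun h0 => hne (by
      rw [← inf_eq_left.2 hAG, ← Subgroup.subgroupOf_map_subtype, h0, Subgroup.map_bot]))
    (fun a ha k hk hk' => Subtype.ext (htf a ha k hk (congrArg Subtype.val hk')))
    (m := m) (by
      have h5 : (lc (⊤ : Subgroup G₁) m).map G₁.subtype = lc G₁ m := by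
        rw [lc_map, ← MonoidHom.range_eq_map, Subgroup.range_subtype]
      intro x hx
      rw [Subgroup.mem_subgroupOf]
      refine hlc ?_
      rw [← h5]
      exact ⟨x, hx, rfl⟩)
  -- the elements of `A` whose centralizer has finite index
  have haA : (a : Q) ∈ A := Subgroup.mem_subgroupOf.1 ha
  have hcent : (Subgroup.centralizer ({(a : Q)} : Set Q)).FiniteIndex := by
    have h5 : ((Subgroup.centralizer ({a} : Set G₁)).map G₁.subtype).FiniteIndex := by
      refine ⟨?_⟩
      rw [Subgroup.index_map_subtype]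
      exact Nat.mul_ne_zero hai.index_ne_zero hG1i.index_ne_zero
    refine Subgroup.finiteIndex_of_le
      (H := (Subgroup.centralizer ({a} : Set G₁)).map G₁.subtype) ?_
    rintro _ ⟨x, hx, rfl⟩
    rw [Subgroup.mem_centralizer_iff]
    rintro _ rfl
    exact congrArg Subtype.val (Subgroup.mem_centralizer_iff.1 hx a rfl)
  let F : Subgroup Q :=
    { carrier := {b | b ∈ A ∧ (Subgroup.centralizer ({b} : Set Q)).FiniteIndex}
      mul_mem' := by
        rintro x y ⟨hx, hx'⟩ ⟨hy, hy'⟩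
        refine ⟨mul_mem hx hy, Subgroup.finiteIndex_of_le
          (H := Subgroup.centralizer ({x} : Set Q) ⊓ Subgroup.centralizer ({y} : Set Q)) ?_⟩
        intro g hg
        have h5 := Subgroup.mem_centralizer_iff.1 (Subgroup.mem_inf.1 hg).1 x rfl
        have h6 := Subgroup.mem_centralizer_iff.1 (Subgroup.mem_inf.1 hg).2 y rfl
        rw [Subgroup.mem_centralizer_iff]
        rintro _ rfl
        rw [mul_assoc, h6, ← mul_assoc, h5, mul_assoc]
      one_mem' := by
        refine ⟨one_mem _, Subgroup.finiteIndex_of_le (H := ⊤) fun g _ => ?_⟩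
        rw [Subgroup.mem_centralizer_iff]
        rintro _ rfl
        rw [one_mul, mul_one]
      inv_mem' := by
        rintro x ⟨hx, hx'⟩
        refine ⟨inv_mem hx, Subgroup.finiteIndex_of_le
          (H := Subgroup.centralizer ({x} : Set Q)) fun g hg => ?_⟩
        rw [Subgroup.mem_centralizer_iff] at hg ⊢
        rintro _ rfl
        have h5 : Commute x g := hg x rfl
        exact h5.inv_left.eq }
  have hFA : F ≤ A := fun x hx => hx.1
  have hFn : F.Normal := by
    refine ⟨fun x hx g => ⟨hA.conj_mem x hx.1 g, ?_⟩⟩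
    have h5 := hx.2
    have h6 : ((Subgroup.centralizer ({x} : Set Q)).comap
        (MulAut.conj g⁻¹).toMonoidHom).FiniteIndex :=
      finiteIndex_comap (MulAut.conj g⁻¹).surjective h5
    refine Subgroup.finiteIndex_of_le (H := (Subgroup.centralizer ({x} : Set Q)).comap
        (MulAut.conj g⁻¹).toMonoidHom) fun y hy => ?_
    have h7 : g⁻¹ * y * g⁻¹⁻¹ ∈ Subgroup.centralizer ({x} : Set Q) := hy
    rw [Subgroup.mem_centralizer_iff] at h7 ⊢
    rintro _ rfl
    have h8 := h7 x rfl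
    rw [inv_inv] at h8
    have h9 : g * x * g⁻¹ * y = g * (x * (g⁻¹ * y * g)) * g⁻¹ := by group
    rw [h9, h8]
    group
  have hF0 : F ≠ ⊥ := by
    intro h0
    have h5 : (a : Q) ∈ F := ⟨haA, hcent⟩
    rw [h0, Subgroup.mem_bot] at h5
    exact ha1 (Subtype.ext h5)
  -- the centralizer of `F` has finite index
  obtain ⟨S, hS, hSfin⟩ := (Subgroup.fg_iff F).1 (h.fg hFn)
  obtain ⟨S, rfl⟩ := hSfin.exists_finset_coe
  have hCS : ∀ T : Finset Q, (∀ t ∈ T, t ∈ F) → ∃ C : Subgroup Q, C.FiniteIndex ∧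
      ∀ c ∈ C, ∀ t ∈ T, t * c = c * t := by
    intro T
    induction T using Finset.induction_on with
    | empty => exact fun _ => ⟨⊤, inferInstance, by simp⟩
    | insert t T ht ih =>
      intro hT
      obtain ⟨C, hC, hC'⟩ := ih fun s hs => hT s (Finset.mem_insert_of_mem hs)
      have h5 := (hT t (Finset.mem_insert_self t T)).2
      refine ⟨C ⊓ Subgroup.centralizer ({t} : Set Q), inferInstance, fun c hc s hs => ?_⟩
      rcases Finset.mem_insert.1 hs with rfl | hs
      · exact Subgroup.mem_centralizer_iff.1 (Subgroup.mem_inf.1 hc).2 s rfl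
      · exact hC' c (Subgroup.mem_inf.1 hc).1 s hs
  obtain ⟨C, hC, hC'⟩ := hCS S fun t ht => by
    rw [← hS]
    exact Subgroup.subset_closure ht
  have hCF : ∀ f ∈ F, ∀ c ∈ C, f * c = c * f := by
    intro f hf c hc
    have h5 : F ≤ Subgroup.centralizer ({c} : Set Q) := by
      rw [← hS, Subgroup.closure_le]
      intro t ht
      rw [SetLike.mem_coe, Subgroup.mem_centralizer_iff]
      rintro _ rfl
      exact (hC' _ hc t ht).symm
    exact (Subgroup.mem_centralizer_iff.1 (h5 hf) c rfl).symm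
  obtain ⟨P₁, hP1', n₁, hn₁⟩ := h.vn F hFn hF0
  refine h.not_vn ⟨P₁ ⊓ C, inferInstance, n₁ + 1, ?_⟩
  refine Subgroup.commutator_le.2 fun x hx y hy => ?_
  have h5 : x ∈ F := hn₁ (lc_mono inf_le_left n₁ hx)
  have h6 : x * y = y * x := hCF x h5 y (Subgroup.mem_inf.1 hy).2
  rw [Subgroup.mem_bot, commutatorElement_def, h6, mul_inv_cancel_right, mul_inv_cancel]

/-- the theorem of Milnor and Wolf -/
theorem milnor_wolf_of (h3 : MW3Stmt) (h4 : MW4Stmt) {G : Type} [Group G] (hG : SubG G)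
    (h : VSm (⊥ : Subgroup G)) : VNm (⊥ : Subgroup G) := by
  by_contra hcon
  obtain ⟨N, hN, hJ, -⟩ := exists_JN hG hcon
  refine mw5_JN h3 h4 hJ ?_
  have h2 := h.map (QuotientGroup.mk' N) (QuotientGroup.mk'_surjective N)
  rwa [Subgroup.map_bot] at h2

end Pool.Agent.H2Blocks
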