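import Pool.Agent.H2Blocks.MW1_h14
import Pool.Agent.H2Blocks.MW2_h28
import Pool.Agent.H2Blocks.MW3_h35
import Pool.Agent.H2Blocks.MW4_h38
import Pool.Agent.H2Blocks.MW5_h97

/-!
# The theorem of Milnor and Wolf: virtually solvable groups of subexponential growth are virtually
nilpotent
-/

set_option autoImplicit false

namespace Pool.Agent.H2Blocks

open Pool.Agent.H2SlowRed

theorem mw_fixed {G : Type} [Group G] (hG : SubG G) {A : Subgroup G} (_hA : A.Normal)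
    (hfg : A.FG) (hab : ∀ a ∈ A, ∀ b ∈ A, a * b = b * a) (_hne : A ≠ ⊥)
    (htf : ∀ a ∈ A, ∀ n : ℕ, 0 < n → a ^ n = 1 → a = 1) (g : G) (B : Subgroup G) (hBA : B ≤ A)
    (hB : B ≠ ⊥) (hgB : ∀ b ∈ B, g * b * g⁻¹ ∈ B) (hgB' : ∀ b ∈ B, g⁻¹ * b * g ∈ B) :
    ∃ e : ℕ, 0 < e ∧ ∃ b ∈ B, b ≠ 1 ∧ g ^ e * b * (g ^ e)⁻¹ = b :=
  mw_fixed_of mw_kronecker mw_collision hG hfg hab htf g B hBA hB hgB hgB'

/-- virtually solvable groups of subexponential growth are virtually nilpotent -/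
theorem milnor_wolf {G : Type} [Group G] (hG : SubG G) (h : VSm (⊥ : Subgroup G)) :
    VNm (⊥ : Subgroup G) :=
  milnor_wolf_of @mw_fixed @mw_centre hG h

end Pool.Agent.H2Blocks
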