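import Pool.Agent.H2Blocks.Star

/-!
# The group induced on a block whose smaller blocks have the same normalizer, continued
-/

set_option autoImplicit false

namespace Pool.Agent.H2Blocks

open Pool.Agent.H2SlowRed

variable {G : Type} [Group G]

section

variable {C : Subgroup G} {H : Type} [Group H] {π : Nm C →* H}

/-- the part of `C ⊓ K` which goes to `X` -/
def part (C K : Subgroup G) {H : Type} [Group H] (π : Nm C →* H) (X : Subgroup H) : Subgroup G :=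
  (X.comap π).map (Nm C).subtype ⊓ (C ⊓ K)

theorem mem_part {K : Subgroup G} {X : Subgroup H} {x : G} :
    x ∈ part C K π X ↔ x ∈ C ∧ x ∈ K ∧ ∃ hx : x ∈ Nm C, π ⟨x, hx⟩ ∈ X := by
  rw [part, Subgroup.mem_inf, Subgroup.mem_inf]
  constructor
  · rintro ⟨⟨⟨y, hy⟩, hyX, rfl⟩, h1, h2⟩
    exact ⟨h1, h2, hy, hyX⟩
  · rintro ⟨h1, h2, h3, h4⟩
    exact ⟨⟨⟨x, h3⟩, h4, rfl⟩, h1, h2⟩

/-- the part is not trivial -/
theorem part_ne_bot (h : JS G) (hr : Res G = ⊥) (hC : Block C) {K : Subgroup G} (hK : K.Normal)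
    (hKi : K.FiniteIndex) (hsur : Function.Surjective π) (hker : ∀ x, π x = 1 ↔ (x : G) ∈ Cz C)
    {X : Subgroup H} (hX0 : X ≠ ⊥)
    (hX : ∀ k : Nm C, (k : G) ∈ K → ∀ x ∈ X, π k * x * (π k)⁻¹ ∈ X) : part C K π X ≠ ⊥ := by
  obtain ⟨x, hx, hx1⟩ : ∃ x ∈ X, x ≠ 1 := by
    by_contra hcon
    push Not at hcon
    exact hX0 (le_bot_iff.1 fun x hx => Subgroup.mem_bot.2 (hcon x hx))
  obtain ⟨n, rfl⟩ := hsur x
  have h1 : (n : G) ∉ Cz (C ⊓ K) := fun h2 => hx1 ((hker n).2 (cz_inf h hr hC hK hKi h2))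
  rw [mem_Cz] at h1
  push Not at h1
  obtain ⟨c, hc, hnc⟩ := h1
  obtain ⟨hc1, hc2⟩ := Subgroup.mem_inf.1 hc
  intro h0
  have h2 : (n : G) * c * (n : G)⁻¹ * c⁻¹ ∈ part C K π X := by
    rw [mem_part]
    refine ⟨mul_mem (Nm_conj n.2 hc1) (inv_mem hc1),
      mul_mem (hK.conj_mem c hc2 n) (inv_mem hc2),
      mul_mem (mul_mem (mul_mem n.2 (le_Nm C hc1)) (inv_mem n.2)) (inv_mem (le_Nm C hc1)), ?_⟩
    have h3 : (⟨(n : G) * c * (n : G)⁻¹ * c⁻¹,
        mul_mem (mul_mem (mul_mem n.2 (le_Nm C hc1)) (inv_mem n.2)) (inv_mem (le_Nm C hc1))⟩ :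
          Nm C) = n * (⟨c, le_Nm C hc1⟩ * n⁻¹ * (⟨c, le_Nm C hc1⟩ : Nm C)⁻¹) := by
      refine Subtype.ext ?_
      show (n : G) * c * (n : G)⁻¹ * c⁻¹ = n * (c * (n : G)⁻¹ * c⁻¹)
      group
    rw [h3, map_mul, map_mul, map_mul, map_inv, map_inv]
    exact mul_mem hx (hX ⟨c, le_Nm C hc1⟩ hc2 _ (inv_mem hx))
  rw [h0, Subgroup.mem_bot] at h2
  refine hnc ?_
  calc (n : G) * c = (n * c * (n : G)⁻¹ * c⁻¹) * (c * n) := by group
    _ = c * n := by rw [h2, one_mul]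

/-- nontrivial subgroups which are normalized by a subgroup of finite index contain nontrivial
normal subgroups -/
theorem star_normal (h : JS G) (hr : Res G = ⊥) (hC : Block C)
    (hp : ∀ D : Subgroup G, Block D → D ≤ C → Nm C ≤ Nm D)
    (hsur : Function.Surjective π) (hker : ∀ x, π x = 1 ↔ (x : G) ∈ Cz C)
    {M X : Subgroup H} (hM : M.FiniteIndex) (hX0 : X ≠ ⊥)
    (hX : ∀ k ∈ M, ∀ x ∈ X, k * x * k⁻¹ ∈ X) :
    ∃ Z : Subgroup H, Z.Normal ∧ Z ≠ ⊥ ∧ Z ≤ X := by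
  obtain ⟨K, hK⟩ : ∃ K : Subgroup G, K = ((M.comap π).map (Nm C).subtype).normalCore := ⟨_, rfl⟩
  have hNi := hC.fin
  have h1 : ((M.comap π).map (Nm C).subtype).FiniteIndex := by
    refine ⟨?_⟩
    rw [Subgroup.index_map_subtype]
    exact mul_ne_zero (finiteIndex_comap hsur hM).index_ne_zero hNi.index_ne_zero
  have hKn : K.Normal := by rw [hK]; infer_instance
  have hKi : K.FiniteIndex := by rw [hK]; infer_instance
  have hKM : ∀ k ∈ K, ∃ hk : k ∈ Nm C, π ⟨k, hk⟩ ∈ M := by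
    intro k hk
    rw [hK] at hk
    obtain ⟨⟨y, hy⟩, hyM, rfl⟩ := Subgroup.normalCore_le _ hk
    exact ⟨hy, hyM⟩
  have hX' : ∀ k : Nm C, (k : G) ∈ K → ∀ x ∈ X, π k * x * (π k)⁻¹ ∈ X := by
    intro k hk x hx
    obtain ⟨hk', h2⟩ := hKM k hk
    exact hX _ h2 x hx
  have h2 := part_ne_bot h hr hC hKn hKi hsur hker hX0 hX'
  have key : ∀ k ∈ K, ∀ x ∈ part C K π X, k * x * k⁻¹ ∈ part C K π X := by
    intro k hk x hx
    obtain ⟨hx1, hx2, hx3, hx4⟩ := mem_part.1 hx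
    obtain ⟨hk', hkM⟩ := hKM k hk
    refine mem_part.2 ⟨Nm_conj hk' hx1, hKn.conj_mem x hx2 k,
      mul_mem (mul_mem hk' hx3) (inv_mem hk'), ?_⟩
    have h3 := hX _ hkM _ hx4
    rwa [← map_mul, ← map_inv, ← map_mul] at h3
  obtain ⟨D, hD, hDb⟩ := exists_block (X := part C K π X) hKn hKi
    (fun x hx => (mem_part.1 hx).2.1) h2 fun k hk => mem_Nm_of (key k hk) fun x hx => by
      have h3 := key k⁻¹ (inv_mem hk) x hx
      rwa [inv_inv] at h3
  have hDC : D ≤ C := fun x hx => (mem_part.1 (hD hx)).1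
  have hN := hp D hDb hDC
  refine ⟨(D.subgroupOf (Nm C)).map π, ⟨?_⟩, ?_, ?_⟩
  · rintro _ ⟨x, hx, rfl⟩ g
    obtain ⟨g, rfl⟩ := hsur g
    refine ⟨g * x * g⁻¹, ?_, by rw [map_mul, map_mul, map_inv]⟩
    show (g : G) * x * (g : G)⁻¹ ∈ D
    exact Nm_conj (hN g.2) hx
  · intro h0
    refine hDb.ne (le_bot_iff.1 fun x hx => Subgroup.mem_bot.2 ?_)
    have h3 : π ⟨x, le_Nm C (hDC hx)⟩ ∈ (D.subgroupOf (Nm C)).map π := ⟨_, hx, rfl⟩
    rw [h0, Subgroup.mem_bot, hker] at h3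
    exact hC.center h (hDC hx) h3
  · rintro _ ⟨x, hx, rfl⟩
    obtain ⟨-, -, hx3, hx4⟩ := mem_part.1 (hD hx)
    exact hx4

/-- proper quotients are virtually solvable -/
theorem star_vs (h : JS G) (hr : Res G = ⊥) (hC : Block C)
    (hsur : Function.Surjective π) (hker : ∀ x, π x = 1 ↔ (x : G) ∈ Cz C)
    {Z : Subgroup H} (hZ : Z.Normal) (hZ0 : Z ≠ ⊥) : VSm Z := by
  have hNi := hC.fin
  have h1 : part C ⊤ π Z ≠ ⊥ := part_ne_bot h hr hC inferInstance inferInstance hsur hker hZ0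
    fun k _ x hx => hZ.conj_mem x hx (π k)
  have hY : part C ⊤ π Z ≤ C := fun x hx => (mem_part.1 hx).1
  have key : ∀ g ∈ Nm C, ∀ x ∈ part C ⊤ π Z, g * x * g⁻¹ ∈ part C ⊤ π Z := by
    intro g hg x hx
    obtain ⟨hx1, hx2, hx3, hx4⟩ := mem_part.1 hx
    refine mem_part.2 ⟨Nm_conj hg hx1, Subgroup.mem_top _,
      mul_mem (mul_mem hg hx3) (inv_mem hg), ?_⟩
    have h3 := hZ.conj_mem _ hx4 (π ⟨g, hg⟩)
    rwa [← map_mul, ← map_inv, ← map_mul] at h3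
  have hN : Nm C ≤ Nm (part C ⊤ π Z) := fun g hg => mem_Nm_of (key g hg) fun x hx => by
    have h3 := key g⁻¹ (inv_mem hg) x hx
    rwa [inv_inv] at h3
  obtain ⟨P, hP, n, hn⟩ := h.vs (Subgroup.normalClosure (part C ⊤ π Z : Set G))
    Subgroup.normalClosure_normal fun h0 => h1 (le_bot_iff.1 (by
      rw [← h0]
      exact Subgroup.subset_normalClosure))
  have hle := hn.trans (closure_le_MC hC hY hN)
  refine ⟨(P.subgroupOf (Nm C)).map π, ⟨?_⟩, n, ?_⟩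
  · have h2 : (P.subgroupOf (Nm C)).FiniteIndex := inferInstance
    exact fun h3 => h2.index_ne_zero (Nat.eq_zero_of_zero_dvd
      (h3 ▸ Subgroup.index_map_dvd (P.subgroupOf (Nm C)) hsur))
  · rw [← ds_map]
    rintro _ ⟨x, hx, rfl⟩
    have h2 : (x : G) ∈ ds P n := by
      have h3 : (ds (P.subgroupOf (Nm C)) n).map (Nm C).subtype ≤ ds P n := by
        rw [ds_map]
        exact ds_mono (Subgroup.map_le_iff_le_comap.2 le_rfl) n
      exact h3 ⟨x, hx, rfl⟩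
    obtain ⟨y, hy, c, hc, hyc⟩ := hle h2
    obtain ⟨-, -, hy3, hy4⟩ := mem_part.1 hy
    have h3 : x = ⟨y, hy3⟩ * ⟨c, Cz_le_Nm C hc⟩ := Subtype.ext hyc
    have h4 : π ⟨c, Cz_le_Nm C hc⟩ = 1 := (hker _).2 hc
    rw [h3, map_mul, h4, mul_one]
    exact hy4

theorem star_js (h : JS G) (hr : Res G = ⊥) (hC : Block C)
    (hsur : Function.Surjective π) (hker : ∀ x, π x = 1 ↔ (x : G) ∈ Cz C) : JS H := by
  have hNi := hC.fin
  refine ⟨?_, ?_, fun Z hZ hZ0 => star_vs h hr hC hsur hker hZ hZ0⟩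
  · have : Group.FG G := h.sub.fg
    have h1 : (Nm C).FG := (Group.fg_iff_subgroup_fg _).1 inferInstance
    exact (h.sub.sub h1).map π hsur
  · rintro ⟨P, hP, n, hn⟩
    obtain ⟨f, hf⟩ : ∃ f : C →* H, f = π.comp (Subgroup.inclusion (le_Nm C)) := ⟨_, rfl⟩
    refine hC.not_vs h hr ⟨P.comap f, ?_, n, ?_⟩
    · refine ⟨?_⟩
      rw [Subgroup.index_comap]
      have h1 : (P.subgroupOf f.range).FiniteIndex := inferInstance
      exact h1.index_ne_zero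
    · intro x hx
      have h1 : f x ∈ ds P n := by
        have h2 : (ds (P.comap f) n).map f ≤ ds P n := by
          rw [ds_map]
          exact ds_mono (Subgroup.map_le_iff_le_comap.2 le_rfl) n
        exact h2 ⟨x, hx, rfl⟩
      have h2 : f x = 1 := Subgroup.mem_bot.1 (hn h1)
      rw [hf] at h2
      have h3 : (x : G) ∈ Cz C := (hker _).1 h2
      exact Subgroup.mem_bot.2 (Subtype.ext (hC.center h x.2 h3))

theorem star_res (hr : Res G = ⊥)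
    (hsur : Function.Surjective π) (hker : ∀ x, π x = 1 ↔ (x : G) ∈ Cz C) : Res H = ⊥ := by
  refine le_bot_iff.1 fun x hx => Subgroup.mem_bot.2 ?_
  by_contra hx1
  obtain ⟨n, rfl⟩ := hsur x
  have h1 : (n : G) ∉ Cz C := fun h2 => hx1 ((hker n).2 h2)
  rw [mem_Cz] at h1
  push Not at h1
  obtain ⟨c, hc, hnc⟩ := h1
  obtain ⟨K, hK1, hK2, hK3⟩ : ∃ K : Subgroup G, K.Normal ∧ K.FiniteIndex ∧
      (n : G) * c * (n : G)⁻¹ * c⁻¹ ∉ K := by
    obtain ⟨K, hK1, hK2, hK3⟩ := exists_avoid hr (T := {(n : G) * c * (n : G)⁻¹ * c⁻¹})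
      (Set.finite_singleton _) (by
        intro h2
        refine hnc ?_
        calc (n : G) * c = (n * c * (n : G)⁻¹ * c⁻¹) * (c * n) := by group
          _ = c * n := by rw [← Set.mem_singleton_iff.1 h2, one_mul])
    exact ⟨K, hK1, hK2, hK3 _ rfl⟩
  obtain ⟨q, hq⟩ : ∃ q : Nm C →* G ⧸ K, q = (QuotientGroup.mk' K).comp (Nm C).subtype := ⟨_, rfl⟩
  obtain ⟨M, hM⟩ : ∃ M : Subgroup (Nm C), M = (Subgroup.centralizer
      ((C.map (QuotientGroup.mk' K) : Subgroup (G ⧸ K)) : Set (G ⧸ K))).comap q := ⟨_, rfl⟩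
  have hMmem : ∀ m : Nm C, m ∈ M ↔ ∀ d ∈ C, (m : G) * d * (m : G)⁻¹ * d⁻¹ ∈ K := by
    intro m
    rw [hM, Subgroup.mem_comap, Subgroup.mem_centralizer_iff]
    have hqm : q m = ((m : G) : G ⧸ K) := by rw [hq]; rfl
    constructor
    · intro h2 d hd
      have h3 := h2 (d : G ⧸ K) ⟨d, hd, rfl⟩
      rw [hqm] at h3
      refine (QuotientGroup.eq_one_iff _).1 ?_
      rw [QuotientGroup.mk_mul, QuotientGroup.mk_mul, QuotientGroup.mk_mul, QuotientGroup.mk_inv,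
        QuotientGroup.mk_inv, ← h3]
      group
    · rintro h2 _ ⟨d, hd, rfl⟩
      have h3 := (QuotientGroup.eq_one_iff _).2 (h2 d hd)
      rw [QuotientGroup.mk_mul, QuotientGroup.mk_mul, QuotientGroup.mk_mul, QuotientGroup.mk_inv,
        QuotientGroup.mk_inv] at h3
      rw [hqm]
      show (d : G ⧸ K) * (m : G) = (m : G) * (d : G ⧸ K)
      calc (d : G ⧸ K) * ((m : G) : G ⧸ K)
          = 1 * ((d : G ⧸ K) * ((m : G) : G ⧸ K)) := (one_mul _).symm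
        _ = (((m : G) : G ⧸ K) * d * ((m : G) : G ⧸ K)⁻¹ * (d : G ⧸ K)⁻¹) *
            ((d : G ⧸ K) * ((m : G) : G ⧸ K)) := by rw [h3]
        _ = _ := by group
  have hMn : M.Normal := by
    refine ⟨fun m hm g => ?_⟩
    rw [hMmem] at hm ⊢
    intro d hd
    have h2 := hm _ (Nm_conj' g.2 hd)
    have h3 := hK1.conj_mem _ h2 (g : G)
    rwa [show (g : G) * ((m : G) * ((g : G)⁻¹ * d * g) * (m : G)⁻¹ * ((g : G)⁻¹ * d * g)⁻¹) *
      (g : G)⁻¹ = ((g * m * g⁻¹ : Nm C) : G) * d * ((g * m * g⁻¹ : Nm C) : G)⁻¹ * d⁻¹ by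
        rw [Subgroup.coe_mul, Subgroup.coe_mul, Subgroup.coe_inv]
        group] at h3
  have hMi : M.FiniteIndex := by
    refine Subgroup.finiteIndex_of_le (H := K.subgroupOf (Nm C)) fun m hm => ?_
    rw [hMmem]
    intro d hd
    have h2 : (m : G) ∈ K := hm
    have h3 := mul_mem h2 (hK1.conj_mem _ (inv_mem h2) d)
    rwa [show (m : G) * (d * (m : G)⁻¹ * d⁻¹) = (m : G) * d * (m : G)⁻¹ * d⁻¹ by group] at h3
  have hx' := (Subgroup.mem_sInf.1 hx) (M.map π) ⟨hMn.map π hsur, ⟨fun h3 =>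
    hMi.index_ne_zero (Nat.eq_zero_of_zero_dvd (h3 ▸ Subgroup.index_map_dvd M hsur))⟩⟩
  obtain ⟨m, hm, hmn⟩ := hx'
  have h2 : (((m⁻¹ * n : Nm C)) : G) ∈ Cz C := by
    rw [← hker, map_mul, map_inv, hmn, inv_mul_cancel]
  refine hK3 ?_
  have h3 := (hMmem m).1 hm c hc
  have h4 := mem_Cz.1 h2 c hc
  rw [Subgroup.coe_mul, Subgroup.coe_inv] at h4
  have h5 : (n : G) * c * (n : G)⁻¹ = (m : G) * c * (m : G)⁻¹ := by
    calc (n : G) * c * (n : G)⁻¹ = m * (((m : G)⁻¹ * n) * c) * (n : G)⁻¹ := by group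
      _ = m * (c * ((m : G)⁻¹ * n)) * (n : G)⁻¹ := by rw [h4]
      _ = _ := by group
  rwa [h5]

end

/-- a group all of whose proper quotients are virtually solvable, in which subgroups normalized by
a subgroup of finite index contain normal subgroups: the subgroups of finite index -/
theorem hered {H : Type} [Group H] (h : JS H)
    (hs : ∀ M X : Subgroup H, M.FiniteIndex → X ≠ ⊥ → (∀ k ∈ M, ∀ x ∈ X, k * x * k⁻¹ ∈ X) →
      ∃ Z : Subgroup H, Z.Normal ∧ Z ≠ ⊥ ∧ Z ≤ X) (M : Subgroup H) (hM : M.FiniteIndex) :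
    JS M := by
  refine ⟨?_, ?_, ?_⟩
  · have : Group.FG H := h.sub.fg
    exact h.sub.sub ((Group.fg_iff_subgroup_fg _).1 inferInstance)
  · rintro ⟨P, hP, n, hn⟩
    refine h.not_vs ⟨P.map M.subtype, ⟨?_⟩, n, ?_⟩
    · rw [Subgroup.index_map_subtype]
      exact mul_ne_zero hP.index_ne_zero hM.index_ne_zero
    · rw [← ds_map]
      refine (Subgroup.map_mono hn).trans ?_
      rw [Subgroup.map_bot]
  · intro X hX hX0
    obtain ⟨Z, hZ1, hZ2, hZ3⟩ := hs M (X.map M.subtype) hM (fun h0 => hX0 (by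
      rwa [Subgroup.map_eq_bot_iff_of_injective _ (Subgroup.subtype_injective M)] at h0)) (by
        rintro k hk _ ⟨x, hx, rfl⟩
        exact ⟨⟨k, hk⟩ * x * ⟨k, hk⟩⁻¹, hX.conj_mem x hx _, rfl⟩)
    obtain ⟨P, hP, n, hn⟩ := h.vs Z hZ1 hZ2
    refine ⟨P.subgroupOf M, inferInstance, n, ?_⟩
    intro x hx
    have h1 : (ds (P.subgroupOf M) n).map M.subtype ≤ ds P n := by
      rw [ds_map]
      exact ds_mono (Subgroup.map_le_iff_le_comap.2 le_rfl) n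
    obtain ⟨y, hy, hyx⟩ := hZ3 (hn (h1 ⟨x, hx, rfl⟩))
    rwa [← Subtype.ext hyx]

end Pool.Agent.H2Blocks
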