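import Pool.Agent.H2Blocks.Orbit
import Pool.Agent.H2Blocks.Star2
import Pool.Agent.H2Blocks.MW

/-!
# Groups of subexponential growth with a law: simple or hereditarily critical
-/

set_option autoImplicit false

namespace Pool.Agent.H2Blocks

open Pool.Agent.H2SlowRed

theorem vs_iff {G : Type} [Group G] (hG : SubG G) :
    VSm (⊥ : Subgroup G) ↔ VNm (⊥ : Subgroup G) :=
  ⟨milnor_wolf hG, VNm.vs⟩

theorem js_of_jn {Q : Type} [Group Q] (h : JN Q) : JS Q :=
  ⟨h.sub, fun h1 => h.not_vn (milnor_wolf h.sub h1), fun X hX hX0 => (h.vn X hX hX0).vs⟩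

theorem JS.vn_quot {Q : Type} [Group Q] (h : JS Q) {N : Subgroup Q} (hN : N.Normal)
    (hN0 : N ≠ ⊥) : VNm (⊥ : Subgroup (Q ⧸ N)) := by
  refine milnor_wolf (h.sub.map _ (QuotientGroup.mk'_surjective N)) ?_
  have h2 := (h.vs N hN hN0).map _ (QuotientGroup.mk'_surjective N)
  rwa [(Subgroup.map_eq_bot_iff N).2 (by rw [QuotientGroup.ker_mk'])] at h2

theorem ev_map {G H : Type} [Group G] [Group H] (φ : G →* H) (f : ℕ → G) (L : List (ℕ × Bool)) :
    ev (fun i => φ (f i)) L = φ (ev f L) := by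
  induction L with
  | nil => exact (map_one φ).symm
  | cons a L ih =>
    have h1 : ev f (a :: L) = cond a.2 (f a.1) (f a.1)⁻¹ * ev f L := rfl
    have h2 : ev (fun i => φ (f i)) (a :: L) = cond a.2 (φ (f a.1)) (φ (f a.1))⁻¹ *
      ev (fun i => φ (f i)) L := rfl
    rw [h1, h2, ih, map_mul]
    cases a.2 <;> simp

theorem ev_surj {G H : Type} [Group G] [Group H] {φ : G →* H} (hφ : Function.Surjective φ)
    {L : List (ℕ × Bool)} (h : ∀ f : ℕ → G, ev f L = 1) (f : ℕ → H) : ev f L = 1 := by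
  choose g hg using hφ
  have h1 : f = fun i => φ (g (f i)) := funext fun i => (hg (f i)).symm
  rw [h1, ev_map, h, map_one]

theorem ev_sub {G : Type} [Group G] {L : List (ℕ × Bool)} (h : ∀ f : ℕ → G, ev f L = 1)
    (K : Subgroup G) (f : ℕ → K) : ev f L = 1 := by
  refine Subtype.ext ?_
  have h1 := ev_map K.subtype f L
  rw [show ev (fun i => K.subtype (f i)) L = 1 from h _] at h1
  exact h1.symm

theorem ev_sec {G H : Type} [Group G] [Group H] (h : Sec G H) {L : List (ℕ × Bool)}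
    (hL : ∀ f : ℕ → G, ev f L = 1) : ∀ f : ℕ → H, ev f L = 1 := by
  obtain ⟨S, φ, hφ⟩ := h
  exact ev_surj hφ (ev_sub hL S)

theorem MinLaw.of_sec {G H : Type} [Group G] [Group H] {L : List (ℕ × Bool)} (hL : MinLaw G L)
    (h : Sec G H) : MinLaw H L :=
  ⟨hL.red, hL.ne, ev_sec h hL.law, fun K _ hK => hL.min K (h.trans hK)⟩

theorem exists_minLaw {G : Type} [Group G] (hG : SubG G) (hn : ¬ VSm (⊥ : Subgroup G))
    {L : List (ℕ × Bool)} (hred : Red L) (hne : L ≠ []) (hlaw : ∀ f : ℕ → G, ev f L = 1) :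
    ∃ (H : Type) (_ : Group H) (L' : List (ℕ × Bool)), Sec G H ∧ SubG H ∧
      ¬ VSm (⊥ : Subgroup H) ∧ MinLaw H L' := by
  classical
  have hcard : ∀ L : List (ℕ × Bool), L.length = (L.length - (vars L).card) + (vars L).card := by
    intro L
    have h1 : (vars L).card ≤ L.length := by
      have h2 := List.toFinset_card_le (L.map Prod.fst)
      rwa [List.length_map] at h2
    omega
  have h1 : ∃ c : ℕ, ∃ (H : Type) (_ : Group H) (L' : List (ℕ × Bool)), Sec G H ∧ SubG H ∧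
      ¬ VSm (⊥ : Subgroup H) ∧ Red L' ∧ L' ≠ [] ∧ (∀ f : ℕ → H, ev f L' = 1) ∧
      L'.length = c + (vars L').card :=
    ⟨_, G, inferInstance, L, Sec.refl G, hG, hn, hred, hne, hlaw, hcard L⟩
  obtain ⟨H, _, L', hs, h2, h3, h4, h5, h6, h7⟩ := Nat.find_spec h1
  refine ⟨H, inferInstance, L', hs, h2, h3, h4, h5, h6, fun K _ hK h8 h9 L'' h10 h11 h12 => ?_⟩
  have h13 : Nat.find h1 ≤ L''.length - (vars L'').card :=
    Nat.find_min' h1 ⟨K, inferInstance, L'', hs.trans hK, h8, h9, h10, h11, h12, hcard L''⟩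
  have h14 := hcard L''
  omega

/-- the section -/
theorem exists_section {G : Type} [Group G] (hG : SubG G) (hn : ¬ VSm (⊥ : Subgroup G))
    {L : List (ℕ × Bool)} (hL : MinLaw G L) :
    ∃ (H : Type) (_ : Group H), Sec G H ∧ SubG H ∧ ¬ VSm (⊥ : Subgroup H) ∧
      (IsSimpleGroup H ∨ Res H = ⊥ ∧ ∀ M : Subgroup H, M.FiniteIndex → JS M) := by
  obtain ⟨N, hN, hJN, -⟩ := exists_JN hG fun h => hn h.vs
  have hsec : Sec G (G ⧸ N) := Sec.of_surj (QuotientGroup.mk'_surjective N)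
  by_cases h0 : Res (G ⧸ N) = ⊥
  · have hJS := js_of_jn hJN
    obtain ⟨C, hC, hp⟩ := exists_prime hJS h0 (hL.of_sec hsec)
    have hn : ((Cz C).subgroupOf (Nm C)).Normal := by
      refine ⟨fun x hx g => ?_⟩
      rw [Subgroup.mem_subgroupOf] at hx ⊢
      rw [mem_Cz] at hx ⊢
      intro y hy
      have h1 := hx _ (Nm_conj' g.2 hy)
      rw [Subgroup.coe_mul, Subgroup.coe_mul, Subgroup.coe_inv]
      calc (g : G ⧸ N) * x * (g : G ⧸ N)⁻¹ * y
          = g * (x * ((g : G ⧸ N)⁻¹ * y * g)) * (g : G ⧸ N)⁻¹ := by group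
        _ = g * (((g : G ⧸ N)⁻¹ * y * g) * x) * (g : G ⧸ N)⁻¹ := by rw [h1]
        _ = _ := by group
    have hsur := QuotientGroup.mk'_surjective ((Cz C).subgroupOf (Nm C))
    have hker : ∀ x, QuotientGroup.mk' ((Cz C).subgroupOf (Nm C)) x = 1 ↔
        (x : G ⧸ N) ∈ Cz C := fun x => QuotientGroup.eq_one_iff x
    have h1 := star_js hJS h0 hC hsur hker
    refine ⟨Nm C ⧸ (Cz C).subgroupOf (Nm C), inferInstance,
      hsec.trans ((Sec.of_sub (Nm C)).trans (Sec.of_surj hsur)), h1.sub, h1.not_vs,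
      Or.inr ⟨star_res h0 hsur hker, ?_⟩⟩
    exact hered h1 fun M X hM hX0 hX => star_normal hJS h0 hC hp hsur hker hM hX0 hX
  · obtain ⟨M, hM, h1, h2, h3⟩ := hJN.dichotomy h0
    exact ⟨Res (G ⧸ N) ⧸ M, inferInstance, hsec.trans ((Sec.of_sub _).trans
      (Sec.of_surj (QuotientGroup.mk'_surjective M))), h2, fun h4 => h3 (milnor_wolf h2 h4),
      Or.inl h1⟩

theorem red_toWord (w : FreeGroup ℕ) : Red w.toWord := FreeGroup.isReduced_toWord

theorem ev_eq_lift {G : Type} [Group G] (f : ℕ → G) (L : List (ℕ × Bool)) :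
    ev f L = FreeGroup.lift f (FreeGroup.mk L) := by
  rw [FreeGroup.lift_mk]
  rfl

/-- **the reduction** -/
theorem reduction {G : Type} [Group G] (hG : SubG G) (hn : ¬ VNm (⊥ : Subgroup G))
    {w : FreeGroup ℕ} (hw : w ≠ 1) (hlaw : ∀ f : ℕ → G, FreeGroup.lift f w = 1) :
    ∃ (H : Type) (_ : Group H), Sec G H ∧ SubG H ∧ ¬ VNm (⊥ : Subgroup H) ∧
      (IsSimpleGroup H ∨ Res H = ⊥ ∧ ∀ M : Subgroup H, M.FiniteIndex → JS M) ∧
      ∃ L, MinLaw H L := by
  have h1 : ∀ f : ℕ → G, ev f w.toWord = 1 := by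
    intro f
    rw [ev_eq_lift, FreeGroup.mk_toWord]
    exact hlaw f
  obtain ⟨G', _, L, h2, h3, h4, hL⟩ := exists_minLaw hG (fun h => hn (milnor_wolf hG h))
    (red_toWord w) (fun h => hw (FreeGroup.toWord_eq_nil_iff.1 h)) h1
  obtain ⟨H, _, h5, h6, h7, h8⟩ := exists_section h3 h4 hL
  exact ⟨H, inferInstance, h2.trans h5, h6, fun h => h7 h.vs, h8, L, hL.of_sec h5⟩

end Pool.Agent.H2Blocks
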