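import Pool.Agent.H2Blocks.Inf

/-!
# Nontrivial normal subgroups of a group all of whose proper quotients are virtually solvable
-/

set_option autoImplicit false

namespace Pool.Agent.H2Blocks

open Pool.Agent.H2SlowRed Pool.Agent.FullLaws Pool.Agent.Tracks

/-- a subgroup normalized by the whole group is normal -/
theorem N1_normal_of_Nm {G : Type} [Group G] {A : Subgroup G} (h : ∀ g : G, g ∈ Nm A) :
    A.Normal := ⟨fun _ hx g => Nm_conj (h g) hx⟩

/-- package N1: nontrivial normal subgroups of a group all of whose proper quotients are virtually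
solvable are not virtually solvable -/
theorem JS.normal_not_vs {G : Type} [Group G] (h : JS G) {N : Subgroup G} (hN : N.Normal)
    (hN0 : N ≠ ⊥) : ¬ VSm (⊥ : Subgroup N) := by
  rintro ⟨P, hP, n, hn⟩
  by_cases hfinN : (N : Set G).Finite
  · exact h.not_vs (VSm.of_finite hN hfinN (h.vs N hN hN0))
  have hinf : Infinite N := Set.infinite_coe_iff.2 hfinN
  have hfg : N.FG := h.fg hN
  obtain ⟨S, hS, hfin⟩ := Group.fg_iff.1 ((Group.fg_iff_subgroup_fg N).2 hfg)
  obtain ⟨S, rfl⟩ := hfin.exists_finset_coe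
  obtain ⟨V₀, hV₀⟩ : ∃ V₀ : Subgroup N, V₀ = ⨅ x : {U' : Subgroup N //
      U'.FiniteIndex ∧ U'.index ≤ P.index}, x.1 := ⟨_, rfl⟩
  have h1 : V₀.FiniteIndex := by
    rw [hV₀]
    exact finiteIndex_iInf_of_le hS _ fun x => x.2
  have h2 : V₀.Characteristic := by
    refine Subgroup.characteristic_iff_le_comap.2 fun ϕ x hx => ?_
    rw [Subgroup.mem_comap, hV₀, Subgroup.mem_iInf]
    rintro ⟨U', h3, h4⟩
    rw [hV₀, Subgroup.mem_iInf] at hx
    have h5 : (U'.comap ϕ.toMonoidHom).index = U'.index :=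
      Subgroup.index_comap_of_surjective _ ϕ.surjective
    exact hx ⟨U'.comap ϕ.toMonoidHom, ⟨by rw [h5]; exact h3.index_ne_zero⟩, by rwa [h5]⟩
  have h3 : V₀ ≤ P := by
    rw [hV₀]
    exact iInf_le (fun x : {U' : Subgroup N // U'.FiniteIndex ∧ U'.index ≤ P.index} => x.1)
      ⟨P, hP, le_rfl⟩
  have h4 : ds V₀ n = ⊥ := le_bot_iff.1 ((ds_mono h3 n).trans hn)
  have h5 : ds V₀ 0 ≠ ⊥ := by
    intro h0
    have h6 : V₀ = ⊥ := h0
    rw [h6] at h1
    have h7 := h1.index_ne_zero
    rw [Subgroup.index_bot] at h7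
    exact not_finite_iff_infinite.2 hinf (Nat.finite_of_card_ne_zero h7)
  obtain ⟨j, hj1, hj2⟩ : ∃ j, ds V₀ j ≠ ⊥ ∧ ds V₀ (j + 1) = ⊥ := by
    by_contra hcon
    push Not at hcon
    have h6 : ∀ j, ds V₀ j ≠ ⊥ := by
      intro j
      induction j with
      | zero => exact h5
      | succ j ih => exact hcon j ih
    exact h6 n h4
  have hA : ((ds V₀ j).map N.subtype).Normal := by
    refine N1_normal_of_Nm fun g => nm_le_of_char (ds_char h2 j) ?_
    refine mem_Nm_of (fun x hx => hN.conj_mem x hx g) fun x hx => ?_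
    have := hN.conj_mem x hx g⁻¹
    rwa [inv_inv] at this
  have hA0 : (ds V₀ j).map N.subtype ≠ ⊥ := by
    intro h0
    rw [Subgroup.map_eq_bot_iff_of_injective _ (Subgroup.subtype_injective N)] at h0
    exact hj1 h0
  refine h.comm hA hA0 hA hA0 ?_
  rw [← Subgroup.map_commutator]
  show (ds V₀ (j + 1)).map N.subtype = ⊥
  rw [hj2, Subgroup.map_bot]

end Pool.Agent.H2Blocks
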