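import Pool.Agent.H2Blocks.JS
import Mathlib.GroupTheory.FiniteAbelian.Basic
import Mathlib.GroupTheory.Abelianization.Defs

/-!
# Infinite virtually solvable groups of subexponential growth map virtually onto the integers
-/

set_option autoImplicit false

namespace Pool.Agent.H2Blocks

open Pool.Agent.H2SlowRed

theorem ab_onto {A : Type} [CommGroup A] [hfg : Group.FG A] (hinf : Infinite A) :
    ∃ φ : A →* Multiplicative ℤ, Function.Surjective φ := by
  have h1 : AddGroup.FG (Additive A) := inferInstance
  obtain ⟨n, ι, _, p, hp, e, ⟨f⟩⟩ := AddCommGroup.equiv_free_prod_directSum_zmod (Additive A)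
  have hn : n ≠ 0 := by
    rintro rfl
    have : ∀ i, NeZero (p i ^ e i) := fun i => ⟨pow_ne_zero _ (hp i).ne_zero⟩
    have h2 : Finite (DirectSum ι fun i => ZMod (p i ^ e i)) := by
      classical
      exact Finite.of_equiv _ (DirectSum.addEquivProd fun i => ZMod (p i ^ e i)).symm.toEquiv
    have h3 : Finite ((Fin 0 →₀ ℤ) × DirectSum ι fun i => ZMod (p i ^ e i)) := inferInstance
    have h4 : Finite (Additive A) := Finite.of_equiv _ f.symm.toEquiv
    exact not_finite_iff_infinite.2 hinf (Finite.of_equiv _ (Additive.toMul (α := A)))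
  obtain ⟨i⟩ : Nonempty (Fin n) := ⟨⟨0, Nat.pos_of_ne_zero hn⟩⟩
  obtain ⟨g, hg⟩ : ∃ g : Additive A →+ ℤ, Function.Surjective g := by
    refine ⟨(Finsupp.applyAddHom i).comp ((AddMonoidHom.fst _ _).comp f.toAddMonoidHom), ?_⟩
    intro z
    obtain ⟨a, ha⟩ := f.surjective (Finsupp.single i z, 0)
    refine ⟨a, ?_⟩
    show (f a).1 i = z
    rw [ha]
    simp
  exact ⟨g.toMultiplicativeRight, fun z => by
    obtain ⟨a, ha⟩ := hg z.toAdd
    exact ⟨a.toMul, ha⟩⟩

theorem vs_indicable {Q : Type} [Group Q] (hQ : SubG Q) (hv : VSm (⊥ : Subgroup Q))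
    (hinf : Infinite Q) : ∃ D : Subgroup Q, D.FiniteIndex ∧
      ∃ φ : D →* Multiplicative ℤ, Function.Surjective φ := by
  obtain ⟨P, hP, n, hn⟩ := hv
  obtain ⟨j, hj1, hj2⟩ : ∃ j, (ds P j).FiniteIndex ∧ ¬ (ds P (j + 1)).FiniteIndex := by
    by_contra hcon
    push Not at hcon
    have h6 : ∀ j, (ds P j).FiniteIndex := by
      intro j
      induction j with
      | zero => exact hP
      | succ j ih => exact hcon j ih
    have h7 := h6 n
    rw [le_bot_iff.1 hn] at h7
    have h8 := h7.index_ne_zero
    rw [Subgroup.index_bot] at h8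
    exact not_finite_iff_infinite.2 hinf (Nat.finite_of_card_ne_zero h8)
  have : Group.FG Q := hQ.fg
  have hD : Group.FG (ds P j) := inferInstance
  have hA : Group.FG (Abelianization (ds P j)) :=
    Group.fg_of_surjective (f := Abelianization.of) (QuotientGroup.mk_surjective)
  have hAinf : Infinite (Abelianization (ds P j)) := by
    by_contra hfin
    rw [not_infinite_iff_finite] at hfin
    refine hj2 ?_
    have h1 : (commutator (ds P j)).FiniteIndex := by
      have h2 : Finite (ds P j ⧸ commutator (ds P j)) := hfin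
      exact Subgroup.finiteIndex_of_finite_quotient
    have h2 : (commutator (ds P j)).map (ds P j).subtype = ds P (j + 1) := by
      rw [commutator_def, Subgroup.map_commutator, ← MonoidHom.range_eq_map, Subgroup.range_subtype]
      rfl
    rw [← h2]
    refine ⟨?_⟩
    rw [Subgroup.index_map_subtype]
    exact mul_ne_zero h1.index_ne_zero hj1.index_ne_zero
  obtain ⟨φ, hφ⟩ := ab_onto hAinf
  exact ⟨ds P j, hj1, φ.comp Abelianization.of, hφ.comp QuotientGroup.mk_surjective⟩

end Pool.Agent.H2Blocks
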