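import Pool.Agent.H2SlowRed.Final

/-!
# Groups of subexponential growth all of whose proper quotients are virtually solvable: blocks
-/

set_option autoImplicit false

namespace Pool.Agent.H2Blocks

open Pool.Agent.H2SlowRed

/-- of subexponential growth, not virtually solvable, but every proper quotient is -/
structure JS (Q : Type) [Group Q] : Prop where
  sub : SubG Q
  not_vs : ¬ VSm (⊥ : Subgroup Q)
  vs : ∀ X : Subgroup Q, X.Normal → X ≠ ⊥ → VSm X

variable {G : Type} [Group G]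

theorem JS.fg (h : JS G) {X : Subgroup G} (hX : X.Normal) : X.FG := by
  by_cases h0 : X = ⊥
  · rw [h0]
    exact Subgroup.FG.bot
  · exact (h.vs X hX h0).fg h.sub hX

theorem JS.comm (h : JS G) {X Y : Subgroup G} (hX : X.Normal) (hX0 : X ≠ ⊥) (hY : Y.Normal)
    (hY0 : Y ≠ ⊥) : ⁅X, Y⁆ ≠ ⊥ := by
  intro h0
  obtain ⟨P, hP, n, hn⟩ := h.vs X hX hX0
  obtain ⟨P', hP', n', hn'⟩ := h.vs Y hY hY0
  have key : ∀ (A : Subgroup G) (m n : ℕ), m ≤ n → ds A n ≤ ds A m := by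
    intro A m n hmn
    induction n, hmn using Nat.le_induction with
    | base => exact le_rfl
    | succ n _ ih => exact (ds_succ_le A n).trans ih
  refine h.not_vs ⟨P ⊓ P', inferInstance, max n n' + 1, ?_⟩
  rw [← h0]
  exact Subgroup.commutator_mono
    ((key _ _ _ (le_max_left n n')).trans ((ds_mono inf_le_left n).trans hn))
    ((key _ _ _ (le_max_right n n')).trans ((ds_mono inf_le_right n').trans hn'))

/-- the centralizer -/
def Cz (B : Subgroup G) : Subgroup G := Subgroup.centralizer (B : Set G)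

theorem mem_Cz {B : Subgroup G} {g : G} : g ∈ Cz B ↔ ∀ x ∈ B, g * x = x * g := by
  rw [Cz, Subgroup.mem_centralizer_iff]
  exact ⟨fun h x hx => (h x hx).symm, fun h x hx => (h x hx).symm⟩

theorem Cz_anti {A B : Subgroup G} (h : A ≤ B) : Cz B ≤ Cz A := fun _ hg =>
  mem_Cz.2 fun x hx => mem_Cz.1 hg x (h hx)

/-- the normalizer -/
def Nm (B : Subgroup G) : Subgroup G := Subgroup.normalizer (B : Set G)

theorem mem_Nm {B : Subgroup G} {g : G} : g ∈ Nm B ↔ ∀ x, x ∈ B ↔ g * x * g⁻¹ ∈ B :=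
  Subgroup.mem_normalizer_iff

theorem mem_Nm_of {B : Subgroup G} {g : G} (h : ∀ x ∈ B, g * x * g⁻¹ ∈ B)
    (h' : ∀ x ∈ B, g⁻¹ * x * g ∈ B) : g ∈ Nm B := by
  rw [mem_Nm]
  refine fun x => ⟨h x, fun hx => ?_⟩
  have h1 := h' _ hx
  rwa [show g⁻¹ * (g * x * g⁻¹) * g = x by group] at h1

theorem Nm_conj {B : Subgroup G} {g x : G} (hg : g ∈ Nm B) (hx : x ∈ B) : g * x * g⁻¹ ∈ B :=
  (mem_Nm.1 hg x).1 hx

theorem Nm_conj' {B : Subgroup G} {g x : G} (hg : g ∈ Nm B) (hx : x ∈ B) : g⁻¹ * x * g ∈ B := by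
  have h1 := Nm_conj (inv_mem hg) hx
  rwa [inv_inv] at h1

theorem le_Nm (B : Subgroup G) : B ≤ Nm B := fun _ hg =>
  mem_Nm_of (fun _ hx => mul_mem (mul_mem hg hx) (inv_mem hg))
    fun _ hx => mul_mem (mul_mem (inv_mem hg) hx) hg

theorem Cz_le_Nm (B : Subgroup G) : Cz B ≤ Nm B := by
  intro g hg
  rw [mem_Cz] at hg
  refine mem_Nm_of (fun x hx => ?_) fun x hx => ?_
  · rwa [hg x hx, mul_inv_cancel_right]
  · rwa [mul_assoc, ← hg x hx, inv_mul_cancel_left]

theorem JS.cz (h : JS G) {X : Subgroup G} (hX : X.Normal) (hX0 : X ≠ ⊥) : Cz X = ⊥ := by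
  by_contra h0
  have hn : (Cz X).Normal := by
    rw [Cz]
    infer_instance
  refine h.comm hX hX0 hn h0 (le_bot_iff.1 (Subgroup.commutator_le.2 fun a ha b hb => ?_))
  rw [Subgroup.mem_bot]
  show a * b * a⁻¹ * b⁻¹ = 1
  rw [← mem_Cz.1 hb a ha, mul_inv_cancel_right, mul_inv_cancel]

/-- blocks: every conjugate is equal to `B` or commutes with `B` -/
structure Block (B : Subgroup G) : Prop where
  ne : B ≠ ⊥
  fin : (Nm B).FiniteIndex
  alt : ∀ g : G, g ∈ Nm B ∨ ∀ x ∈ B, g * x * g⁻¹ ∈ Cz B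

theorem Block.top (h : JS G) : Block (⊤ : Subgroup G) := by
  have h1 : Nm (⊤ : Subgroup G) = ⊤ := top_le_iff.1 (le_Nm ⊤)
  refine ⟨fun h0 => h.not_vs ⟨⊤, inferInstance, 0, ?_⟩, ?_, fun g => Or.inl ?_⟩
  · exact h0.le
  · rw [h1]
    infer_instance
  · rw [h1]
    exact Subgroup.mem_top g

theorem Block.sub {B A : Subgroup G} (hB : Block B) (hAB : A ≤ B) (hA : A ≠ ⊥)
    (hN : Nm B ≤ Nm A) : Block A := by
  have h1 := hB.fin
  refine ⟨hA, Subgroup.finiteIndex_of_le hN, fun g => ?_⟩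
  rcases hB.alt g with h | h
  · exact Or.inl (hN h)
  · exact Or.inr fun x hx => Cz_anti hAB (h x (hAB hx))

/-- blocks are not abelian -/
theorem Block.not_comm {B : Subgroup G} (h : JS G) (hB : Block B)
    (hc : ∀ x ∈ B, ∀ y ∈ B, x * y = y * x) : False := by
  have hne : Subgroup.normalClosure (B : Set G) ≠ ⊥ := by
    intro h0
    refine hB.ne (le_bot_iff.1 ?_)
    rw [← h0]
    exact Subgroup.subset_normalClosure
  have h1 : ∀ x ∈ Group.conjugatesOfSet (B : Set G), ∀ y ∈ Group.conjugatesOfSet (B : Set G),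
      x * y = y * x := by
    intro x hx y hy
    obtain ⟨a, ha, ha'⟩ := Group.mem_conjugatesOfSet_iff.1 hx
    obtain ⟨b, hb, hb'⟩ := Group.mem_conjugatesOfSet_iff.1 hy
    obtain ⟨g, rfl⟩ := isConj_iff.1 ha'
    obtain ⟨k, rfl⟩ := isConj_iff.1 hb'
    have h2 : ((k⁻¹ * g) * a * (k⁻¹ * g)⁻¹) * b = b * ((k⁻¹ * g) * a * (k⁻¹ * g)⁻¹) := by
      rcases hB.alt (k⁻¹ * g) with h3 | h3
      · exact hc _ (Nm_conj h3 ha) b hb
      · exact mem_Cz.1 (h3 a ha) b hb
    calc g * a * g⁻¹ * (k * b * k⁻¹)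
        = k * (((k⁻¹ * g) * a * (k⁻¹ * g)⁻¹) * b) * k⁻¹ := by group
      _ = k * (b * ((k⁻¹ * g) * a * (k⁻¹ * g)⁻¹)) * k⁻¹ := by rw [h2]
      _ = _ := by group
  have h2 : Subgroup.normalClosure (B : Set G) ≤ Cz (Subgroup.normalClosure (B : Set G)) := by
    have h3 : Group.conjugatesOfSet (B : Set G) ⊆
        (Subgroup.centralizer (Group.conjugatesOfSet (B : Set G)) : Subgroup G) := by
      intro x hx
      rw [SetLike.mem_coe, Subgroup.mem_centralizer_iff]
      exact fun y hy => h1 y hy x hx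
    have h4 : Subgroup.normalClosure (B : Set G) ≤
        Subgroup.centralizer (Group.conjugatesOfSet (B : Set G)) := (Subgroup.closure_le _).2 h3
    refine (Subgroup.closure_le _).2 fun x hx => ?_
    rw [SetLike.mem_coe, mem_Cz]
    intro y hy
    exact Subgroup.mem_centralizer_iff.1 (h4 hy) x hx
  rw [h.cz Subgroup.normalClosure_normal hne] at h2
  exact hne (le_bot_iff.1 h2)

/-- the centre of a block is trivial -/
theorem Block.center {B : Subgroup G} (h : JS G) (hB : Block B) {z : G} (hz : z ∈ B)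
    (hc : z ∈ Cz B) : z = 1 := by
  by_contra hz1
  have h1 : Block (B ⊓ Cz B) := by
    refine hB.sub inf_le_left (fun h0 => hz1 ?_) fun g hg => ?_
    · have h2 : z ∈ B ⊓ Cz B := Subgroup.mem_inf.2 ⟨hz, hc⟩
      rw [h0] at h2
      exact Subgroup.mem_bot.1 h2
    · have key : ∀ g ∈ Nm B, ∀ x ∈ B ⊓ Cz B, g * x * g⁻¹ ∈ B ⊓ Cz B := by
        intro g hg x hx
        obtain ⟨h2, h3⟩ := Subgroup.mem_inf.1 hx
        refine Subgroup.mem_inf.2 ⟨Nm_conj hg h2, mem_Cz.2 fun y hy => ?_⟩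
        have h4 := mem_Cz.1 h3 _ (Nm_conj' hg hy)
        calc g * x * g⁻¹ * y = g * (x * (g⁻¹ * y * g)) * g⁻¹ := by group
          _ = g * ((g⁻¹ * y * g) * x) * g⁻¹ := by rw [h4]
          _ = _ := by group
      refine mem_Nm_of (key g hg) fun x hx => ?_
      have h2 := key g⁻¹ (inv_mem hg) x hx
      rwa [inv_inv] at h2
  exact h1.not_comm h fun x hx y hy =>
    mem_Cz.1 (Subgroup.mem_inf.1 hx).2 y (Subgroup.mem_inf.1 hy).1

theorem Block.nm_le {B C : Subgroup G} (h : JS G) (hB : Block B) (hC : Block C) (hCB : C ≤ B) :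
    Nm C ≤ Nm B := by
  intro g hg
  rcases hB.alt g with h1 | h1
  · exact h1
  · refine absurd ?_ hC.ne
    refine le_bot_iff.1 fun c hc => Subgroup.mem_bot.2 ?_
    have h2 := h1 _ (hCB (Nm_conj' hg hc))
    rw [show g * (g⁻¹ * c * g) * g⁻¹ = c by group] at h2
    exact hB.center h (hCB hc) h2

/-- the group `B₀ * C(B)` -/
def MC (B₀ B : Subgroup G) (hle : B₀ ≤ B) : Subgroup G where
  carrier := {g | ∃ b ∈ B₀, ∃ c ∈ Cz B, g = b * c}
  one_mem' := ⟨1, one_mem _, 1, one_mem _, (one_mul 1).symm⟩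
  mul_mem' := by
    rintro _ _ ⟨b, hb, c, hc, rfl⟩ ⟨b', hb', c', hc', rfl⟩
    refine ⟨b * b', mul_mem hb hb', c * c', mul_mem hc hc', ?_⟩
    have h1 := mem_Cz.1 hc b' (hle hb')
    calc b * c * (b' * c') = b * (c * b') * c' := by group
      _ = b * (b' * c) * c' := by rw [h1]
      _ = _ := by group
  inv_mem' := by
    rintro _ ⟨b, hb, c, hc, rfl⟩
    refine ⟨b⁻¹, inv_mem hb, c⁻¹, inv_mem hc, ?_⟩
    have h1 := mem_Cz.1 (inv_mem hc) b⁻¹ (inv_mem (hle hb))
    rw [mul_inv_rev, h1]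

theorem mem_MC {B₀ B : Subgroup G} {hle : B₀ ≤ B} {g : G} :
    g ∈ MC B₀ B hle ↔ ∃ b ∈ B₀, ∃ c ∈ Cz B, g = b * c := Iff.rfl

/-- the normal closure of a block below `B`, invariant under the normalizer of `B` -/
theorem closure_le_MC {B Y : Subgroup G} (hB : Block B) (hY : Y ≤ B) (hN : Nm B ≤ Nm Y) :
    Subgroup.normalClosure (Y : Set G) ≤ MC Y B hY := by
  refine (Subgroup.closure_le _).2 fun x hx => ?_
  obtain ⟨a, ha, ha'⟩ := Group.mem_conjugatesOfSet_iff.1 hx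
  obtain ⟨g, rfl⟩ := isConj_iff.1 ha'
  rcases hB.alt g with h1 | h1
  · exact ⟨g * a * g⁻¹, Nm_conj (hN h1) ha, 1, one_mem _, (mul_one _).symm⟩
  · exact ⟨1, one_mem _, g * a * g⁻¹, h1 a (hY ha), (one_mul _).symm⟩

/-- blocks are finitely generated -/
theorem Block.fg {B : Subgroup G} (h : JS G) (hB : Block B) : B.FG := by
  have h1 : (Subgroup.normalClosure (B : Set G)).FG := h.fg Subgroup.normalClosure_normal
  obtain ⟨T, hT, hfin⟩ := (Subgroup.fg_iff _).1 h1
  have h2 : ∀ t : T, ∃ b ∈ B, ∃ c ∈ Cz B, (t : G) = b * c := by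
    intro t
    refine closure_le_MC hB le_rfl le_rfl ?_
    rw [← hT]
    exact Subgroup.subset_closure t.2
  choose β hβ γ hγ hβγ using h2
  have hle : Subgroup.closure (Set.range β) ≤ B := by
    rw [Subgroup.closure_le]
    rintro _ ⟨t, rfl⟩
    exact hβ t
  have h3 : Subgroup.closure T ≤ MC (Subgroup.closure (Set.range β)) B hle := by
    rw [Subgroup.closure_le]
    intro t ht
    exact ⟨β ⟨t, ht⟩, Subgroup.subset_closure ⟨_, rfl⟩, γ ⟨t, ht⟩, hγ _, hβγ ⟨t, ht⟩⟩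
  rw [hT] at h3
  have h4 : B = Subgroup.closure (Set.range β) := by
    refine le_antisymm (fun x hx => ?_) hle
    obtain ⟨b, hb, c, hc, hbc⟩ := h3 (Subgroup.subset_normalClosure hx)
    have h5 : c ∈ B := by
      have h6 : c = b⁻¹ * x := by rw [hbc, inv_mul_cancel_left]
      rw [h6]
      exact mul_mem (inv_mem (hle hb)) hx
    rw [hB.center h h5 hc, mul_one] at hbc
    rwa [hbc]
  have : Finite T := hfin
  exact (Subgroup.fg_iff _).2 ⟨Set.range β, h4.symm, Set.finite_range β⟩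

theorem Block.subG {B : Subgroup G} (h : JS G) (hB : Block B) : SubG B := h.sub.sub (hB.fg h)

end Pool.Agent.H2Blocks
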