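import Pool.Agent.H2Blocks.L_h33
import Pool.Agent.H2Blocks.JS

/-!
# Conjugates which are distinct modulo a subgroup: a word with more variables modulo the subgroup
-/

set_option autoImplicit false

namespace Pool.Agent.H2Blocks

variable {G : Type} [Group G]

/-- the product of the displaced elements -/
theorem Q33_block {K X D : Subgroup G} {t : G} {l : ℤ} (ht : t ∈ Nm K) (hKX : K ≤ Nm X)
    (hDK : D ≤ K)
    (hDX : ∀ i : ℤ, i ≠ 0 → |i| ≤ 2 * l → ∀ x ∈ D, t ^ i * x * (t ^ i)⁻¹ ∈ X)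
    (b : ℤ → G) (hb : ∀ q, b q ∈ D) (S : Finset ℤ) (hS : ∀ q ∈ S, |q| ≤ l) :
    ∃ P ∈ K, (∀ q ∈ S, (t ^ q)⁻¹ * P * t ^ q * (b q)⁻¹ ∈ X) ∧
      ∀ q, |q| ≤ l → q ∉ S → (t ^ q)⁻¹ * P * t ^ q ∈ X := by
  induction S using Finset.induction_on with
  | empty => exact ⟨1, K.one_mem, by simp, by simp [X.one_mem]⟩
  | insert r S hr ih =>
    obtain ⟨P, hP, h1, h2⟩ := ih fun q hq => hS q (Finset.mem_insert_of_mem hq)
    have hrl := hS r (Finset.mem_insert_self r S)
    have h3 : ∀ q, |q| ≤ l → q ≠ r → (t ^ q)⁻¹ * (t ^ r * b r * (t ^ r)⁻¹) * t ^ q ∈ X := by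
      intro q hq hqr
      have h4 := hDX (r - q) (sub_ne_zero.2 (Ne.symm hqr))
        ((abs_sub _ _).trans (by linarith)) (b r) (hb r)
      have h5 : (t ^ q)⁻¹ * (t ^ r * b r * (t ^ r)⁻¹) * t ^ q =
          t ^ (r - q) * b r * (t ^ (r - q))⁻¹ := by
        rw [sub_eq_add_neg, add_comm, zpow_add, zpow_neg]
        group
      rwa [h5]
    have hsplit : ∀ q : ℤ, (t ^ q)⁻¹ * (t ^ r * b r * (t ^ r)⁻¹ * P) * t ^ q =
        ((t ^ q)⁻¹ * (t ^ r * b r * (t ^ r)⁻¹) * t ^ q) * ((t ^ q)⁻¹ * P * t ^ q) := by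
      intro q
      group
    refine ⟨t ^ r * b r * (t ^ r)⁻¹ * P, K.mul_mem ?_ hP, ?_, ?_⟩
    · exact Nm_conj ((Nm K).zpow_mem ht r) (hDK (hb r))
    · intro q hq
      rw [hsplit]
      rcases Finset.mem_insert.1 hq with rfl | hq
      · have h6 := Nm_conj (hKX (hDK (hb q))) (h2 q hrl hr)
        have h7 : (t ^ q)⁻¹ * (t ^ q * b q * (t ^ q)⁻¹) * t ^ q * ((t ^ q)⁻¹ * P * t ^ q) *
            (b q)⁻¹ = b q * ((t ^ q)⁻¹ * P * t ^ q) * (b q)⁻¹ := by group
        rwa [h7]
      · have hqr : q ≠ r := fun he => hr (he ▸ hq)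
        rw [mul_assoc]
        exact X.mul_mem (h3 q (hS q (Finset.mem_insert_of_mem hq)) hqr) (h1 q hq)
    · intro q hql hq
      rw [Finset.mem_insert, not_or] at hq
      rw [hsplit]
      exact X.mul_mem (h3 q hql hq.1) (h2 q hql hq.2)

/-- congruence modulo `X` is compatible with products -/
theorem Q33_mul {K X : Subgroup G} (hKX : K ≤ Nm X) {g k g' k' : G} (hg : g ∈ K)
    (h : g * k⁻¹ ∈ X) (h' : g' * k'⁻¹ ∈ X) : g * g' * (k * k')⁻¹ ∈ X := by
  have h1 := X.mul_mem (Nm_conj (hKX hg) h') h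
  have h2 : g * g' * (k * k')⁻¹ = g * (g' * k'⁻¹) * g⁻¹ * (g * k⁻¹) := by group
  rwa [h2]

theorem Q33_inv {K X : Subgroup G} (hKX : K ≤ Nm X) {g k : G} (hg : g ∈ K)
    (h : g * k⁻¹ ∈ X) : g⁻¹ * (k⁻¹)⁻¹ ∈ X := by
  have h1 := Nm_conj' (hKX hg) (X.inv_mem h)
  have h2 : g⁻¹ * (k⁻¹)⁻¹ = g⁻¹ * (g * k⁻¹)⁻¹ * g := by group
  rwa [h2]

/-- the value of a word modulo `X` -/
theorem Q33_act {K X : Subgroup G} {t : G} {l : ℤ} (ht : t ∈ Nm K) (hKX : K ≤ Nm X)
    {a : ℕ → ℤ} (ha : ∀ i, |a i| ≤ 1) {P : ℕ → G} {f : ℕ → G} (hPK : ∀ i, P i ∈ K)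
    (hP : ∀ i, ∀ q : ℤ, |q| ≤ l → (t ^ q)⁻¹ * P i * t ^ q * (f (Encodable.encode (i, q)))⁻¹ ∈ X)
    (L : List (ℕ × Bool)) (hL : (L.length : ℤ) ≤ l) :
    (t ^ L33_ht a L)⁻¹ * ev (fun i => t ^ a i * P i) L ∈ K ∧
      (t ^ L33_ht a L)⁻¹ * ev (fun i => t ^ a i * P i) L * (ev f (L33_tr a L))⁻¹ ∈ X := by
  induction L with
  | nil => simp [ev, L33_ht, L33_tr, K.one_mem, X.one_mem]
  | cons c L ih =>
    have hL' : (L.length : ℤ) + 1 ≤ l := by
      simpa [List.length_cons] using hL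
    obtain ⟨h1, h1'⟩ := ih (by linarith)
    have hq := L33_ht_abs ha L
    obtain ⟨u, hu⟩ : ∃ u : G, u = (t ^ L33_ht a L)⁻¹ * ev (fun i => t ^ a i * P i) L := ⟨_, rfl⟩
    rw [← hu] at h1 h1'
    have hev : ev (fun i => t ^ a i * P i) L = t ^ L33_ht a L * u := by
      rw [hu]
      group
    rcases c with ⟨i, _ | _⟩
    · have h2 : ev (fun i => t ^ a i * P i) ((i, false) :: L) =
          (t ^ a i * P i)⁻¹ * ev (fun i => t ^ a i * P i) L := by simp [ev]
      have h3 : ev f (L33_tr a ((i, false) :: L)) =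
          (f (Encodable.encode (i, L33_ht a L - a i)))⁻¹ * ev f (L33_tr a L) := by
        simp [ev, L33_tr, L33_pos]
      have h4 : L33_ht a ((i, false) :: L) = L33_ht a L - a i := rfl
      have h5 : |L33_ht a L - a i| ≤ l := (abs_sub _ _).trans (by linarith [ha i])
      have h6 := hP i _ h5
      have h7 : (t ^ (L33_ht a L - a i))⁻¹ * P i * t ^ (L33_ht a L - a i) ∈ K :=
        Nm_conj' ((Nm K).zpow_mem ht _) (hPK i)
      have h8 : (t ^ L33_ht a ((i, false) :: L))⁻¹ *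
          ev (fun i => t ^ a i * P i) ((i, false) :: L) =
            ((t ^ (L33_ht a L - a i))⁻¹ * P i * t ^ (L33_ht a L - a i))⁻¹ * u := by
        rw [h2, h4, hev]
        have h9 : t ^ L33_ht a L = t ^ a i * t ^ (L33_ht a L - a i) := by
          rw [← zpow_add]
          congr 1
          ring
        rw [h9]
        group
      rw [h8, h3]
      exact ⟨K.mul_mem (K.inv_mem h7) h1, Q33_mul hKX (K.inv_mem h7) (Q33_inv hKX h7 h6) h1'⟩
    · have h2 : ev (fun i => t ^ a i * P i) ((i, true) :: L) =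
          (t ^ a i * P i) * ev (fun i => t ^ a i * P i) L := by simp [ev]
      have h3 : ev f (L33_tr a ((i, true) :: L)) =
          f (Encodable.encode (i, L33_ht a L)) * ev f (L33_tr a L) := by
        simp [ev, L33_tr, L33_pos]
      have h4 : L33_ht a ((i, true) :: L) = L33_ht a L + a i := rfl
      have h5 : |L33_ht a L| ≤ l := by linarith
      have h6 := hP i _ h5
      have h7 : (t ^ L33_ht a L)⁻¹ * P i * t ^ L33_ht a L ∈ K :=
        Nm_conj' ((Nm K).zpow_mem ht _) (hPK i)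
      have h8 : (t ^ L33_ht a ((i, true) :: L))⁻¹ *
          ev (fun i => t ^ a i * P i) ((i, true) :: L) =
            ((t ^ L33_ht a L)⁻¹ * P i * t ^ L33_ht a L) * u := by
        rw [h2, h4, hev, add_comm, zpow_add]
        group
      rw [h8, h3]
      exact ⟨K.mul_mem h7 h1, Q33_mul hKX h7 h6 h1'⟩

/-- the heights which give more variables -/
theorem Q33_heights {L : List (ℕ × Bool)} (hred : Red L) (hrep : ¬ (L.map Prod.fst).Nodup) :
    ∃ a : ℕ → ℤ, (∀ j, |a j| ≤ 1) ∧ (vars L).card < (vars (L33_tr a L)).card := by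
  obtain ⟨u, i, e, s, e', v, hL, hs, hi⟩ := L33_split hrep
  suffices hsuf : ∃ a : ℕ → ℤ, (∀ j, |a j| ≤ 1) ∧
      L33_pos a (i, e) (s ++ (i, e') :: v) ≠ L33_pos a (i, e') v by
    obtain ⟨a, ha, hp⟩ := hsuf
    exact ⟨a, ha, L33_card hL hp⟩
  by_cases hee : e = e'
  · subst hee
    refine ⟨fun j => if j = i then 1 else 0, fun j => by
      show |if j = i then (1 : ℤ) else 0| ≤ 1
      split_ifs <;> simp, ?_⟩
    have h1 : L33_ht (fun j => if j = i then 1 else 0) s = 0 :=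
      L33_ht_zero fun x hx => if_neg (hi x hx)
    rcases e with _ | _
    · simp only [L33_pos, L33_ht_append, h1, L33_ht, cond_false, if_true]
      omega
    · simp only [L33_pos, L33_ht_append, h1, L33_ht, cond_true, if_true]
      omega
  · cases s with
    | nil =>
      exfalso
      rw [List.nil_append] at hL
      rw [hL] at hred
      exact hee (L33_red_append hred rfl)
    | cons c s =>
      have hci : c.1 ≠ i := hi c List.mem_cons_self
      have hcs : c.1 ∉ s.map Prod.fst := (List.nodup_cons.1 hs).1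
      obtain ⟨a, ha⟩ : ∃ a : ℕ → ℤ, a = fun j => if j = c.1 then 1 else 0 := ⟨_, rfl⟩
      have ha0 : a i = 0 := by
        rw [ha]
        exact if_neg fun he => hci he.symm
      have ha1 : a c.1 = 1 := by
        rw [ha]
        exact if_pos rfl
      refine ⟨a, fun j => by
        rw [ha]
        show |if j = c.1 then (1 : ℤ) else 0| ≤ 1
        split_ifs <;> simp, ?_⟩
      have h1 : L33_ht a s = 0 := by
        refine L33_ht_zero fun x hx => ?_
        rw [ha]
        refine if_neg fun he => hcs ?_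
        rw [← he]
        exact List.mem_map_of_mem hx
      have h2 : ∀ (e : Bool) (M : List (ℕ × Bool)), L33_pos a (i, e) M = L33_ht a M := by
        intro e M
        cases e
        · show L33_ht a M - a i = L33_ht a M
          rw [ha0, sub_zero]
        · rfl
      have h3 : L33_ht a ((i, e') :: v) = L33_ht a v := by
        cases e'
        · show L33_ht a v - a i = L33_ht a v
          rw [ha0, sub_zero]
        · show L33_ht a v + a i = L33_ht a v
          rw [ha0, add_zero]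
      have h4 : L33_ht a (c :: s) = 1 ∨ L33_ht a (c :: s) = -1 := by
        rcases c with ⟨j, ec⟩
        simp only at ha1
        cases ec
        · right
          show L33_ht a s - a j = -1
          rw [h1, ha1]
          norm_num
        · left
          show L33_ht a s + a j = 1
          rw [h1, ha1]
          norm_num
      rw [h2, h2, L33_ht_append, h3]
      rcases h4 with h4 | h4 <;> rw [h4] <;> omega

/-- package Q: `t` normalizes `K`, `X` is normal in `K`, and `D ≤ K` goes into `X` under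
conjugation by `t ^ i`, `0 < |i| ≤ 2 l`: then the elements of `D` satisfy modulo `X` a word with more
variables -/
theorem descent_quot {G : Type} [Group G] {K X D : Subgroup G} {t : G} {L : List (ℕ × Bool)}
    (hred : Red L) (hrep : ¬ (L.map Prod.fst).Nodup) (ht : t ∈ Nm K) (hXK : X ≤ K)
    (hKX : K ≤ Nm X) (hDK : D ≤ K)
    (hDX : ∀ i : ℤ, i ≠ 0 → |i| ≤ 2 * (L.length : ℤ) → ∀ x ∈ D, t ^ i * x * (t ^ i)⁻¹ ∈ X)
    (hQ : ∀ i : ℤ, i ≠ 0 → |i| ≤ 2 * (L.length : ℤ) → t ^ i ∉ Nm X)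
    (hlaw : ∀ f : ℕ → G, ev f L = 1) :
    ∃ L' : List (ℕ × Bool), Red L' ∧ L'.length = L.length ∧ (vars L).card < (vars L').card ∧
      ∀ f : ℕ → G, (∀ i, f i ∈ D) → ev f L' ∈ X := by
  obtain ⟨a, ha, hcard⟩ := Q33_heights hred hrep
  refine ⟨L33_tr a L, L33_red hred, L33_length a L, hcard, fun f hf => ?_⟩
  have hex : ∀ i : ℕ, ∃ P ∈ K, ∀ q : ℤ, |q| ≤ (L.length : ℤ) →
      (t ^ q)⁻¹ * P * t ^ q * (f (Encodable.encode (i, q)))⁻¹ ∈ X := by
    intro i
    obtain ⟨P, hP, h1, -⟩ := Q33_block (l := (L.length : ℤ)) ht hKX hDK hDX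
      (fun q => f (Encodable.encode (i, q))) (fun q => hf _)
      (Finset.Icc (-(L.length : ℤ)) L.length) (fun q hq => abs_le.2 (Finset.mem_Icc.1 hq))
    exact ⟨P, hP, fun q hq => h1 q (Finset.mem_Icc.2 (abs_le.1 hq))⟩
  choose P hPK hP using hex
  obtain ⟨h1, h2⟩ := Q33_act ht hKX ha hPK hP L le_rfl
  rw [hlaw, mul_one] at h1 h2
  have h3 : L33_ht a L = 0 := by
    by_contra hne
    refine hQ (L33_ht a L) hne ((L33_ht_abs ha L).trans
      (by linarith [Int.natCast_nonneg L.length])) ?_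
    have h4 := (Nm X).inv_mem (hKX h1)
    rwa [inv_inv] at h4
  rw [h3, zpow_zero, inv_one, one_mul] at h2
  have h5 := X.inv_mem h2
  rwa [inv_inv] at h5

end Pool.Agent.H2Blocks
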