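import Pool.Agent.H2Blocks.Disp
import Pool.Agent.H2Blocks.Q_h33
import Pool.Agent.H2Blocks.N1_h35
import Pool.Agent.H2Blocks.N2

/-!
# Passing to subgroups of finite index and to normal subgroups
-/

set_option autoImplicit false

namespace Pool.Agent.H2Blocks

open Pool.Agent.H2SlowRed Pool.Agent.FullLaws Pool.Agent.Tracks

/-- a residually finite group all of whose proper quotients are virtually solvable, with a law of
minimal complexity, in which the subgroups normalized by a subgroup of finite index contain normal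
subgroups -/
structure Good (H : Type) [Group H] (L : List (ℕ × Bool)) : Prop where
  js : JS H
  res : Res H = ⊥
  star : ∀ M X : Subgroup H, M.FiniteIndex → X ≠ ⊥ → (∀ k ∈ M, ∀ x ∈ X, k * x * k⁻¹ ∈ X) →
    ∃ Z : Subgroup H, Z.Normal ∧ Z ≠ ⊥ ∧ Z ≤ X
  min : MinLaw H L

theorem JS.of_equiv {H K : Type} [Group H] [Group K] (e : H ≃* K) (h : JS H) : JS K := by
  refine ⟨h.sub.map e.toMonoidHom e.surjective, fun h1 => h.not_vs ?_, fun X hX hX0 => ?_⟩
  · have h2 := h1.map e.symm.toMonoidHom e.symm.surjective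
    rwa [Subgroup.map_bot] at h2
  · have hsur : Function.Surjective e.toMonoidHom := e.surjective
    have h2 := (h.vs (X.comap e.toMonoidHom) inferInstance fun h0 => hX0 (by
      have h3 := congrArg (Subgroup.map e.toMonoidHom) h0
      rwa [Subgroup.map_comap_eq_self_of_surjective hsur, Subgroup.map_bot] at h3)).map
        e.toMonoidHom hsur
    rwa [Subgroup.map_comap_eq_self_of_surjective hsur] at h2

theorem res_of_inj {H K : Type} [Group H] [Group K] (f : K →* H) (hf : Function.Injective f)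
    (hr : Res H = ⊥) : Res K = ⊥ := by
  refine le_bot_iff.1 fun x hx => Subgroup.mem_bot.2 ?_
  by_contra hx1
  obtain ⟨N, hN1, hN2, hN3⟩ := exists_avoid hr (T := {f x}) (Set.finite_singleton _) (by
    intro h1
    rw [Set.mem_singleton_iff] at h1
    exact hx1 (hf (by rw [← h1, map_one])))
  have h1 : (N.comap f).FiniteIndex := by
    refine ⟨?_⟩
    rw [Subgroup.index_comap]
    have h2 : (N.subgroupOf f.range).FiniteIndex := inferInstance
    exact h2.index_ne_zero
  exact hN3 _ rfl ((Subgroup.mem_sInf.1 hx) (N.comap f) ⟨inferInstance, h1⟩)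

theorem Good.of_equiv {H K : Type} [Group H] [Group K] {L : List (ℕ × Bool)} (e : H ≃* K)
    (h : Good H L) : Good K L := by
  refine ⟨h.js.of_equiv e, res_of_inj e.symm.toMonoidHom e.symm.injective h.res, ?_,
    h.min.of_sec (Sec.of_surj (φ := e.toMonoidHom) e.surjective)⟩
  intro M X hM hX0 hX
  have hsur : Function.Surjective e.toMonoidHom := e.surjective
  obtain ⟨Z, h1, h2, h3⟩ := h.star (M.comap e.toMonoidHom) (X.comap e.toMonoidHom)
    (finiteIndex_comap hsur hM) (fun h0 => hX0 (by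
      have h3 := congrArg (Subgroup.map e.toMonoidHom) h0
      rwa [Subgroup.map_comap_eq_self_of_surjective hsur, Subgroup.map_bot] at h3)) (by
      intro k hk x hx
      rw [Subgroup.mem_comap] at hk hx ⊢
      rw [map_mul, map_mul, map_inv]
      exact hX _ hk _ hx)
  refine ⟨Z.map e.toMonoidHom, h1.map _ hsur, fun h0 => h2 ?_, ?_⟩
  · rwa [Subgroup.map_eq_bot_iff_of_injective _ e.injective] at h0
  · rw [Subgroup.map_le_iff_le_comap]
    exact h3

theorem Good.fin {H : Type} [Group H] {L : List (ℕ × Bool)} (h : Good H L) {M : Subgroup H}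
    (hM : M.FiniteIndex) : Good M L := by
  refine ⟨hered h.js h.star M hM, res_of_inj M.subtype (Subgroup.subtype_injective M) h.res, ?_,
    h.min.of_sec (Sec.of_sub M)⟩
  intro M' X hM' hX0 hX
  obtain ⟨Z, h1, h2, h3⟩ := h.star (M'.map M.subtype) (X.map M.subtype)
    ⟨by
      rw [Subgroup.index_map_subtype]
      exact mul_ne_zero hM'.index_ne_zero hM.index_ne_zero⟩
    (fun h0 => hX0 (by
      rwa [Subgroup.map_eq_bot_iff_of_injective _ (Subgroup.subtype_injective M)] at h0)) (by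
      rintro _ ⟨k, hk, rfl⟩ _ ⟨x, hx, rfl⟩
      exact ⟨k * x * k⁻¹, hX k hk x hx, rfl⟩)
  have h4 : ∀ z ∈ Z, ∃ hz : z ∈ M, (⟨z, hz⟩ : M) ∈ X := by
    intro z hz
    obtain ⟨⟨x, hx⟩, hxX, rfl⟩ := h3 hz
    exact ⟨hx, hxX⟩
  refine ⟨Z.subgroupOf M, inferInstance, fun h0 => h2 ?_, ?_⟩
  · refine le_bot_iff.1 fun z hz => Subgroup.mem_bot.2 ?_
    obtain ⟨h5, -⟩ := h4 z hz
    have h6 : (⟨z, h5⟩ : M) ∈ Z.subgroupOf M := hz
    rw [h0, Subgroup.mem_bot] at h6
    exact congrArg Subtype.val h6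
  · intro x hx
    obtain ⟨h5, h6⟩ := h4 x hx
    exact h6

theorem exists_char {K : Type} [Group K] (hfg : Group.FG K) {M : Subgroup K}
    (hM : M.FiniteIndex) : ∃ V : Subgroup K, V.Characteristic ∧ V.FiniteIndex ∧ V ≤ M := by
  obtain ⟨S, hS, hfin⟩ := Group.fg_iff.1 hfg
  obtain ⟨S, rfl⟩ := hfin.exists_finset_coe
  obtain ⟨V₀, hV₀⟩ : ∃ V₀ : Subgroup K, V₀ = ⨅ x : {U' : Subgroup K //
      U'.FiniteIndex ∧ U'.index ≤ M.index}, x.1 := ⟨_, rfl⟩
  refine ⟨V₀, ?_, ?_, ?_⟩
  · refine Subgroup.characteristic_iff_le_comap.2 fun ϕ x hx => ?_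
    rw [Subgroup.mem_comap, hV₀, Subgroup.mem_iInf]
    rintro ⟨U', h3, h4⟩
    rw [hV₀, Subgroup.mem_iInf] at hx
    have h5 : (U'.comap ϕ.toMonoidHom).index = U'.index :=
      Subgroup.index_comap_of_surjective _ ϕ.surjective
    exact hx ⟨U'.comap ϕ.toMonoidHom, ⟨by rw [h5]; exact h3.index_ne_zero⟩, by rwa [h5]⟩
  · rw [hV₀]
    exact finiteIndex_iInf_of_le hS _ fun x => x.2
  · rw [hV₀]
    exact iInf_le (fun x : {U' : Subgroup K // U'.FiniteIndex ∧ U'.index ≤ M.index} => x.1)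
      ⟨M, hM, le_rfl⟩

/-- finitely many normal subgroups which are not contained in `X₀` -/
theorem exists_common {K : Type} [Group K] {X₀ : Subgroup K} [X₀.Normal] (hJ : JS (K ⧸ X₀))
    {ι : Type} (F : Finset ι) (Y : ι → Subgroup K) (hY : ∀ i ∈ F, (Y i).Normal)
    (hY0 : ∀ i ∈ F, ¬ Y i ≤ X₀) :
    ∃ D : Subgroup K, D.Normal ∧ ¬ D ≤ X₀ ∧ ∀ i ∈ F, D ≤ Y i := by
  classical
  have hsur := QuotientGroup.mk'_surjective X₀
  have key : ∀ A : Subgroup K, ¬ A ≤ X₀ → A.map (QuotientGroup.mk' X₀) ≠ ⊥ := by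
    intro A hA h0
    rw [Subgroup.map_eq_bot_iff, QuotientGroup.ker_mk'] at h0
    exact hA h0
  induction F using Finset.induction_on with
  | empty =>
    refine ⟨⊤, inferInstance, fun h0 => hJ.not_vs ⟨⊤, inferInstance, 0, ?_⟩, by simp⟩
    intro x _
    obtain ⟨y, rfl⟩ := hsur x
    exact Subgroup.mem_bot.2 ((QuotientGroup.eq_one_iff y).2 (h0 (Subgroup.mem_top y)))
  | insert j F hj ih =>
    obtain ⟨D, h1, h2, h3⟩ := ih (fun i hi => hY i (Finset.mem_insert_of_mem hi))
      fun i hi => hY0 i (Finset.mem_insert_of_mem hi)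
    have hYj := hY j (Finset.mem_insert_self j F)
    have hYj0 := hY0 j (Finset.mem_insert_self j F)
    refine ⟨⁅D, Y j⁆, inferInstance, fun h4 => ?_, fun i hi => ?_⟩
    · refine hJ.comm (h1.map _ hsur) (key D h2) (hYj.map _ hsur) (key _ hYj0) ?_
      rw [← Subgroup.map_commutator, Subgroup.map_eq_bot_iff, QuotientGroup.ker_mk']
      exact h4
    · rcases Finset.mem_insert.1 hi with rfl | hi
      · exact Subgroup.commutator_le_right _ _
      · exact (Subgroup.commutator_le_left _ _).trans (h3 i hi)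

/-- orbits of normal subgroups with critical quotient are short -/
theorem orbit_quot {H : Type} [Group H] {L : List (ℕ × Bool)} (hmin : MinLaw H L)
    {K : Subgroup H} {X₀ : Subgroup K} [X₀.Normal] (hJ : JS (K ⧸ X₀)) {t : H} (ht : t ∈ Nm K) :
    ∃ k, 0 < k ∧ k ≤ 2 * L.length ∧ t ^ k ∈ Nm (X₀.map K.subtype) := by
  by_contra hcon
  push Not at hcon
  have hQ : ∀ i : ℤ, i ≠ 0 → |i| ≤ 2 * (L.length : ℤ) → t ^ i ∉ Nm (X₀.map K.subtype) := by
    intro i hi0 hi h2
    refine hcon i.natAbs (Int.natAbs_pos.2 hi0) (by rw [Int.abs_eq_natAbs] at hi; omega) ?_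
    rcases Int.natAbs_eq i with h3 | h3
    · rw [h3, zpow_natCast] at h2
      exact h2
    · rw [h3, zpow_neg, zpow_natCast] at h2
      exact (Subgroup.inv_mem_iff _).1 h2
  have htK : ∀ i : ℤ, t ^ i ∈ Nm K := fun i => zpow_mem ht i
  -- conjugation on `K`
  have hc : ∀ i : ℤ, ∃ f : K ≃* K, ∀ y : K, ((f y : K) : H) = t ^ i * y * (t ^ i)⁻¹ := by
    intro i
    refine ⟨MulEquiv.mk' (Equiv.mk (fun y => ⟨t ^ i * y * (t ^ i)⁻¹, Nm_conj (htK i) y.2⟩)
      (fun y => ⟨(t ^ i)⁻¹ * y * t ^ i, Nm_conj' (htK i) y.2⟩) (fun y => ?_) fun y => ?_)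
        fun y z => ?_, fun y => rfl⟩
    · exact Subtype.ext (by
        show (t ^ i)⁻¹ * (t ^ i * (y : H) * (t ^ i)⁻¹) * t ^ i = y
        group)
    · exact Subtype.ext (by
        show t ^ i * ((t ^ i)⁻¹ * (y : H) * t ^ i) * (t ^ i)⁻¹ = y
        group)
    · exact Subtype.ext (by
        show t ^ i * ((y : H) * z) * (t ^ i)⁻¹ =
          (t ^ i * y * (t ^ i)⁻¹) * (t ^ i * z * (t ^ i)⁻¹)
        group)
  choose f hf using hc
  -- the conjugates of `X₀`
  obtain ⟨Y, hY⟩ : ∃ Y : ℤ → Subgroup K, Y = fun i => X₀.comap (f i).toMonoidHom := ⟨_, rfl⟩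
  have hYn : ∀ i, (Y i).Normal := fun i => by
    rw [hY]
    infer_instance
  have hle : ∀ i : ℤ, X₀ ≤ Y i → Y i = X₀ := by
    intro i hi
    by_contra hne
    have h1 : ¬ Y i ≤ X₀ := fun h2 => hne (le_antisymm h2 hi)
    have hsur := QuotientGroup.mk'_surjective X₀
    obtain ⟨P, hP, n, hn⟩ := hJ.vs ((Y i).map (QuotientGroup.mk' X₀)) ((hYn i).map _ hsur)
      fun h0 => h1 (by rwa [Subgroup.map_eq_bot_iff, QuotientGroup.ker_mk'] at h0)
    -- `P'` has finite index in `K` and `ds P' n ≤ Y i`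
    have h2 : ds (P.comap (QuotientGroup.mk' X₀)) n ≤ Y i := by
      have h3 : (ds (P.comap (QuotientGroup.mk' X₀)) n).map (QuotientGroup.mk' X₀) ≤
          (Y i).map (QuotientGroup.mk' X₀) := by
        rw [ds_map, Subgroup.map_comap_eq_self_of_surjective hsur]
        exact hn
      rw [Subgroup.map_le_iff_le_comap, Subgroup.comap_map_eq, QuotientGroup.ker_mk'] at h3
      exact h3.trans (sup_le le_rfl hi)
    have hfsur : Function.Surjective (f i).toMonoidHom := (f i).surjective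
    have h3 : VSm X₀ := by
      have h4 : VSm (Y i) := ⟨_, finiteIndex_comap hsur hP, n, h2⟩
      have h5 := h4.map (f i).toMonoidHom hfsur
      rw [hY] at h5
      rwa [Subgroup.map_comap_eq_self_of_surjective hfsur] at h5
    have h4 := h3.map (QuotientGroup.mk' X₀) hsur
    rw [(Subgroup.map_eq_bot_iff X₀).2 (by rw [QuotientGroup.ker_mk'])] at h4
    exact hJ.not_vs h4
  have hY0 : ∀ i : ℤ, i ≠ 0 → |i| ≤ 2 * (L.length : ℤ) → ¬ Y i ≤ X₀ := by
    intro i hi0 hi h1
    -- `Y i ≤ X₀` means `X₀ ≤ Y (-i)`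
    have h2 : X₀ ≤ Y (-i) := by
      intro x hx
      rw [hY]
      show f (-i) x ∈ X₀
      refine h1 ?_
      rw [hY]
      show f i (f (-i) x) ∈ X₀
      have h3 : f i (f (-i) x) = x := Subtype.ext (by
        rw [hf, hf]
        group)
      rwa [h3]
    have h3 := hle (-i) h2
    refine hQ (-i) (neg_ne_zero.2 hi0) (by rwa [abs_neg]) (mem_Nm_of ?_ ?_)
    · rintro _ ⟨x, hx, rfl⟩
      have h4 : x ∈ Y (-i) := h2 hx
      rw [hY] at h4
      exact ⟨f (-i) x, h4, hf (-i) x⟩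
    · rintro _ ⟨x, hx, rfl⟩
      refine ⟨f i x, ?_, ?_⟩
      · have h4 : f i x ∈ Y (-i) := by
          rw [hY]
          show f (-i) (f i x) ∈ X₀
          have h5 : f (-i) (f i x) = x := Subtype.ext (by
            rw [hf, hf]
            group)
          rwa [h5]
        rw [h3] at h4
        exact h4
      · show ((f i x : K) : H) = (t ^ (-i))⁻¹ * (x : H) * t ^ (-i)
        rw [hf]
        group
  obtain ⟨D, hD1, hD2, hD3⟩ := exists_common hJ
    ((Finset.Icc (-(2 * (L.length : ℤ))) (2 * (L.length : ℤ))).erase 0) Y (fun i _ => hYn i)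
    fun i hi => by
      obtain ⟨h1, h2⟩ := Finset.mem_erase.1 hi
      exact hY0 i h1 (abs_le.2 (Finset.mem_Icc.1 h2))
  obtain ⟨y, hyD, hyX⟩ : ∃ y ∈ D, y ∉ X₀ := by
    by_contra hcon'
    push Not at hcon'
    exact hD2 hcon'
  have hnt : Nontrivial H := by
    refine ⟨(y : H), 1, fun h1 => hyX ?_⟩
    have h2 : y = 1 := Subtype.ext h1
    rw [h2]
    exact one_mem _
  obtain ⟨L', h1, h2, h3, h4⟩ := descent_quot (K := K) (X := X₀.map K.subtype)
    (D := D.map K.subtype) hmin.red (law_rep hmin.ne hmin.law hnt) ht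
    (Subgroup.map_subtype_le _) (by
      intro k hk
      have key : ∀ k ∈ K, ∀ x ∈ X₀.map K.subtype, k * x * k⁻¹ ∈ X₀.map K.subtype := by
        rintro k hk _ ⟨x, hx, rfl⟩
        exact ⟨⟨k, hk⟩ * x * ⟨k, hk⟩⁻¹, Subgroup.Normal.conj_mem inferInstance x hx _, rfl⟩
      refine mem_Nm_of (key k hk) fun x hx => ?_
      have h1 := key k⁻¹ (inv_mem hk) x hx
      rwa [inv_inv] at h1) (Subgroup.map_subtype_le _) (by
      rintro i hi0 hi _ ⟨x, hx, rfl⟩
      have h1 := hD3 i (Finset.mem_erase.2 ⟨hi0, Finset.mem_Icc.2 (abs_le.1 hi)⟩) hx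
      rw [hY] at h1
      exact ⟨f i x, h1, hf i x⟩) hQ hmin.law
  have hsur := QuotientGroup.mk'_surjective X₀
  have hn : (D.map (QuotientGroup.mk' X₀)).Normal := hD1.map _ hsur
  have hn0 : D.map (QuotientGroup.mk' X₀) ≠ ⊥ := fun h0 => hD2 (by
    rwa [Subgroup.map_eq_bot_iff, QuotientGroup.ker_mk'] at h0)
  have h5 := hmin.min (D.map (QuotientGroup.mk' X₀))
    ((Sec.of_sub K).trans ((Sec.of_surj hsur).trans (Sec.of_sub _))) (hJ.sub.sub (hJ.fg hn))
    (hJ.normal_not_vs hn hn0) L' h1 (by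
      intro h7
      rw [h7, List.length_nil] at h2
      exact hmin.ne (List.length_eq_zero_iff.1 h2.symm)) (by
      intro g
      have h6 : ∀ i, ∃ d : K, d ∈ D ∧ QuotientGroup.mk' X₀ d = g i := fun i => (g i).2
      choose d hd hdg using h6
      have h7 := h4 (fun i => (d i : H)) fun i => ⟨d i, hd i, rfl⟩
      have h8 : ev (fun i => (d i : H)) L' = ((ev d L' : K) : H) := ev_map K.subtype d L'
      rw [h8] at h7
      obtain ⟨x, hx, hxe⟩ := h7
      have h9 : ev d L' ∈ X₀ := by rwa [← Subtype.ext hxe]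
      have h10 : ((ev g L' : D.map (QuotientGroup.mk' X₀)) : K ⧸ X₀) = 1 := by
        have h11 : ((ev g L' : D.map (QuotientGroup.mk' X₀)) : K ⧸ X₀) =
            ev (fun i => ((g i : D.map (QuotientGroup.mk' X₀)) : K ⧸ X₀)) L' :=
          (ev_map (D.map (QuotientGroup.mk' X₀)).subtype g L').symm
        rw [h11, show (fun i => ((g i : D.map (QuotientGroup.mk' X₀)) : K ⧸ X₀)) =
          fun i => QuotientGroup.mk' X₀ (d i) from funext fun i => (hdg i).symm, ev_map]
        exact (QuotientGroup.eq_one_iff _).2 h9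
      exact Subtype.ext h10)
  omega

end Pool.Agent.H2Blocks
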