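import Pool.Agent.H2Blocks.Good

/-!
# Normal subgroups
-/

set_option autoImplicit false

namespace Pool.Agent.H2Blocks

open Pool.Agent.H2SlowRed Pool.Agent.FullLaws Pool.Agent.Tracks

variable {H : Type} [Group H] {L : List (ℕ × Bool)}

/-- nontrivial normal subgroups: the quotients -/
theorem Good.normal_js (h : Good H L) {K : Subgroup H} (hK : K.Normal) (hK0 : K ≠ ⊥) : JS K := by
  have hsub : SubG K := h.js.sub.sub (h.js.fg hK)
  have hn : ¬ VSm (⊥ : Subgroup K) := h.js.normal_not_vs hK hK0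
  obtain ⟨X₀, hX₀, hJN, -⟩ := exists_JN hsub fun h1 => hn h1.vs
  have hJ : JS (K ⧸ X₀) := js_of_jn hJN
  have hsur := QuotientGroup.mk'_surjective X₀
  obtain ⟨X, hX⟩ : ∃ X : Subgroup H, X = X₀.map K.subtype := ⟨_, rfl⟩
  have hKX : K ≤ Nm X := by
    have key : ∀ k ∈ K, ∀ x ∈ X, k * x * k⁻¹ ∈ X := by
      rw [hX]
      rintro k hk _ ⟨x, hx, rfl⟩
      exact ⟨⟨k, hk⟩ * x * ⟨k, hk⟩⁻¹, hX₀.conj_mem x hx _, rfl⟩
    intro k hk
    refine mem_Nm_of (key k hk) fun x hx => ?_
    have h1 := key k⁻¹ (inv_mem hk) x hx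
    rwa [inv_inv] at h1
  -- the normalizer of `X` has finite index
  have hfi : (Nm X).FiniteIndex := by
    have h1 : K ≤ (Nm X).normalCore := by
      intro k hk g
      exact hKX (hK.conj_mem k hk g)
    have h2 : ∀ x : H, x ^ (Nat.factorial (2 * L.length)) ∈ (Nm X).normalCore := by
      intro x y
      have hy : y * x * y⁻¹ ∈ Nm K := by
        refine mem_Nm_of (fun z hz => hK.conj_mem z hz _) fun z hz => ?_
        have h3 := hK.conj_mem z hz (y * x * y⁻¹)⁻¹
        rwa [inv_inv] at h3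
      obtain ⟨i, h4, h5, h6⟩ := orbit_quot h.min hJ hy
      obtain ⟨q, hq⟩ := Nat.dvd_factorial h4 h5
      rw [← conj_pow, hq, pow_mul, hX]
      exact pow_mem h6 q
    have h3 : (Nm X).normalCore.FiniteIndex := finiteIndex_of_exponent h.js.sub inferInstance
      ((h.js.vs K hK hK0).mono h1) (Nat.factorial_pos _) h2
    exact Subgroup.finiteIndex_of_le (Subgroup.normalCore_le (Nm X))
  have hX0 : X₀ = ⊥ := by
    by_contra h0
    obtain ⟨Z, hZ1, hZ2, hZ3⟩ := h.star (Nm X) X hfi (fun h1 => h0 (by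
      rw [hX] at h1
      rwa [Subgroup.map_eq_bot_iff_of_injective _ (Subgroup.subtype_injective K)] at h1))
      fun k hk x hx => Nm_conj hk hx
    obtain ⟨P, hP, n, hPn⟩ := h.js.vs Z hZ1 hZ2
    have h1 : VSm X₀ := by
      refine ⟨P.subgroupOf K, inferInstance, n, ?_⟩
      intro x hx
      have h1 : (ds (P.subgroupOf K) n).map K.subtype ≤ ds P n := by
        rw [ds_map]
        exact ds_mono (Subgroup.map_le_iff_le_comap.2 le_rfl) n
      have h2 := hZ3 (hPn (h1 ⟨x, hx, rfl⟩))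
      rw [hX] at h2
      obtain ⟨y, hy, hyx⟩ := h2
      rwa [← Subtype.ext hyx]
    have h2 := h1.map (QuotientGroup.mk' X₀) hsur
    rw [(Subgroup.map_eq_bot_iff X₀).2 (by rw [QuotientGroup.ker_mk'])] at h2
    exact hJ.not_vs h2
  subst hX0
  exact hJ.of_equiv QuotientGroup.quotientBot

/-- nontrivial normal subgroups -/
theorem Good.normal (h : Good H L) {K : Subgroup H} (hK : K.Normal) (hK0 : K ≠ ⊥) : Good K L := by
  have hJ := h.normal_js hK hK0
  refine ⟨hJ, res_of_inj K.subtype (Subgroup.subtype_injective K) h.res, ?_,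
    h.min.of_sec (Sec.of_sub K)⟩
  intro M X hM hX0 hX
  obtain ⟨V, hV1, hV2, hV3⟩ := exists_char hJ.sub.fg hM
  have hinf := hJ.infinite
  have hV0 : V ≠ ⊥ := by
    intro h0
    rw [h0] at hV2
    have h3 := hV2.index_ne_zero
    rw [Subgroup.index_bot] at h3
    exact not_finite_iff_infinite.2 hinf (Nat.finite_of_card_ne_zero h3)
  have hVn : V.Normal := inferInstance
  -- `V` is normal in `H`
  have hVH : (V.map K.subtype).Normal := inferInstance
  have hJV' : JS (V.map K.subtype) := h.normal_js hVH fun h0 => hV0 (by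
    rwa [Subgroup.map_eq_bot_iff_of_injective _ (Subgroup.subtype_injective K)] at h0)
  have hJV : JS V := hJV'.of_equiv
    (V.equivMapOfInjective K.subtype (Subgroup.subtype_injective K)).symm
  -- `X ⊓ V` is not trivial
  have hXV : X.subgroupOf V ≠ ⊥ := by
    intro h0
    refine hX0 (le_bot_iff.1 ?_)
    rw [← hJ.cz hVn hV0]
    intro x hx
    rw [mem_Cz]
    intro v hv
    have h1 : x * v * x⁻¹ * v⁻¹ ∈ V := mul_mem (hVn.conj_mem v hv x) (inv_mem hv)
    have h2 : x * v * x⁻¹ * v⁻¹ ∈ X := by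
      have h3 := mul_mem hx (hX v (hV3 hv) x⁻¹ (inv_mem hx))
      rwa [show x * (v * x⁻¹ * v⁻¹) = x * v * x⁻¹ * v⁻¹ by group] at h3
    have h3 : (⟨_, h1⟩ : V) ∈ X.subgroupOf V := h2
    rw [h0, Subgroup.mem_bot] at h3
    have h4 : x * v * x⁻¹ * v⁻¹ = 1 := congrArg Subtype.val h3
    calc x * v = (x * v * x⁻¹ * v⁻¹) * (v * x) := by group
      _ = v * x := by rw [h4, one_mul]
  have hXVn : (X.subgroupOf V).Normal := by
    refine ⟨fun x hx v => ?_⟩
    exact hX v (hV3 v.2) x hx
  obtain ⟨P, hP, n, hPn⟩ := hJV.vs _ hXVn hXV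
  obtain ⟨P', hP'⟩ : ∃ P' : Subgroup K, P' = (P.map V.subtype).normalCore := ⟨_, rfl⟩
  have h1 : (P.map V.subtype).FiniteIndex := by
    refine ⟨?_⟩
    rw [Subgroup.index_map_subtype]
    exact mul_ne_zero hP.index_ne_zero hV2.index_ne_zero
  have h2 : P'.FiniteIndex := by rw [hP']; infer_instance
  have h3 : P'.Normal := by rw [hP']; infer_instance
  refine ⟨ds P' n, ds_normal h3 n, fun h0 => hJ.not_vs ⟨P', h2, n, h0.le⟩, ?_⟩
  have h4 : P' ≤ P.map V.subtype := by
    rw [hP']
    exact Subgroup.normalCore_le _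
  refine (ds_mono h4 n).trans ?_
  rw [← ds_map]
  rintro _ ⟨x, hx, rfl⟩
  exact hPn hx

/-- the subgroups which are obtained from the whole group by passing to subgroups of finite index
and to nontrivial normal subgroups -/
inductive Reach {H : Type} [Group H] : Subgroup H → Prop
  | top : Reach ⊤
  | fin (K M : Subgroup H) : Reach K → M ≤ K → M.relIndex K ≠ 0 → Reach M
  | normal (K N : Subgroup H) : Reach K → N ≤ K → N ≠ ⊥ → (∀ k ∈ K, ∀ x ∈ N, k * x * k⁻¹ ∈ N) →
      Reach N

theorem Good.reach (h : Good H L) {K : Subgroup H} (hK : Reach K) : Good K L := by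
  induction hK with
  | top => exact h.of_equiv Subgroup.topEquiv.symm
  | fin K M _ hMK hM ih =>
    exact (ih.fin (M := M.subgroupOf K) ⟨hM⟩).of_equiv (Subgroup.subgroupOfEquivOfLe hMK)
  | normal K N _ hNK hN0 hN ih =>
    have h1 : (N.subgroupOf K).Normal := ⟨fun x hx k => hN k k.2 x hx⟩
    refine (ih.normal h1 fun h0 => hN0 (le_bot_iff.1 fun x hx => Subgroup.mem_bot.2 ?_)).of_equiv
      (Subgroup.subgroupOfEquivOfLe hNK)
    have h2 : (⟨x, hNK hx⟩ : K) ∈ N.subgroupOf K := hx
    rw [h0, Subgroup.mem_bot] at h2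
    exact congrArg Subtype.val h2

/-- some subgroup of finite index maps onto the integers -/
def Ind (K : Type) [Group K] : Prop :=
  ∃ M : Subgroup K, M.FiniteIndex ∧ ∃ φ : M →* Multiplicative ℤ, Function.Surjective φ

theorem Ind.of_surj {G H : Type} [Group G] [Group H] {φ : G →* H} (hφ : Function.Surjective φ)
    (h : Ind H) : Ind G := by
  obtain ⟨M, hM, ψ, hψ⟩ := h
  exact ⟨M.comap φ, finiteIndex_comap hφ hM, ψ.comp (φ.subgroupComap M),
    hψ.comp (MonoidHom.subgroupComap_surjective_of_surjective _ _ hφ)⟩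

theorem Ind.of_sub {G : Type} [Group G] {M : Subgroup G} (hM : M.FiniteIndex) (h : Ind M) :
    Ind G := by
  obtain ⟨N, hN, ψ, hψ⟩ := h
  refine ⟨N.map M.subtype, ⟨?_⟩, ψ.comp
    (N.equivMapOfInjective M.subtype (Subgroup.subtype_injective M)).symm.toMonoidHom, ?_⟩
  · rw [Subgroup.index_map_subtype]
    exact mul_ne_zero hN.index_ne_zero hM.index_ne_zero
  · exact hψ.comp (MulEquiv.surjective _)

/-- without subgroups of finite index which map onto the integers the group is hereditarily just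
infinite -/
theorem Good.hji (h : Good H L) (hI : ¬ Ind H) (M : Subgroup H) (hM : M.FiniteIndex)
    (N : Subgroup M) (hN : N.Normal) (hN0 : N ≠ ⊥) : N.FiniteIndex := by
  have hJ := (h.fin hM).js
  have hsur := QuotientGroup.mk'_surjective N
  have h1 : VSm (⊥ : Subgroup (M ⧸ N)) := by
    have h2 := (hJ.vs N hN hN0).map _ hsur
    rwa [(Subgroup.map_eq_bot_iff N).2 (by rw [QuotientGroup.ker_mk'])] at h2
  have h2 : Finite (M ⧸ N) := by
    by_contra hinf
    rw [not_finite_iff_infinite] at hinf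
    exact hI (Ind.of_sub hM (Ind.of_surj hsur (vs_indicable (hJ.sub.map _ hsur) h1 hinf)))
  exact Subgroup.finiteIndex_of_finite_quotient

end Pool.Agent.H2Blocks
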