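import Pool.Agent.H2Blocks.JS

/-!
# Blocks are not virtually solvable
-/

set_option autoImplicit false

namespace Pool.Agent.H2Blocks

open Pool.Agent.H2SlowRed Pool.Agent.FullLaws Pool.Agent.Tracks

variable {G : Type} [Group G]

/-- in a residually finite group every finite subset is avoided by a normal subgroup of finite
index -/
theorem exists_avoid (hr : Res G = ⊥) {T : Set G} (hT : T.Finite) (h1 : (1 : G) ∉ T) :
    ∃ K : Subgroup G, K.Normal ∧ K.FiniteIndex ∧ ∀ t ∈ T, t ∉ K := by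
  induction T, hT using Set.Finite.induction_on with
  | empty => exact ⟨⊤, inferInstance, inferInstance, by simp⟩
  | @insert a T ha hT ih =>
    obtain ⟨K, hK1, hK2, hK3⟩ := ih fun h => h1 (Set.mem_insert_of_mem _ h)
    obtain ⟨K', hK1', hK2', hK3'⟩ : ∃ K' : Subgroup G, K'.Normal ∧ K'.FiniteIndex ∧ a ∉ K' := by
      by_contra hcon
      push Not at hcon
      have h2 : a ∈ Res G := by
        rw [Res, Subgroup.mem_sInf]
        exact fun K hK => hcon K hK.1 hK.2
      rw [hr] at h2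
      exact h1 (Set.mem_insert_iff.2 (Or.inl (Subgroup.mem_bot.1 h2).symm))
    refine ⟨K ⊓ K', inferInstance, inferInstance, fun t ht h => ?_⟩
    rcases Set.mem_insert_iff.1 ht with rfl | ht
    · exact hK3' (Subgroup.mem_inf.1 h).2
    · exact hK3 t ht (Subgroup.mem_inf.1 h).1

theorem JS.infinite (h : JS G) : Infinite G := by
  by_contra hfin
  rw [not_infinite_iff_finite] at hfin
  exact h.not_vs ⟨⊥, inferInstance, 0, le_rfl⟩

/-- blocks are infinite -/
theorem Block.infinite {B : Subgroup G} (h : JS G) (hr : Res G = ⊥) (hB : Block B) :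
    Infinite B := by
  by_contra hfin
  rw [not_infinite_iff_finite] at hfin
  have hinf := h.infinite
  obtain ⟨K, hK1, hK2, hK3⟩ := exists_avoid hr (T := (B : Set G) \ {1})
    (Set.Finite.sdiff (Set.toFinite _)) (by simp)
  have h1 := hB.fin
  obtain ⟨K', hK'⟩ : ∃ K' : Subgroup G, K' = K ⊓ (Nm B).normalCore := ⟨_, rfl⟩
  have hn : K'.Normal := by rw [hK']; infer_instance
  have hi : K'.FiniteIndex := by rw [hK']; infer_instance
  have h0 : K' ≠ ⊥ := by
    intro h0
    rw [h0] at hi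
    have h3 := hi.index_ne_zero
    rw [Subgroup.index_bot] at h3
    exact not_finite_iff_infinite.2 hinf (Nat.finite_of_card_ne_zero h3)
  refine hB.ne (le_bot_iff.1 ?_)
  rw [← h.cz hn h0]
  intro b hb
  rw [mem_Cz]
  intro k hk
  have h2 : k * b * k⁻¹ * b⁻¹ ∈ B := by
    refine mul_mem (Nm_conj ?_ hb) (inv_mem hb)
    rw [hK'] at hk
    exact Subgroup.normalCore_le _ (Subgroup.mem_inf.1 hk).2
  have h3 : k * b * k⁻¹ * b⁻¹ ∈ K' := by
    have h4 := mul_mem hk (hn.conj_mem k⁻¹ (inv_mem hk) b)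
    rwa [show k * (b * k⁻¹ * b⁻¹) = k * b * k⁻¹ * b⁻¹ by group] at h4
  have h4 : k * b * k⁻¹ * b⁻¹ = 1 := by
    by_contra h5
    rw [hK'] at h3
    exact hK3 _ ⟨h2, h5⟩ (Subgroup.mem_inf.1 h3).1
  have h5 : k * b = b * k := by
    calc k * b = (k * b * k⁻¹ * b⁻¹) * (b * k) := by group
      _ = b * k := by rw [h4, one_mul]
  exact h5.symm

/-- a characteristic subgroup of a block is normalized by the normalizer of the block -/
theorem nm_le_of_char {B : Subgroup G} {V : Subgroup B} (hV : V.Characteristic) :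
    Nm B ≤ Nm (V.map B.subtype) := by
  have key : ∀ g ∈ Nm B, ∀ x ∈ V.map B.subtype, g * x * g⁻¹ ∈ V.map B.subtype := by
    rintro g hg _ ⟨⟨x, hx⟩, hxV, rfl⟩
    obtain ⟨f, hf⟩ : ∃ f : B ≃* B, ∀ y : B, ((f y : B) : G) = g * y * g⁻¹ := by
      refine ⟨MulEquiv.mk' (Equiv.mk (fun y => ⟨g * y * g⁻¹, Nm_conj hg y.2⟩)
        (fun y => ⟨g⁻¹ * y * g, Nm_conj' hg y.2⟩) (fun y => ?_) fun y => ?_) fun y z => ?_,
        fun y => rfl⟩
      · exact Subtype.ext (by show g⁻¹ * (g * y * g⁻¹) * g = y; group)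
      · exact Subtype.ext (by show g * (g⁻¹ * y * g) * g⁻¹ = y; group)
      · exact Subtype.ext (by
          show g * ((y : G) * z) * g⁻¹ = (g * y * g⁻¹) * (g * z * g⁻¹)
          group)
    have h1 : f ⟨x, hx⟩ ∈ V := by
      have h2 := Subgroup.characteristic_iff_map_le.1 hV f
      exact h2 ⟨⟨x, hx⟩, hxV, rfl⟩
    exact ⟨f ⟨x, hx⟩, h1, hf _⟩
  intro g hg
  refine mem_Nm_of (key g hg) fun x hx => ?_
  have h2 := key g⁻¹ (inv_mem hg) x hx
  rwa [inv_inv] at h2

theorem ds_char {V : Subgroup G} (hV : V.Characteristic) (n : ℕ) : (ds V n).Characteristic := by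
  induction n with
  | zero => exact hV
  | succ n ih => exact Subgroup.commutator_characteristic _ _

/-- blocks are not virtually solvable -/
theorem Block.not_vs {B : Subgroup G} (h : JS G) (hr : Res G = ⊥) (hB : Block B) :
    ¬ VSm (⊥ : Subgroup B) := by
  rintro ⟨P, hP, n, hn⟩
  have hinf := hB.infinite h hr
  have hfg : B.FG := hB.fg h
  obtain ⟨S, hS, hfin⟩ := Group.fg_iff.1 ((Group.fg_iff_subgroup_fg B).2 hfg)
  obtain ⟨S, rfl⟩ := hfin.exists_finset_coe
  obtain ⟨V₀, hV₀⟩ : ∃ V₀ : Subgroup B, V₀ = ⨅ x : {U' : Subgroup B //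
      U'.FiniteIndex ∧ U'.index ≤ P.index}, x.1 := ⟨_, rfl⟩
  have h1 : V₀.FiniteIndex := by
    rw [hV₀]
    exact finiteIndex_iInf_of_le hS _ fun x => x.2
  have h2 : V₀.Characteristic := by
    refine Subgroup.characteristic_iff_le_comap.2 fun ϕ x hx => ?_
    rw [Subgroup.mem_comap, hV₀, Subgroup.mem_iInf]
    rintro ⟨U', h3, h4⟩
    rw [hV₀, Subgroup.mem_iInf] at hx
    have h5 : (U'.comap ϕ.toMonoidHom).index = U'.index :=
      Subgroup.index_comap_of_surjective _ ϕ.surjective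
    exact hx ⟨U'.comap ϕ.toMonoidHom, ⟨by rw [h5]; exact h3.index_ne_zero⟩, by rwa [h5]⟩
  have h3 : V₀ ≤ P := by
    rw [hV₀]
    exact iInf_le (fun x : {U' : Subgroup B // U'.FiniteIndex ∧ U'.index ≤ P.index} => x.1)
      ⟨P, hP, le_rfl⟩
  have h4 : ds V₀ n = ⊥ := le_bot_iff.1 ((ds_mono h3 n).trans hn)
  have h5 : ds V₀ 0 ≠ ⊥ := by
    intro h0
    have h6 : V₀ = ⊥ := h0
    rw [h6] at h1
    have h7 := h1.index_ne_zero
    rw [Subgroup.index_bot] at h7
    exact not_finite_iff_infinite.2 hinf (Nat.finite_of_card_ne_zero h7)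
  obtain ⟨j, hj1, hj2⟩ : ∃ j, ds V₀ j ≠ ⊥ ∧ ds V₀ (j + 1) = ⊥ := by
    by_contra hcon
    push Not at hcon
    have h6 : ∀ j, ds V₀ j ≠ ⊥ := by
      intro j
      induction j with
      | zero => exact h5
      | succ j ih => exact hcon j ih
    exact h6 n h4
  have h6 : Block ((ds V₀ j).map B.subtype) := by
    refine hB.sub (Subgroup.map_subtype_le _) (fun h0 => hj1 ?_) (nm_le_of_char (ds_char h2 j))
    rwa [Subgroup.map_eq_bot_iff_of_injective _ (Subgroup.subtype_injective B)] at h0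
  refine h6.not_comm h ?_
  rintro _ ⟨x, hx, rfl⟩ _ ⟨y, hy, rfl⟩
  have h7 : x * y * x⁻¹ * y⁻¹ ∈ ds V₀ (j + 1) := Subgroup.commutator_mem_commutator hx hy
  rw [hj2, Subgroup.mem_bot] at h7
  have h8 : x * y = y * x := by
    calc x * y = (x * y * x⁻¹ * y⁻¹) * (y * x) := by group
      _ = y * x := by rw [h7, one_mul]
  exact congrArg Subtype.val h8

end Pool.Agent.H2Blocks
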