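import Pool.Agent.H2Blocks.Words

/-!
# Blocks with a long orbit satisfy a word with more variables
-/

set_option autoImplicit false

namespace Pool.Agent.H2Blocks

/-! ### Heights and the new word -/

/-- the height which a word reaches when its letters act from the right to the left -/
def L33_ht (a : ℕ → ℤ) : List (ℕ × Bool) → ℤ
  | [] => 0
  | x :: L => cond x.2 (L33_ht a L + a x.1) (L33_ht a L - a x.1)

/-- the position of the letter `x` in front of the word `L` -/
def L33_pos (a : ℕ → ℤ) (x : ℕ × Bool) (L : List (ℕ × Bool)) : ℤ :=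
  cond x.2 (L33_ht a L) (L33_ht a L - a x.1)

/-- the new word -/
def L33_tr (a : ℕ → ℤ) : List (ℕ × Bool) → List (ℕ × Bool)
  | [] => []
  | x :: L => (Encodable.encode (x.1, L33_pos a x L), x.2) :: L33_tr a L

theorem L33_length (a : ℕ → ℤ) (L : List (ℕ × Bool)) : (L33_tr a L).length = L.length := by
  induction L with
  | nil => rfl
  | cons x L ih => simp [L33_tr, ih]

theorem L33_ht_append (a : ℕ → ℤ) (L M : List (ℕ × Bool)) :
    L33_ht a (L ++ M) = L33_ht a L + L33_ht a M := by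
  induction L with
  | nil => simp [L33_ht]
  | cons x L ih =>
    rcases x with ⟨i, _ | _⟩
    · simp only [List.cons_append, L33_ht, cond_false, ih]
      ring
    · simp only [List.cons_append, L33_ht, cond_true, ih]
      ring

theorem L33_ht_abs {a : ℕ → ℤ} (ha : ∀ i, |a i| ≤ 1) (L : List (ℕ × Bool)) :
    |L33_ht a L| ≤ (L.length : ℤ) := by
  induction L with
  | nil => simp [L33_ht]
  | cons x L ih =>
    rcases x with ⟨i, _ | _⟩
    · simp only [L33_ht, cond_false, List.length_cons, Nat.cast_add, Nat.cast_one]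
      exact (abs_sub _ _).trans (add_le_add ih (ha i))
    · simp only [L33_ht, cond_true, List.length_cons, Nat.cast_add, Nat.cast_one]
      exact (abs_add_le _ _).trans (add_le_add ih (ha i))

theorem L33_ht_zero {a : ℕ → ℤ} {L : List (ℕ × Bool)} (h : ∀ x ∈ L, a x.1 = 0) :
    L33_ht a L = 0 := by
  induction L with
  | nil => rfl
  | cons x L ih =>
    have h1 := ih fun y hy => h y (List.mem_cons_of_mem _ hy)
    have h2 := h x List.mem_cons_self
    rcases x with ⟨i, _ | _⟩
    · simp only [L33_ht, cond_false, h1]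
      simp only at h2
      rw [h2, sub_zero]
    · simp only [L33_ht, cond_true, h1]
      simp only at h2
      rw [h2, add_zero]

theorem L33_red {a : ℕ → ℤ} {L : List (ℕ × Bool)} (h : Red L) : Red (L33_tr a L) := by
  unfold Red at *
  induction L with
  | nil => exact List.isChain_nil
  | cons x L ih =>
    cases L with
    | nil => exact List.isChain_singleton _
    | cons y L =>
      rw [List.isChain_cons_cons] at h
      refine List.isChain_cons_cons.2 ⟨fun he => h.1 ?_, ih h.2⟩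
      have h1 := Encodable.encode_injective he
      exact (Prod.mk.inj h1).1

/-! ### The block elements -/

variable {G : Type} [Group G]

theorem L33_block {B : Subgroup G} {h : G} {l : ℤ}
    (hcomm : ∀ i : ℤ, i ≠ 0 → |i| ≤ 2 * l → ∀ y ∈ B, ∀ z ∈ B,
      y * (h ^ i * z * (h ^ i)⁻¹) = (h ^ i * z * (h ^ i)⁻¹) * y)
    (b : ℤ → G) (hb : ∀ q, b q ∈ B) (S : Finset ℤ) (hS : ∀ q ∈ S, |q| ≤ l) :
    ∃ P : G, (∀ q ∈ S, ∀ y ∈ B,
        P * (h ^ q * y * (h ^ q)⁻¹) * P⁻¹ = h ^ q * (b q * y * (b q)⁻¹) * (h ^ q)⁻¹) ∧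
      ∀ q, |q| ≤ l → q ∉ S → ∀ y ∈ B,
        P * (h ^ q * y * (h ^ q)⁻¹) * P⁻¹ = h ^ q * y * (h ^ q)⁻¹ := by
  induction S using Finset.induction_on with
  | empty => exact ⟨1, by simp, by simp⟩
  | insert r S hr ih =>
    obtain ⟨P, h1, h2⟩ := ih fun q hq => hS q (Finset.mem_insert_of_mem hq)
    have hrl := hS r (Finset.mem_insert_self r S)
    -- the new factor commutes with the other blocks
    have h3 : ∀ q, |q| ≤ l → q ≠ r → ∀ y ∈ B,
        (h ^ r * b r * (h ^ r)⁻¹) * (h ^ q * y * (h ^ q)⁻¹) * (h ^ r * b r * (h ^ r)⁻¹)⁻¹ =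
          h ^ q * y * (h ^ q)⁻¹ := by
      intro q hq hqr y hy
      have h4 := hcomm (q - r) (sub_ne_zero.2 hqr)
        ((abs_sub _ _).trans (by linarith)) (b r) (hb r) y hy
      have h5 : h ^ q = h ^ r * h ^ (q - r) := by
        rw [← zpow_add]
        congr 1
        ring
      rw [mul_inv_eq_iff_eq_mul, h5]
      calc h ^ r * b r * (h ^ r)⁻¹ * (h ^ r * h ^ (q - r) * y * (h ^ r * h ^ (q - r))⁻¹)
          = h ^ r * (b r * (h ^ (q - r) * y * (h ^ (q - r))⁻¹)) * (h ^ r)⁻¹ := by group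
        _ = h ^ r * ((h ^ (q - r) * y * (h ^ (q - r))⁻¹) * b r) * (h ^ r)⁻¹ := by rw [h4]
        _ = _ := by group
    refine ⟨(h ^ r * b r * (h ^ r)⁻¹) * P, ?_, ?_⟩
    · intro q hq y hy
      have h6 : (h ^ r * b r * (h ^ r)⁻¹) * P * (h ^ q * y * (h ^ q)⁻¹) *
          ((h ^ r * b r * (h ^ r)⁻¹) * P)⁻¹ = (h ^ r * b r * (h ^ r)⁻¹) *
            (P * (h ^ q * y * (h ^ q)⁻¹) * P⁻¹) * (h ^ r * b r * (h ^ r)⁻¹)⁻¹ := by group
      rw [h6]
      rcases Finset.mem_insert.1 hq with rfl | hq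
      · rw [h2 q hrl hr y hy]
        group
      · have hqr : q ≠ r := fun he => hr (he ▸ hq)
        rw [h1 q hq y hy]
        exact h3 q (hS q (Finset.mem_insert_of_mem hq)) hqr _
          (B.mul_mem (B.mul_mem (hb q) hy) (B.inv_mem (hb q)))
    · intro q hql hq y hy
      rw [Finset.mem_insert, not_or] at hq
      have h6 : (h ^ r * b r * (h ^ r)⁻¹) * P * (h ^ q * y * (h ^ q)⁻¹) *
          ((h ^ r * b r * (h ^ r)⁻¹) * P)⁻¹ = (h ^ r * b r * (h ^ r)⁻¹) *
            (P * (h ^ q * y * (h ^ q)⁻¹) * P⁻¹) * (h ^ r * b r * (h ^ r)⁻¹)⁻¹ := by group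
      rw [h6, h2 q hql hq.2 y hy]
      exact h3 q hql hq.1 y hy

/-- the elements which are substituted for the variables -/
theorem L33_sub {B : Subgroup G} {h : G} {l : ℤ}
    (hcomm : ∀ i : ℤ, i ≠ 0 → |i| ≤ 2 * l → ∀ y ∈ B, ∀ z ∈ B,
      y * (h ^ i * z * (h ^ i)⁻¹) = (h ^ i * z * (h ^ i)⁻¹) * y)
    (a : ℤ) (b : ℤ → B) :
    ∃ x : G, ∀ q : ℤ, |q| ≤ l → ∀ y ∈ B,
      x * (h ^ q * y * (h ^ q)⁻¹) * x⁻¹ =
        h ^ (q + a) * ((b q : G) * y * (b q : G)⁻¹) * (h ^ (q + a))⁻¹ := by
  obtain ⟨P, h1, -⟩ := L33_block hcomm (fun q => (b q : G)) (fun q => (b q).2)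
    (Finset.Icc (-l) l) (fun q hq => abs_le.2 (Finset.mem_Icc.1 hq))
  refine ⟨h ^ a * P, fun q hq y hy => ?_⟩
  have h2 := h1 q (Finset.mem_Icc.2 (abs_le.1 hq)) y hy
  have h3 : h ^ a * P * (h ^ q * y * (h ^ q)⁻¹) * (h ^ a * P)⁻¹ =
      h ^ a * (P * (h ^ q * y * (h ^ q)⁻¹) * P⁻¹) * (h ^ a)⁻¹ := by group
  rw [h3, h2, add_comm q a, zpow_add]
  group

/-- the action of a word -/
theorem L33_act {B : Subgroup G} {h : G} {l : ℤ} {a : ℕ → ℤ} (ha : ∀ i, |a i| ≤ 1)
    {x : ℕ → G} {f : ℕ → B}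
    (hx : ∀ i, ∀ q : ℤ, |q| ≤ l → ∀ y ∈ B, x i * (h ^ q * y * (h ^ q)⁻¹) * (x i)⁻¹ =
      h ^ (q + a i) * ((f (Encodable.encode (i, q)) : G) * y *
        (f (Encodable.encode (i, q)) : G)⁻¹) * (h ^ (q + a i))⁻¹)
    (L : List (ℕ × Bool)) (hL : (L.length : ℤ) ≤ l) (y : G) (hy : y ∈ B) :
    ev x L * y * (ev x L)⁻¹ = h ^ L33_ht a L * (((ev f (L33_tr a L) : B) : G) * y *
      ((ev f (L33_tr a L) : B) : G)⁻¹) * (h ^ L33_ht a L)⁻¹ := by
  induction L with
  | nil => simp [ev, L33_ht, L33_tr]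
  | cons c L ih =>
    have hL' : (L.length : ℤ) + 1 ≤ l := by
      simpa [List.length_cons] using hL
    have h1 := ih (by linarith)
    have hq := L33_ht_abs ha L
    have hw : ((ev f (L33_tr a L) : B) : G) * y * ((ev f (L33_tr a L) : B) : G)⁻¹ ∈ B :=
      B.mul_mem (B.mul_mem (SetLike.coe_mem _) hy) (B.inv_mem (SetLike.coe_mem _))
    rcases c with ⟨i, _ | _⟩
    · have h2 : ev x ((i, false) :: L) = (x i)⁻¹ * ev x L := by simp [ev]
      have h3 : ev f (L33_tr a ((i, false) :: L)) =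
          (f (Encodable.encode (i, L33_ht a L - a i)))⁻¹ * ev f (L33_tr a L) := by
        simp [ev, L33_tr, L33_pos]
      have h4 : L33_ht a ((i, false) :: L) = L33_ht a L - a i := rfl
      have h5 : |L33_ht a L - a i| ≤ l := (abs_sub _ _).trans (by linarith [ha i])
      set F : G := (f (Encodable.encode (i, L33_ht a L - a i)) : G) with hF
      set w : G := ((ev f (L33_tr a L) : B) : G) with hw'
      have h6 := hx i _ h5 (F⁻¹ * (w * y * w⁻¹) * F)
        (B.mul_mem (B.mul_mem (B.inv_mem (SetLike.coe_mem _)) hw) (SetLike.coe_mem _))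
      rw [sub_add_cancel, ← hF] at h6
      have h7 : F * (F⁻¹ * (w * y * w⁻¹) * F) * F⁻¹ = w * y * w⁻¹ := by group
      rw [h7] at h6
      rw [h2, h3, h4, Subgroup.coe_mul, Subgroup.coe_inv, ← hF, ← hw']
      calc (x i)⁻¹ * ev x L * y * ((x i)⁻¹ * ev x L)⁻¹
          = (x i)⁻¹ * (ev x L * y * (ev x L)⁻¹) * x i := by group
        _ = (x i)⁻¹ * (x i * (h ^ (L33_ht a L - a i) * (F⁻¹ * (w * y * w⁻¹) * F) *
              (h ^ (L33_ht a L - a i))⁻¹) * (x i)⁻¹) * x i := by rw [h1, h6]
        _ = _ := by group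
    · have h2 : ev x ((i, true) :: L) = x i * ev x L := by simp [ev]
      have h3 : ev f (L33_tr a ((i, true) :: L)) =
          f (Encodable.encode (i, L33_ht a L)) * ev f (L33_tr a L) := by
        simp [ev, L33_tr, L33_pos]
      have h4 : L33_ht a ((i, true) :: L) = L33_ht a L + a i := rfl
      have h5 : |L33_ht a L| ≤ l := by linarith
      set F : G := (f (Encodable.encode (i, L33_ht a L)) : G) with hF
      set w : G := ((ev f (L33_tr a L) : B) : G) with hw'
      have h6 := hx i _ h5 (w * y * w⁻¹) hw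
      rw [← hF] at h6
      rw [h2, h3, h4, Subgroup.coe_mul, ← hF, ← hw']
      calc x i * ev x L * y * (x i * ev x L)⁻¹
          = x i * (ev x L * y * (ev x L)⁻¹) * (x i)⁻¹ := by group
        _ = h ^ (L33_ht a L + a i) * (F * (w * y * w⁻¹) * F⁻¹) * (h ^ (L33_ht a L + a i))⁻¹ := by
            rw [h1, h6]
        _ = _ := by group

/-- the new word is a law of the block -/
theorem L33_law {B : Subgroup G} {h : G} {L : List (ℕ × Bool)} (hB : ∃ y ∈ B, y ≠ 1)
    (hZ : ∀ z ∈ B, (∀ y ∈ B, z * y = y * z) → z = 1)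
    (hcomm : ∀ i : ℤ, i ≠ 0 → |i| ≤ 2 * (L.length : ℤ) → ∀ y ∈ B, ∀ z ∈ B,
      y * (h ^ i * z * (h ^ i)⁻¹) = (h ^ i * z * (h ^ i)⁻¹) * y)
    (hlaw : ∀ f : ℕ → G, ev f L = 1) {a : ℕ → ℤ} (ha : ∀ i, |a i| ≤ 1) (f : ℕ → B) :
    ev f (L33_tr a L) = 1 := by
  choose x hx using fun i => L33_sub hcomm (a i) fun q => f (Encodable.encode (i, q))
  have h1 := L33_act ha hx L le_rfl
  rw [hlaw x] at h1
  set w : G := ((ev f (L33_tr a L) : B) : G) with hw
  have hwB : w ∈ B := SetLike.coe_mem _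
  have h2 : ∀ y ∈ B, y = h ^ L33_ht a L * (w * y * w⁻¹) * (h ^ L33_ht a L)⁻¹ := by
    intro y hy
    have h3 := h1 y hy
    rwa [one_mul, inv_one, mul_one] at h3
  have h4 : L33_ht a L = 0 := by
    by_contra hne
    obtain ⟨y, hy, hy1⟩ := hB
    apply hy1
    refine hZ y hy fun z hz => ?_
    have h5 := hcomm (L33_ht a L) hne
      ((L33_ht_abs ha L).trans (by linarith [Int.natCast_nonneg L.length])) z hz (w * y * w⁻¹)
      (B.mul_mem (B.mul_mem hwB hy) (B.inv_mem hwB))
    rw [← h2 y hy] at h5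
    exact h5.symm
  have h5 : w = 1 := by
    refine hZ w hwB fun y hy => ?_
    have h6 := h2 y hy
    rw [h4, zpow_zero, one_mul, inv_one, mul_one] at h6
    calc w * y = w * y * w⁻¹ * w := by group
      _ = y * w := by rw [← h6]
  exact Subtype.ext h5

/-! ### The number of variables -/

/-- the variable of the old word -/
def L33_old (c : ℕ) : ℕ := ((Encodable.decode c : Option (ℕ × ℤ)).map Prod.fst).getD 0

theorem L33_old_encode (i : ℕ) (q : ℤ) : L33_old (Encodable.encode (i, q)) = i := by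
  simp [L33_old]

theorem L33_vars (a : ℕ → ℤ) (L : List (ℕ × Bool)) :
    (vars (L33_tr a L)).image L33_old = vars L := by
  have h1 : ((L33_tr a L).map Prod.fst).map L33_old = L.map Prod.fst := by
    induction L with
    | nil => rfl
    | cons x L ih =>
      simp only [L33_tr, List.map_cons, L33_old_encode]
      exact congrArg _ ih
  unfold vars
  rw [← h1]
  ext c
  simp

theorem L33_mem (a : ℕ → ℤ) (u : List (ℕ × Bool)) (x : ℕ × Bool) (v : List (ℕ × Bool)) :
    Encodable.encode (x.1, L33_pos a x v) ∈ vars (L33_tr a (u ++ x :: v)) := by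
  unfold vars
  rw [List.mem_toFinset]
  induction u with
  | nil => simp [L33_tr]
  | cons y u ih =>
    simp only [List.cons_append, L33_tr, List.map_cons]
    exact List.mem_cons_of_mem _ ih

theorem L33_card {a : ℕ → ℤ} {L u v s : List (ℕ × Bool)} {i : ℕ} {e e' : Bool}
    (hL : L = u ++ (i, e) :: (s ++ (i, e') :: v))
    (hp : L33_pos a (i, e) (s ++ (i, e') :: v) ≠ L33_pos a (i, e') v) :
    (vars L).card < (vars (L33_tr a L)).card := by
  rw [← L33_vars a L]
  refine lt_of_le_of_ne Finset.card_image_le fun h => ?_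
  rw [Finset.card_image_iff] at h
  have h1 := L33_mem a u (i, e) (s ++ (i, e') :: v)
  have h2 := L33_mem a (u ++ (i, e) :: s) (i, e') v
  rw [← hL] at h1
  rw [List.append_assoc, List.cons_append, ← hL] at h2
  have h3 := h h1 h2 (by rw [L33_old_encode, L33_old_encode])
  exact hp (Prod.mk.inj (Encodable.encode_injective h3)).2

/-- two occurrences of a variable with different variables between them -/
theorem L33_split {L : List (ℕ × Bool)} (h : ¬ (L.map Prod.fst).Nodup) :
    ∃ (u : List (ℕ × Bool)) (i : ℕ) (e : Bool) (s : List (ℕ × Bool)) (e' : Bool)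
      (v : List (ℕ × Bool)), L = u ++ (i, e) :: (s ++ (i, e') :: v) ∧ (s.map Prod.fst).Nodup ∧
        ∀ x ∈ s, x.1 ≠ i := by
  induction L with
  | nil => exact absurd List.nodup_nil h
  | cons x L ih =>
    by_cases h1 : (L.map Prod.fst).Nodup
    · rw [List.map_cons, List.nodup_cons, not_and_or, not_not] at h
      obtain ⟨y, hy, hyx⟩ := List.mem_map.1 (h.resolve_right (not_not.2 h1))
      obtain ⟨s, v, rfl⟩ := List.append_of_mem hy
      rw [List.map_append, List.map_cons] at h1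
      have h2 := List.nodup_append.1 h1
      refine ⟨[], x.1, x.2, s, y.2, v, ?_, h2.1, fun z hz he => ?_⟩
      · have hy2 : (x.1, y.2) = y := Prod.ext hyx.symm rfl
        rw [hy2]
        rfl
      · exact h2.2.2 z.1 (List.mem_map_of_mem hz) y.1 List.mem_cons_self (he.trans hyx.symm)
    · obtain ⟨u, i, e, s, e', v, hL, h2, h3⟩ := ih h1
      exact ⟨x :: u, i, e, s, e', v, by rw [hL]; rfl, h2, h3⟩

theorem L33_red_append {u : List (ℕ × Bool)} {x y : ℕ × Bool} {v : List (ℕ × Bool)}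
    (h : Red (u ++ x :: y :: v)) (he : x.1 = y.1) : x.2 = y.2 := by
  unfold Red at h
  have h1 := (List.isChain_append.1 h).2.1
  exact (List.isChain_cons_cons.1 h1).1 he

theorem descent {G : Type} [Group G] {B : Subgroup G} {h : G} {L : List (ℕ × Bool)}
    (hred : Red L) (hrep : ¬ (L.map Prod.fst).Nodup) (hB : ∃ y ∈ B, y ≠ 1)
    (hZ : ∀ z ∈ B, (∀ y ∈ B, z * y = y * z) → z = 1)
    (hcomm : ∀ i : ℤ, i ≠ 0 → |i| ≤ 2 * (L.length : ℤ) → ∀ y ∈ B, ∀ z ∈ B,
      y * (h ^ i * z * (h ^ i)⁻¹) = (h ^ i * z * (h ^ i)⁻¹) * y)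
    (hlaw : ∀ f : ℕ → G, ev f L = 1) :
    ∃ L' : List (ℕ × Bool), Red L' ∧ L'.length = L.length ∧ (vars L).card < (vars L').card ∧
      ∀ f : ℕ → B, ev f L' = 1 := by
  obtain ⟨u, i, e, s, e', v, hL, hs, hi⟩ := L33_split hrep
  -- it is enough to find the heights
  suffices hsuf : ∃ a : ℕ → ℤ, (∀ j, |a j| ≤ 1) ∧
      L33_pos a (i, e) (s ++ (i, e') :: v) ≠ L33_pos a (i, e') v by
    obtain ⟨a, ha, hp⟩ := hsuf
    exact ⟨L33_tr a L, L33_red hred, L33_length a L, L33_card hL hp,
      fun f => L33_law hB hZ hcomm hlaw ha f⟩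
  by_cases hee : e = e'
  · subst hee
    refine ⟨fun j => if j = i then 1 else 0, fun j => by
      show |if j = i then (1 : ℤ) else 0| ≤ 1
      split_ifs <;> simp, ?_⟩
    have h1 : L33_ht (fun j => if j = i then 1 else 0) s = 0 :=
      L33_ht_zero fun x hx => if_neg (hi x hx)
    rcases e with _ | _
    · simp only [L33_pos, L33_ht_append, h1, L33_ht, cond_false, if_true]
      omega
    · simp only [L33_pos, L33_ht_append, h1, L33_ht, cond_true, if_true]
      omega
  · cases s with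
    | nil =>
      exfalso
      rw [List.nil_append] at hL
      rw [hL] at hred
      exact hee (L33_red_append hred rfl)
    | cons c s =>
      have hci : c.1 ≠ i := hi c List.mem_cons_self
      have hcs : c.1 ∉ s.map Prod.fst := (List.nodup_cons.1 hs).1
      obtain ⟨a, ha⟩ : ∃ a : ℕ → ℤ, a = fun j => if j = c.1 then 1 else 0 := ⟨_, rfl⟩
      have ha0 : a i = 0 := by
        rw [ha]
        exact if_neg fun he => hci he.symm
      have ha1 : a c.1 = 1 := by
        rw [ha]
        exact if_pos rfl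
      refine ⟨a, fun j => by
        rw [ha]
        show |if j = c.1 then (1 : ℤ) else 0| ≤ 1
        split_ifs <;> simp, ?_⟩
      have h1 : L33_ht a s = 0 := by
        refine L33_ht_zero fun x hx => ?_
        rw [ha]
        refine if_neg fun he => hcs ?_
        rw [← he]
        exact List.mem_map_of_mem hx
      have h2 : ∀ (e : Bool) (M : List (ℕ × Bool)), L33_pos a (i, e) M = L33_ht a M := by
        intro e M
        cases e
        · show L33_ht a M - a i = L33_ht a M
          rw [ha0, sub_zero]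
        · rfl
      have h3 : L33_ht a ((i, e') :: v) = L33_ht a v := by
        cases e'
        · show L33_ht a v - a i = L33_ht a v
          rw [ha0, sub_zero]
        · show L33_ht a v + a i = L33_ht a v
          rw [ha0, add_zero]
      have h4 : L33_ht a (c :: s) = 1 ∨ L33_ht a (c :: s) = -1 := by
        rcases c with ⟨j, ec⟩
        simp only at ha1
        cases ec
        · right
          show L33_ht a s - a j = -1
          rw [h1, ha1]
          norm_num
        · left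
          show L33_ht a s + a j = 1
          rw [h1, ha1]
          norm_num
      rw [h2, h2, L33_ht_append, h3]
      rcases h4 with h4 | h4 <;> rw [h4] <;> omega

end Pool.Agent.H2Blocks
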