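import Pool.Agent.H2Blocks.Good2

/-!
# The sections
-/

set_option autoImplicit false

namespace Pool.Agent.H2Blocks

open Pool.Agent.H2SlowRed

/-- a simple section, or a residually finite one all of whose subgroups of finite index and normal
subgroups are critical -/
theorem exists_good {G : Type} [Group G] (hG : SubG G) (hn : ¬ VSm (⊥ : Subgroup G))
    {L : List (ℕ × Bool)} (hL : MinLaw G L) :
    ∃ (H : Type) (_ : Group H), Sec G H ∧ SubG H ∧ ¬ VSm (⊥ : Subgroup H) ∧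
      (IsSimpleGroup H ∨ Good H L) := by
  obtain ⟨N, hN, hJN, -⟩ := exists_JN hG fun h => hn h.vs
  have hsec : Sec G (G ⧸ N) := Sec.of_surj (QuotientGroup.mk'_surjective N)
  by_cases h0 : Res (G ⧸ N) = ⊥
  · have hJS := js_of_jn hJN
    obtain ⟨C, hC, hp⟩ := exists_prime hJS h0 (hL.of_sec hsec)
    have hn : ((Cz C).subgroupOf (Nm C)).Normal := by
      refine ⟨fun x hx g => ?_⟩
      rw [Subgroup.mem_subgroupOf] at hx ⊢
      rw [mem_Cz] at hx ⊢
      intro y hy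
      have h1 := hx _ (Nm_conj' g.2 hy)
      rw [Subgroup.coe_mul, Subgroup.coe_mul, Subgroup.coe_inv]
      calc (g : G ⧸ N) * x * (g : G ⧸ N)⁻¹ * y
          = g * (x * ((g : G ⧸ N)⁻¹ * y * g)) * (g : G ⧸ N)⁻¹ := by group
        _ = g * (((g : G ⧸ N)⁻¹ * y * g) * x) * (g : G ⧸ N)⁻¹ := by rw [h1]
        _ = _ := by group
    have hsur := QuotientGroup.mk'_surjective ((Cz C).subgroupOf (Nm C))
    have hker : ∀ x, QuotientGroup.mk' ((Cz C).subgroupOf (Nm C)) x = 1 ↔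
        (x : G ⧸ N) ∈ Cz C := fun x => QuotientGroup.eq_one_iff x
    have h1 := star_js hJS h0 hC hsur hker
    have hs := hsec.trans ((Sec.of_sub (Nm C)).trans (Sec.of_surj hsur))
    exact ⟨Nm C ⧸ (Cz C).subgroupOf (Nm C), inferInstance, hs, h1.sub, h1.not_vs,
      Or.inr ⟨h1, star_res h0 hsur hker, fun M X hM hX0 hX =>
        star_normal hJS h0 hC hp hsur hker hM hX0 hX, hL.of_sec hs⟩⟩
  · obtain ⟨M, hM, h1, h2, h3⟩ := hJN.dichotomy h0
    exact ⟨Res (G ⧸ N) ⧸ M, inferInstance, hsec.trans ((Sec.of_sub _).trans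
      (Sec.of_surj (QuotientGroup.mk'_surjective M))), h2, fun h4 => h3 (milnor_wolf h2 h4),
      Or.inl h1⟩

/-- **the sections** -/
theorem sections {G : Type} [Group G] (hG : SubG G) (hn : ¬ VNm (⊥ : Subgroup G))
    {w : FreeGroup ℕ} (hw : w ≠ 1) (hlaw : ∀ f : ℕ → G, FreeGroup.lift f w = 1) :
    ∃ (H : Type) (_ : Group H) (L : List (ℕ × Bool)), Sec G H ∧ SubG H ∧
      ¬ VNm (⊥ : Subgroup H) ∧ MinLaw H L ∧
      (IsSimpleGroup H ∨ Good H L ∧ (¬ Ind H ∨ ∀ K : Subgroup H, Reach K → Ind K)) := by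
  have h1 : ∀ f : ℕ → G, ev f w.toWord = 1 := by
    intro f
    rw [ev_eq_lift, FreeGroup.mk_toWord]
    exact hlaw f
  obtain ⟨G', _, L, h2, h3, h4, hL⟩ := exists_minLaw hG (fun h => hn (milnor_wolf hG h))
    (red_toWord w) (fun h => hw (FreeGroup.toWord_eq_nil_iff.1 h)) h1
  obtain ⟨H, _, h5, h6, h7, h8⟩ := exists_good h3 h4 hL
  rcases h8 with h8 | h8
  · exact ⟨H, inferInstance, L, h2.trans h5, h6, fun h => h7 h.vs, hL.of_sec h5, Or.inl h8⟩
  · by_cases h9 : ∀ K : Subgroup H, Reach K → Ind K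
    · exact ⟨H, inferInstance, L, h2.trans h5, h6, fun h => h7 h.vs, hL.of_sec h5,
        Or.inr ⟨h8, Or.inr h9⟩⟩
    · push Not at h9
      obtain ⟨K, hK, hKI⟩ := h9
      have h10 := h8.reach hK
      exact ⟨K, inferInstance, L, h2.trans (h5.trans (Sec.of_sub K)), h10.js.sub,
        fun h => h10.js.not_vs h.vs, h10.min, Or.inr ⟨h10, Or.inl hKI⟩⟩

end Pool.Agent.H2Blocks
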