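import Pool.Agent.H2SlowRed.Final
import Mathlib.LinearAlgebra.Matrix.ToLinearEquiv
import Mathlib.LinearAlgebra.Matrix.Charpoly.Basic
import Mathlib.NumberTheory.MahlerMeasure

set_option autoImplicit false

namespace Pool.Agent.H2Blocks

open Pool.Agent.H2SlowRed Pool.Agent.FullLaws Pool.Agent.Tracks

/-- powers of a matrix on an eigenvector -/
theorem MW1_pow_mulVec {r : ℕ} (A : Matrix (Fin r) (Fin r) ℂ) (v : Fin r → ℂ) (z : ℂ)
    (h : A.mulVec v = z • v) (e : ℕ) : (A ^ e).mulVec v = z ^ e • v := by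
  induction e with
  | zero => simp
  | succ e ih =>
    rw [pow_succ, ← Matrix.mulVec_mulVec, h, Matrix.mulVec_smul, ih, smul_smul, pow_succ, mul_comm]

/-- MW1: a matrix with integer entries and determinant not `0`, all of whose complex eigenvalues
have absolute value at most `1`: some power of it has a nonzero fixed vector -/
theorem mw_kronecker {r : ℕ} (hr : 0 < r) (M : Matrix (Fin r) (Fin r) ℤ) (hdet : M.det ≠ 0)
    (h : ∀ (z : ℂ) (u : Fin r → ℂ), u ≠ 0 →
      Matrix.vecMul u (M.map (Int.castRingHom ℂ)) = z • u → ‖z‖ ≤ 1) :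
    ∃ e : ℕ, 0 < e ∧ ∃ v : Fin r → ℤ, v ≠ 0 ∧ (M ^ e).mulVec v = v := by
  classical
  set A : Matrix (Fin r) (Fin r) ℂ := M.map (Int.castRingHom ℂ) with hA
  have hmap : M.charpoly.map (Int.castRingHom ℂ) = A.charpoly := (Matrix.charpoly_map M _).symm
  have hmonic : (M.charpoly.map (Int.castRingHom ℂ)).Monic := M.charpoly_monic.map _
  have hne : M.charpoly.map (Int.castRingHom ℂ) ≠ 0 := hmonic.ne_zero
  -- the determinant of `z - A` at a root
  have hroot : ∀ z ∈ (M.charpoly.map (Int.castRingHom ℂ)).roots,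
      (Matrix.scalar (Fin r) z - A).det = 0 := by
    intro z hz
    rw [Polynomial.mem_roots hne, Polynomial.IsRoot.def, hmap, Matrix.eval_charpoly] at hz
    exact hz
  have hnorm : ∀ z ∈ (M.charpoly.map (Int.castRingHom ℂ)).roots, ‖z‖ ≤ 1 := by
    intro z hz
    obtain ⟨u, hu0, hu⟩ := Matrix.exists_vecMul_eq_zero_iff.mpr (hroot z hz)
    refine h z u hu0 ?_
    rw [Matrix.vecMul_sub, sub_eq_zero] at hu
    rw [← hu]
    ext j
    simp [Matrix.scalar_apply, Matrix.vecMul_diagonal, mul_comm]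
  -- the Mahler measure is one
  have hmahler : (M.charpoly.map (Int.castRingHom ℂ)).mahlerMeasure = 1 := by
    rw [Polynomial.mahlerMeasure_eq_leadingCoeff_mul_prod_roots, hmonic.leadingCoeff, norm_one,
      one_mul]
    refine Multiset.prod_eq_one fun x hx => ?_
    obtain ⟨z, hz, rfl⟩ := Multiset.mem_map.mp hx
    exact max_eq_left (hnorm z hz)
  -- a root
  have hdeg : (M.charpoly.map (Int.castRingHom ℂ)).degree ≠ 0 := by
    have : Nonempty (Fin r) := ⟨⟨0, hr⟩⟩
    rw [hmap, Matrix.charpoly_degree_eq_dim, Fintype.card_fin]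
    exact_mod_cast hr.ne'
  obtain ⟨z, hz⟩ := IsAlgClosed.exists_root _ hdeg
  have hzr : z ∈ (M.charpoly.map (Int.castRingHom ℂ)).roots := (Polynomial.mem_roots hne).mpr hz
  have hz0 : z ≠ 0 := by
    rintro rfl
    have h1 := hroot 0 hzr
    rw [map_zero, zero_sub, Matrix.det_neg] at h1
    have h2 : (Int.castRingHom ℂ) M.det = A.det := RingHom.map_det (Int.castRingHom ℂ) M
    rw [← h2] at h1
    rcases mul_eq_zero.mp h1 with h3 | h3
    · exact absurd h3 (pow_ne_zero _ (by norm_num))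
    · exact hdet (by simpa using h3)
  have hza : z ∈ M.charpoly.aroots ℂ := by
    have e1 : algebraMap ℤ ℂ = Int.castRingHom ℂ := RingHom.ext_int _ _
    rw [Polynomial.aroots, e1]
    exact hzr
  obtain ⟨e, he, hze⟩ := Polynomial.pow_eq_one_of_mahlerMeasure_eq_one hmahler hz0 hza
  refine ⟨e, he, ?_⟩
  obtain ⟨v, hv0, hv⟩ := Matrix.exists_mulVec_eq_zero_iff.mpr (hroot z hzr)
  have hv' : A.mulVec v = z • v := by
    rw [Matrix.sub_mulVec, sub_eq_zero] at hv
    rw [← hv]
    ext j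
    simp [Matrix.scalar_apply, Matrix.mulVec_diagonal]
  have hd : (A ^ e - 1).det = 0 := by
    refine Matrix.exists_mulVec_eq_zero_iff.mp ⟨v, hv0, ?_⟩
    rw [Matrix.sub_mulVec, MW1_pow_mulVec A v z hv', hze, one_smul, Matrix.one_mulVec, sub_self]
  have hd' : (M ^ e - 1).det = 0 := by
    have h3 : (Int.castRingHom ℂ) (M ^ e - 1).det = (A ^ e - 1).det := by
      rw [RingHom.map_det, map_sub, map_pow, map_one]
      rfl
    rw [hd] at h3
    simpa using h3
  obtain ⟨w, hw0, hw⟩ := Matrix.exists_mulVec_eq_zero_iff.mpr hd'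
  refine ⟨w, hw0, ?_⟩
  rw [Matrix.sub_mulVec, Matrix.one_mulVec, sub_eq_zero] at hw
  exact hw

end Pool.Agent.H2Blocks
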