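import Pool.Agent.H2Blocks.Inf
import Pool.Agent.H2Blocks.L_h33
import Pool.Agent.H2Blocks.E_h28

/-!
# Blocks and laws of minimal complexity
-/

set_option autoImplicit false

namespace Pool.Agent.H2Blocks

open Pool.Agent.H2SlowRed

variable {G : Type} [Group G]

/-- `H` is a section of `G`: a quotient of a subgroup -/
def Sec (G H : Type) [Group G] [Group H] : Prop :=
  ∃ (S : Subgroup G) (φ : S →* H), Function.Surjective φ

theorem Sec.refl (G : Type) [Group G] : Sec G G :=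
  ⟨⊤, (⊤ : Subgroup G).subtype, fun x => ⟨⟨x, Subgroup.mem_top x⟩, rfl⟩⟩

theorem Sec.of_surj {G H : Type} [Group G] [Group H] {φ : G →* H} (hφ : Function.Surjective φ) :
    Sec G H :=
  ⟨⊤, φ.comp (⊤ : Subgroup G).subtype, fun x => by
    obtain ⟨g, rfl⟩ := hφ x
    exact ⟨⟨g, Subgroup.mem_top g⟩, rfl⟩⟩

theorem Sec.of_sub {G : Type} [Group G] (S : Subgroup G) : Sec G S :=
  ⟨S, MonoidHom.id S, fun x => ⟨x, rfl⟩⟩

theorem Sec.trans {G H K : Type} [Group G] [Group H] [Group K] (h1 : Sec G H) (h2 : Sec H K) :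
    Sec G K := by
  obtain ⟨S, φ, hφ⟩ := h1
  obtain ⟨T, ψ, hψ⟩ := h2
  refine ⟨(T.comap φ).map S.subtype, ψ.comp ((φ.subgroupComap T).comp
    ((T.comap φ).equivMapOfInjective S.subtype
      (Subgroup.subtype_injective S)).symm.toMonoidHom), ?_⟩
  rw [MonoidHom.coe_comp, MonoidHom.coe_comp]
  exact hψ.comp ((MonoidHom.subgroupComap_surjective_of_surjective _ _ hφ).comp
    (MulEquiv.surjective _))

/-- `L` is a law of `G`, of minimal complexity among all laws of sections of `G` of subexponential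
growth which are not virtually solvable -/
structure MinLaw (G : Type) [Group G] (L : List (ℕ × Bool)) : Prop where
  red : Red L
  ne : L ≠ []
  law : ∀ f : ℕ → G, ev f L = 1
  min : ∀ (H : Type) [Group H], Sec G H → SubG H → ¬ VSm (⊥ : Subgroup H) →
    ∀ L' : List (ℕ × Bool), Red L' → L' ≠ [] → (∀ f : ℕ → H, ev f L' = 1) →
    L.length + (vars L').card ≤ L'.length + (vars L).card

theorem ev_eq_one {f : ℕ → G} {L : List (ℕ × Bool)} (h : ∀ x ∈ L, f x.1 = 1) : ev f L = 1 := by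
  induction L with
  | nil => rfl
  | cons a L ih =>
    have h1 : ev f (a :: L) = cond a.2 (f a.1) (f a.1)⁻¹ * ev f L := rfl
    rw [h1, ih fun x hx => h x (List.mem_cons_of_mem _ hx), mul_one,
      h a List.mem_cons_self]
    cases a.2 <;> simp

theorem law_rep {L : List (ℕ × Bool)} (hne : L ≠ []) (hlaw : ∀ f : ℕ → G, ev f L = 1)
    (hG : Nontrivial G) : ¬ (L.map Prod.fst).Nodup := by
  intro hnd
  obtain ⟨g, hg⟩ := exists_ne (1 : G)
  cases L with
  | nil => exact hne rfl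
  | cons a L =>
    rw [List.map_cons, List.nodup_cons] at hnd
    have h1 := hlaw (fun i => if i = a.1 then g else 1)
    have h2 : ev (fun i => if i = a.1 then g else 1) (a :: L) =
        cond a.2 g g⁻¹ * ev (fun i => if i = a.1 then g else 1) L := by
      show cond a.2 (if a.1 = a.1 then g else 1) (if a.1 = a.1 then g else 1)⁻¹ * _ = _
      rw [if_pos rfl]
      rfl
    have h3 : ev (fun i => if i = a.1 then g else 1) L = 1 := by
      refine ev_eq_one fun x hx => ?_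
      have h4 : x.1 ≠ a.1 := fun h5 => hnd.1 (h5 ▸ List.mem_map_of_mem hx)
      simp [h4]
    rw [h2, h3, mul_one] at h1
    cases h5 : a.2 with
    | true =>
      rw [h5] at h1
      exact hg h1
    | false =>
      rw [h5] at h1
      exact hg (inv_eq_one.1 h1)

/-- no block has a long orbit -/
theorem orbit (h : JS G) (hr : Res G = ⊥) {L : List (ℕ × Bool)} (hL : MinLaw G L)
    {B : Subgroup G} (hB : Block B) (g : G) : ∃ k, 0 < k ∧ k ≤ 2 * L.length ∧ g ^ k ∈ Nm B := by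
  by_contra hcon
  push Not at hcon
  have hinf := h.infinite
  have h1 : ∀ i : ℤ, i ≠ 0 → |i| ≤ 2 * (L.length : ℤ) → g ^ i ∉ Nm B := by
    intro i hi0 hi h2
    refine hcon i.natAbs (Int.natAbs_pos.2 hi0) (by rw [Int.abs_eq_natAbs] at hi; omega) ?_
    rcases Int.natAbs_eq i with h3 | h3
    · rw [h3, zpow_natCast] at h2
      exact h2
    · rw [h3, zpow_neg, zpow_natCast] at h2
      exact (Subgroup.inv_mem_iff _).1 h2
  obtain ⟨L', h2, h3, h4, h5⟩ := descent (B := B) (h := g) (L := L) hL.red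
    (law_rep hL.ne hL.law inferInstance)
    (by
      by_contra hcon'
      push Not at hcon'
      exact hB.ne (le_bot_iff.1 fun x hx => Subgroup.mem_bot.2 (hcon' x hx)))
    (fun z hz hz' => hB.center h hz (mem_Cz.2 hz'))
    (fun i hi0 hi y hy z hz => by
      rcases hB.alt (g ^ i) with h6 | h6
      · exact absurd h6 (h1 i hi0 hi)
      · exact (mem_Cz.1 (h6 z hz) y hy).symm) hL.law
  have h6 := hL.min B (Sec.of_sub B) (hB.subG h) (hB.not_vs h hr) L' h2 (by
    intro h7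
    rw [h7, List.length_nil] at h3
    exact hL.ne (List.length_eq_zero_iff.1 h3.symm)) h5
  omega

theorem le_core {B : Subgroup G} (hB : Block B) : B ≤ (Nm B).normalCore := by
  intro b hb g
  rcases hB.alt g with h1 | h1
  · exact le_Nm B (Nm_conj h1 hb)
  · exact Cz_le_Nm B (h1 b hb)

theorem mul_pow_mem {B : Subgroup G} (hB : Block B) {b g : G} (hb : b ∈ B) (j : ℕ) :
    (g * b) ^ j ∈ Nm B ↔ g ^ j ∈ Nm B := by
  have h1 : ((g ^ j : G) : G ⧸ (Nm B).normalCore) = (((g * b) ^ j : G) : G ⧸ _) := by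
    have h2 : ((b : G) : G ⧸ (Nm B).normalCore) = 1 :=
      (QuotientGroup.eq_one_iff b).2 (le_core hB hb)
    rw [QuotientGroup.mk_pow, QuotientGroup.mk_pow, QuotientGroup.mk_mul, h2, mul_one]
  have h2 : (g ^ j)⁻¹ * (g * b) ^ j ∈ Nm B :=
    Subgroup.normalCore_le _ (QuotientGroup.eq.1 h1)
  constructor
  · intro h3
    have h4 := mul_mem h3 (inv_mem h2)
    rwa [show (g * b) ^ j * ((g ^ j)⁻¹ * (g * b) ^ j)⁻¹ = g ^ j by group] at h4
  · intro h3
    have h4 := mul_mem h3 h2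
    rwa [mul_inv_cancel_left] at h4

theorem mul_pow_eq {B : Subgroup G} (hB : Block B) {b g : G} (hb : b ∈ B) {k : ℕ}
    (hk : ∀ j, 0 < j → j < k → g ^ j ∉ Nm B) :
    ∀ j, 0 < j → j ≤ k → ∃ c ∈ Cz B, (g * b) ^ j = g ^ j * c * b := by
  intro j hj
  induction j, hj using Nat.le_induction with
  | base => exact fun _ => ⟨1, one_mem _, by simp⟩
  | succ j hj ih =>
    intro hjk
    obtain ⟨c, hc, h1⟩ := ih (by omega)
    refine ⟨(g ^ j)⁻¹ * b * g ^ j * c, mul_mem ?_ hc, ?_⟩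
    · rcases hB.alt (g ^ j)⁻¹ with h2 | h2
      · exact absurd ((Subgroup.inv_mem_iff _).1 h2) (hk j (by omega) (by omega))
      · have h3 := h2 b hb
        rwa [inv_inv] at h3
    · rw [pow_succ', h1, pow_succ']
      group

theorem exists_max_nat {p : ℕ → Prop} {m b : ℕ} (hm : p m) (hb : ∀ k, p k → k ≤ b) :
    ∃ k, p k ∧ ∀ k', p k' → k' ≤ k := by
  classical
  exact ⟨Nat.findGreatest p b, Nat.findGreatest_spec (hb m hm) hm,
    fun k' hk' => Nat.le_findGreatest (hb k' hk') hk'⟩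

/-- some block contains only blocks with the same normalizer -/
theorem exists_prime (h : JS G) (hr : Res G = ⊥) {L : List (ℕ × Bool)} (hL : MinLaw G L) :
    ∃ C : Subgroup G, Block C ∧ ∀ D : Subgroup G, Block D → D ≤ C → Nm C ≤ Nm D := by
  classical
  -- a maximal orbit
  obtain ⟨k, ⟨g, B, hB, hk0, hk1, hk2⟩, hmax⟩ : ∃ k, (∃ (g : G) (B : Subgroup G), Block B ∧ 0 < k ∧
      g ^ k ∈ Nm B ∧ ∀ j, 0 < j → j < k → g ^ j ∉ Nm B) ∧ ∀ k', (∃ (g : G) (B : Subgroup G),
      Block B ∧ 0 < k' ∧ g ^ k' ∈ Nm B ∧ ∀ j, 0 < j → j < k' → g ^ j ∉ Nm B) → k' ≤ k := by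
    refine exists_max_nat (m := 1) (b := 2 * L.length) ⟨1, ⊤, Block.top h, one_pos, by
      rw [one_pow]; exact one_mem _, fun j h3 h4 => by omega⟩ ?_
    rintro k' ⟨g, B, hB, h1, h2, h3⟩
    obtain ⟨i, h4, h5, h6⟩ := orbit h hr hL hB g
    by_contra h7
    exact h3 i h4 (by omega) h6
  -- orbits on smaller blocks
  have hsub : ∀ (g' : G), (∀ j, 0 < j → j < k → g' ^ j ∉ Nm B) → ∀ C : Subgroup G, Block C →
      C ≤ B → g' ^ k ∈ Nm C := by
    intro g' hg' C hC hCB
    obtain ⟨i, h4, h5, h6⟩ := orbit h hr hL hC g'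
    have h7 : ∃ i, 0 < i ∧ g' ^ i ∈ Nm C := ⟨i, h4, h6⟩
    obtain ⟨h8, h9⟩ := Nat.find_spec h7
    have h10 : ∀ j, 0 < j → j < Nat.find h7 → g' ^ j ∉ Nm C := fun j hj hj' h11 =>
      Nat.find_min h7 hj' ⟨hj, h11⟩
    have h11 : Nat.find h7 ≤ k := hmax _ ⟨g', C, hC, h8, h9, h10⟩
    have h12 : k ≤ Nat.find h7 := by
      by_contra h13
      exact hg' _ h8 (by omega) (hB.nm_le h hC hCB h9)
    rw [le_antisymm h12 h11]
    exact h9
  have hBC : ∀ C : Subgroup G, Block C → C ≤ B → B ≤ Nm C := by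
    intro C hC hCB b hb
    have h1 := hsub g hk2 C hC hCB
    have h2 := hsub (g * b) (fun j hj hj' h3 => hk2 j hj hj' ((mul_pow_mem hB hb j).1 h3)) C hC hCB
    obtain ⟨c, hc, h3⟩ := mul_pow_eq hB hb hk2 k hk0 le_rfl
    have h4 : b = c⁻¹ * (g ^ k)⁻¹ * (g * b) ^ k := by
      rw [h3]
      group
    rw [h4]
    exact mul_mem (mul_mem (inv_mem (Cz_le_Nm C (Cz_anti hCB hc))) (inv_mem h1)) h2
  -- the common core
  obtain ⟨T, hT⟩ : ∃ T : Subgroup G, T = ⨅ C : {C : Subgroup G // Block C ∧ C ≤ B},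
      (Nm C.1).normalCore := ⟨_, rfl⟩
  have hTn : T.Normal := by
    rw [hT]
    exact Subgroup.normal_iInf_normal fun C => inferInstance
  have hTB : B ≤ T := by
    intro b hb
    rw [hT, Subgroup.mem_iInf]
    rintro ⟨C, hC, hCB⟩ x
    rcases hB.alt x with h1 | h1
    · exact hBC C hC hCB (Nm_conj h1 hb)
    · exact Cz_le_Nm C (Cz_anti hCB (h1 b hb))
  have hT0 : T ≠ ⊥ := fun h0 => hB.ne (le_bot_iff.1 (h0 ▸ hTB))
  have hTe : ∀ x : G, x ^ (Nat.factorial (2 * L.length)) ∈ T := by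
    intro x
    rw [hT, Subgroup.mem_iInf]
    rintro ⟨C, hC, hCB⟩ y
    obtain ⟨i, h4, h5, h6⟩ := orbit h hr hL hC (y * x * y⁻¹)
    obtain ⟨q, hq⟩ := Nat.dvd_factorial h4 h5
    rw [← conj_pow, hq, pow_mul]
    exact pow_mem h6 q
  have hTi : T.FiniteIndex := finiteIndex_of_exponent h.sub hTn (h.vs T hTn hT0)
    (Nat.factorial_pos _) hTe
  -- a block with normalizer of maximal index
  obtain ⟨m, ⟨C, hC, hCB, hCm⟩, hmax'⟩ : ∃ m, (∃ C : Subgroup G, Block C ∧ C ≤ B ∧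
      (Nm C).index = m) ∧ ∀ m', (∃ C : Subgroup G, Block C ∧ C ≤ B ∧ (Nm C).index = m') →
      m' ≤ m := by
    refine exists_max_nat (m := (Nm B).index) (b := T.index) ⟨B, hB, le_rfl, rfl⟩ ?_
    rintro m' ⟨C, hC, hCB, rfl⟩
    have h2 : T ≤ Nm C := by
      rw [hT]
      exact (iInf_le (fun C : {C : Subgroup G // Block C ∧ C ≤ B} => (Nm C.1).normalCore)
        ⟨C, hC, hCB⟩).trans (Subgroup.normalCore_le _)
    exact Nat.le_of_dvd (Nat.pos_of_ne_zero hTi.index_ne_zero) (Subgroup.index_dvd_of_le h2)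
  refine ⟨C, hC, fun D hD hDC => ?_⟩
  have h1 : (Nm D).index ≤ (Nm C).index := by
    rw [hCm]
    exact hmax' _ ⟨D, hD, hDC.trans hCB, rfl⟩
  have h2 : Nm D ≤ Nm C := hC.nm_le h hD hDC
  have h3 := Subgroup.relIndex_mul_index h2
  have h4 := hD.fin.index_ne_zero
  have h5 := hC.fin.index_ne_zero
  have h6 : (Nm D).relIndex (Nm C) = 1 := by
    have h7 : (Nm D).relIndex (Nm C) ≠ 0 := by
      intro h8
      rw [h8, zero_mul] at h3
      exact h4 h3.symm
    have h8 : (Nm D).relIndex (Nm C) * (Nm C).index ≤ 1 * (Nm C).index := by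
      rw [h3, one_mul]
      exact h1
    have h9 := Nat.le_of_mul_le_mul_right h8 (Nat.pos_of_ne_zero h5)
    omega
  exact Subgroup.relIndex_eq_one.1 h6

end Pool.Agent.H2Blocks
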