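import Pool.Agent.H2Blocks.Inf

/-!
# The group induced on a block whose smaller blocks have the same normalizer
-/

set_option autoImplicit false

namespace Pool.Agent.H2Blocks

open Pool.Agent.H2SlowRed

variable {G : Type} [Group G]

/-- the intersection of the conjugates `t X t⁻¹`, `t ∈ T` -/
def IT (X : Subgroup G) (T : Set G) : Subgroup G where
  carrier := {y | ∀ t ∈ T, t⁻¹ * y * t ∈ X}
  one_mem' := fun t _ => by
    rw [mul_one, inv_mul_cancel]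
    exact one_mem _
  mul_mem' := fun {a b} ha hb t ht => by
    have h1 := mul_mem (ha t ht) (hb t ht)
    rwa [show t⁻¹ * a * t * (t⁻¹ * b * t) = t⁻¹ * (a * b) * t by group] at h1
  inv_mem' := fun {a} ha t ht => by
    have h1 := inv_mem (ha t ht)
    rwa [show (t⁻¹ * a * t)⁻¹ = t⁻¹ * a⁻¹ * t by group] at h1

theorem mem_IT {X : Subgroup G} {T : Set G} {y : G} : y ∈ IT X T ↔ ∀ t ∈ T, t⁻¹ * y * t ∈ X :=
  Iff.rfl

/-- below a nontrivial subgroup which is normal in a normal subgroup of finite index there is a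
block -/
theorem exists_block {K X : Subgroup G} (hK : K.Normal) (hKi : K.FiniteIndex) (hX : X ≤ K)
    (hX0 : X ≠ ⊥) (hN : K ≤ Nm X) : ∃ D : Subgroup G, D ≤ X ∧ Block D := by
  classical
  have hfin : Finite (G ⧸ K) := Subgroup.finite_quotient_of_finiteIndex
  obtain ⟨m, ⟨T, hT1, hT0, hTm⟩, hmax⟩ : ∃ m, (∃ T : Set G, (1 : G) ∈ T ∧ IT X T ≠ ⊥ ∧
      ((fun g : G => (g : G ⧸ K)) '' T).ncard = m) ∧ ∀ m', (∃ T : Set G, (1 : G) ∈ T ∧
      IT X T ≠ ⊥ ∧ ((fun g : G => (g : G ⧸ K)) '' T).ncard = m') → m' ≤ m := by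
    obtain ⟨p, hp⟩ : ∃ p : ℕ → Prop, p = fun m' => ∃ T : Set G, (1 : G) ∈ T ∧
      IT X T ≠ ⊥ ∧ ((fun g : G => (g : G ⧸ K)) '' T).ncard = m' := ⟨_, rfl⟩
    have h1 : ∀ m', p m' → m' ≤ Nat.card (G ⧸ K) := by
      intro m' hm'
      rw [hp] at hm'
      obtain ⟨T, -, -, rfl⟩ := hm'
      exact Set.ncard_le_card _
    have h2 : p ((fun g : G => (g : G ⧸ K)) '' {(1 : G)}).ncard := by
      rw [hp]
      refine ⟨{1}, rfl, fun h0 => hX0 ?_, rfl⟩
      refine le_bot_iff.1 fun x hx => ?_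
      rw [← h0, mem_IT]
      rintro t rfl
      rwa [inv_one, one_mul, mul_one]
    refine ⟨Nat.findGreatest p (Nat.card (G ⧸ K)), ?_, fun k' hk' => ?_⟩
    · have h3 := Nat.findGreatest_spec (h1 _ h2) h2
      subst hp
      exact h3
    · have h4 : p k' := by rw [hp]; exact hk'
      exact Nat.le_findGreatest (h1 k' h4) h4
  have hDX : IT X T ≤ X := by
    intro y hy
    have h1 := hy 1 hT1
    rwa [inv_one, one_mul, mul_one] at h1
  have hKD : ∀ k ∈ K, ∀ y ∈ IT X T, k * y * k⁻¹ ∈ IT X T := by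
    intro k hk y hy t ht
    have h1 : t⁻¹ * k * t ∈ K := by
      have h2 := hK.conj_mem k hk t⁻¹
      rwa [inv_inv] at h2
    have h2 := Nm_conj (hN h1) (hy t ht)
    rwa [show t⁻¹ * k * t * (t⁻¹ * y * t) * (t⁻¹ * k * t)⁻¹ = t⁻¹ * (k * y * k⁻¹) * t by
      group] at h2
  -- if `D` meets its conjugate then it is contained in it
  have key : ∀ g : G, (∃ y ∈ IT X T, g⁻¹ * y * g ∈ IT X T ∧ y ≠ 1) →
      ∀ y ∈ IT X T, g⁻¹ * y * g ∈ IT X T := by
    rintro g ⟨y, hy1, hy2, hy3⟩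
    have h1 : IT X (T ∪ (fun t => g * t) '' T) ≠ ⊥ := by
      intro h0
      refine hy3 (Subgroup.mem_bot.1 ?_)
      rw [← h0, mem_IT]
      rintro t (ht | ⟨t, ht, rfl⟩)
      · exact hy1 t ht
      · have h2 := hy2 t ht
        show (g * t)⁻¹ * y * (g * t) ∈ X
        rwa [show (g * t)⁻¹ * y * (g * t) = t⁻¹ * (g⁻¹ * y * g) * t by group]
    have h2 := hmax _ ⟨T ∪ (fun t => g * t) '' T, Or.inl hT1, h1, rfl⟩
    rw [← hTm] at h2
    have h3 : (fun g : G => (g : G ⧸ K)) '' T =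
        (fun g : G => (g : G ⧸ K)) '' (T ∪ (fun t => g * t) '' T) :=
      Set.eq_of_subset_of_ncard_le (Set.image_mono Set.subset_union_left) h2 (Set.toFinite _)
    intro z hz t ht
    have h4 : ((g * t : G) : G ⧸ K) ∈ (fun g : G => (g : G ⧸ K)) '' T := by
      rw [h3]
      exact ⟨g * t, Or.inr ⟨t, ht, rfl⟩, rfl⟩
    obtain ⟨t', ht', h5⟩ := h4
    have h6 : t'⁻¹ * (g * t) ∈ K := QuotientGroup.eq.1 h5
    have h7 := Nm_conj' (hN h6) (hz t' ht')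
    rwa [show (t'⁻¹ * (g * t))⁻¹ * (t'⁻¹ * z * t') * (t'⁻¹ * (g * t)) =
      t⁻¹ * (g⁻¹ * z * g) * t by group] at h7
  refine ⟨IT X T, hDX, hT0, ?_, fun g => ?_⟩
  · refine Subgroup.finiteIndex_of_le (H := K) fun k hk => mem_Nm_of (hKD k hk) fun y hy => ?_
    have h1 := hKD k⁻¹ (inv_mem hk) y hy
    rwa [inv_inv] at h1
  · by_cases h1 : ∃ y ∈ IT X T, g⁻¹ * y * g ∈ IT X T ∧ y ≠ 1
    · left
      refine mem_Nm_of ?_ (key g h1)
      obtain ⟨y, hy1, hy2, hy3⟩ := h1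
      have h2 := key g⁻¹ ⟨g⁻¹ * y * g, hy2, by
        rw [inv_inv]
        rwa [show g * (g⁻¹ * y * g) * g⁻¹ = y by group], fun h3 => hy3 (by
          rw [show y = g * (g⁻¹ * y * g) * g⁻¹ by group, h3]
          group)⟩
      intro x hx
      have h3 := h2 x hx
      rwa [inv_inv] at h3
    · right
      push Not at h1
      intro x hx
      rw [mem_Cz]
      intro y hy
      have hu : g * x * g⁻¹ ∈ K := hK.conj_mem x (hX (hDX hx)) g
      have h2 : g * x * g⁻¹ * y * (g * x * g⁻¹)⁻¹ * y⁻¹ ∈ IT X T :=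
        mul_mem (hKD _ hu y hy) (inv_mem hy)
      have h3 : g⁻¹ * (g * x * g⁻¹ * y * (g * x * g⁻¹)⁻¹ * y⁻¹) * g ∈ IT X T := by
        have h4 : g⁻¹ * y * g ∈ K := by
          have h5 := hK.conj_mem y (hX (hDX hy)) g⁻¹
          rwa [inv_inv] at h5
        have h5 := mul_mem hx (hKD _ h4 x⁻¹ (inv_mem hx))
        rwa [show x * (g⁻¹ * y * g * x⁻¹ * (g⁻¹ * y * g)⁻¹) =
          g⁻¹ * (g * x * g⁻¹ * y * (g * x * g⁻¹)⁻¹ * y⁻¹) * g by group] at h5
      have h4 := h1 _ h2 h3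
      calc g * x * g⁻¹ * y = (g * x * g⁻¹ * y * (g * x * g⁻¹)⁻¹ * y⁻¹) * (y * (g * x * g⁻¹)) := by
            group
        _ = _ := by rw [h4, one_mul]

theorem inf_ne_bot {C K : Subgroup G} (hC : Infinite C) (hK : K.FiniteIndex) : C ⊓ K ≠ ⊥ := by
  intro h0
  have h1 : K.subgroupOf C = ⊥ := by
    refine le_bot_iff.1 fun x hx => ?_
    have h2 : (x : G) ∈ C ⊓ K := Subgroup.mem_inf.2 ⟨x.2, Subgroup.mem_subgroupOf.1 hx⟩
    rw [h0, Subgroup.mem_bot] at h2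
    exact Subgroup.mem_bot.2 (Subtype.ext h2)
  have h2 : (K.subgroupOf C).FiniteIndex := inferInstance
  rw [h1] at h2
  have h3 := h2.index_ne_zero
  rw [Subgroup.index_bot] at h3
  exact not_finite_iff_infinite.2 hC (Nat.finite_of_card_ne_zero h3)

theorem nm_le_inf {C K : Subgroup G} (hK : K.Normal) : Nm C ≤ Nm (C ⊓ K) := by
  have key : ∀ g ∈ Nm C, ∀ x ∈ C ⊓ K, g * x * g⁻¹ ∈ C ⊓ K := fun g hg x hx =>
    Subgroup.mem_inf.2 ⟨Nm_conj hg (Subgroup.mem_inf.1 hx).1,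
      hK.conj_mem x (Subgroup.mem_inf.1 hx).2 g⟩
  intro g hg
  refine mem_Nm_of (key g hg) fun x hx => ?_
  have h1 := key g⁻¹ (inv_mem hg) x hx
  rwa [inv_inv] at h1

theorem block_inf (h : JS G) (hr : Res G = ⊥) {C K : Subgroup G} (hC : Block C) (hK : K.Normal)
    (hKi : K.FiniteIndex) : Block (C ⊓ K) :=
  hC.sub inf_le_left (inf_ne_bot (hC.infinite h hr) hKi) (nm_le_inf hK)

/-- an element which centralizes a subgroup of finite index of a block centralizes the block -/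
theorem cz_inf (h : JS G) (hr : Res G = ⊥) {C K : Subgroup G} (hC : Block C) (hK : K.Normal)
    (hKi : K.FiniteIndex) {n : G} (hn : n ∈ Cz (C ⊓ K)) : n ∈ Cz C := by
  have hCK := block_inf h hr hC hK hKi
  have hnC : n ∈ Nm C := hC.nm_le h hCK inf_le_left (Cz_le_Nm _ hn)
  have hW : C ⊓ Cz (C ⊓ K) = ⊥ := by
    by_contra h0
    have h1 : Block (C ⊓ Cz (C ⊓ K)) := by
      refine hC.sub inf_le_left h0 fun g hg => ?_
      have key : ∀ g ∈ Nm C, ∀ x ∈ C ⊓ Cz (C ⊓ K), g * x * g⁻¹ ∈ C ⊓ Cz (C ⊓ K) := by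
        intro g hg x hx
        obtain ⟨h2, h3⟩ := Subgroup.mem_inf.1 hx
        refine Subgroup.mem_inf.2 ⟨Nm_conj hg h2, mem_Cz.2 fun y hy => ?_⟩
        have h4 := mem_Cz.1 h3 _ (Nm_conj' (nm_le_inf hK hg) hy)
        calc g * x * g⁻¹ * y = g * (x * (g⁻¹ * y * g)) * g⁻¹ := by group
          _ = g * ((g⁻¹ * y * g) * x) * g⁻¹ := by rw [h4]
          _ = _ := by group
      refine mem_Nm_of (key g hg) fun x hx => ?_
      have h2 := key g⁻¹ (inv_mem hg) x hx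
      rwa [inv_inv] at h2
    refine inf_ne_bot (h1.infinite h hr) hKi (le_bot_iff.1 fun x hx => Subgroup.mem_bot.2 ?_)
    obtain ⟨h2, h3⟩ := Subgroup.mem_inf.1 hx
    obtain ⟨h4, h5⟩ := Subgroup.mem_inf.1 h2
    exact hCK.center h (Subgroup.mem_inf.2 ⟨h4, h3⟩) h5
  rw [mem_Cz]
  intro c hc
  have h1 : n * c * n⁻¹ * c⁻¹ ∈ C ⊓ Cz (C ⊓ K) := by
    refine Subgroup.mem_inf.2 ⟨mul_mem (Nm_conj hnC hc) (inv_mem hc), mem_Cz.2 fun d hd => ?_⟩
    have h2 : c⁻¹ * d * c ∈ C ⊓ K := Nm_conj' (nm_le_inf hK (le_Nm C hc)) hd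
    have h3 := mem_Cz.1 hn _ h2
    have h4 := mem_Cz.1 hn _ hd
    have h5 : n * (c⁻¹ * d * c) * n⁻¹ = c⁻¹ * d * c := by rw [h3, mul_inv_cancel_right]
    have h6 : n⁻¹ * d * n = d := by rw [mul_assoc, ← h4, inv_mul_cancel_left]
    have h7 : n * c * n⁻¹ * c⁻¹ * d * (n * c * n⁻¹ * c⁻¹)⁻¹ = d := by
      calc n * c * n⁻¹ * c⁻¹ * d * (n * c * n⁻¹ * c⁻¹)⁻¹
          = n * (c * (n⁻¹ * (c⁻¹ * d * c) * n) * c⁻¹) * n⁻¹ := by group
        _ = n * (c * (c⁻¹ * d * c) * c⁻¹) * n⁻¹ := by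
          have h8 : n⁻¹ * (c⁻¹ * d * c) * n = c⁻¹ * d * c := by
            rw [mul_assoc, ← h3, inv_mul_cancel_left]
          rw [h8]
        _ = n * d * n⁻¹ := by group
        _ = d := by rw [h4, mul_inv_cancel_right]
    exact mul_inv_eq_iff_eq_mul.1 h7
  rw [hW, Subgroup.mem_bot] at h1
  calc n * c = (n * c * n⁻¹ * c⁻¹) * (c * n) := by group
    _ = c * n := by rw [h1, one_mul]

end Pool.Agent.H2Blocks
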