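import Pool.Agent.H2SlowRed.Final

/-!
# Words as lists, and group laws
-/

set_option autoImplicit false

namespace Pool.Agent.H2Blocks

/-- the value of the word `L` under the substitution `f` -/
def ev {G : Type} [Group G] (f : ℕ → G) (L : List (ℕ × Bool)) : G :=
  (L.map (fun x => cond x.2 (f x.1) (f x.1)⁻¹)).prod

/-- reduced words -/
def Red (L : List (ℕ × Bool)) : Prop := L.IsChain (fun a b => a.1 = b.1 → a.2 = b.2)

/-- the variables of a word -/
def vars (L : List (ℕ × Bool)) : Finset ℕ := (L.map Prod.fst).toFinset

end Pool.Agent.H2Blocks
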